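import Pool.Agent.W418.LU2.Pair

/-!
Monomials in regular local rings.
-/

set_option autoImplicit false
set_option linter.unusedVariables false
set_option linter.unusedSectionVars false

universe u

namespace Pool.Agent.N98.RW

open IsLocalRing Pool.Agent.W418.LU2

variable {F : Type u} [Field F] {A P : Subring F} {ι : Type} [Fintype ι] {x : ι → F}

/-- Elements of the ring which are monomials have nonnegative exponents. -/
theorem RegP.split (h : RegP A P x) {z : P} (hz : PMon P x z) :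
    ∃ (ν : Type) (_ : Fintype ν) (e : ν → ι), (∀ i, Prime (⟨x (e i), h.mem (e i)⟩ : P)) ∧
      ∃ (u : P) (n : ν → ℕ), IsUnit u ∧ z = u * ∏ i, (⟨x (e i), h.mem (e i)⟩ : P) ^ n i := by
  classical
  have hreg := h.reg
  let ν := {i : ι // (⟨x i, h.mem i⟩ : P) ∈ maximalIdeal P}
  have hInd : Ind (fun i : ν => (⟨x i, h.mem i⟩ : P)) :=
    h.ind.ind (Subtype.val : ν → ι) Subtype.val_injective fun i => i.2
  obtain ⟨u, u0, u1, u2, δ, hzδ⟩ := hz
  -- the units
  have hsplit : ∃ v, v ≠ 0 ∧ v ∈ P ∧ v⁻¹ ∈ P ∧ mo x δ = v * ∏ i : ν, x i ^ δ i := by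
    refine ⟨∏ i : {i : ι // ¬ (⟨x i, h.mem i⟩ : P) ∈ maximalIdeal P}, x i ^ δ i, ?_, ?_, ?_, ?_⟩
    · exact Finset.prod_ne_zero_iff.2 fun i _ => zpow_ne_zero _ (h.ne _)
    · refine P.prod_mem fun i _ => ?_
      have h1 := i.2
      rw [mem_maximalIdeal, mem_nonunits_iff, not_not, h.isUnit] at h1
      have h2 := h.inv _ (h.mem i) h1.1 h1.2
      rcases Int.eq_nat_or_neg (δ i) with ⟨n, h3 | h3⟩
      · rw [h3, zpow_natCast]; exact P.pow_mem (h.mem i) n
      · rw [h3, zpow_neg, zpow_natCast, ← inv_pow]; exact P.pow_mem h2 n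
    · rw [← Finset.prod_inv_distrib]
      refine P.prod_mem fun i _ => ?_
      have h1 := i.2
      rw [mem_maximalIdeal, mem_nonunits_iff, not_not, h.isUnit] at h1
      have h2 := h.inv _ (h.mem i) h1.1 h1.2
      rcases Int.eq_nat_or_neg (δ i) with ⟨n, h3 | h3⟩
      · rw [h3, zpow_natCast, ← inv_pow]; exact P.pow_mem h2 n
      · rw [h3, zpow_neg, zpow_natCast, inv_inv]; exact P.pow_mem (h.mem i) n
    · unfold mo
      rw [mul_comm]
      exact (Fintype.prod_subtype_mul_prod_subtype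
        (fun i => (⟨x i, h.mem i⟩ : P) ∈ maximalIdeal P) fun i => x i ^ δ i).symm
  obtain ⟨v, v0, v1, v2, hv⟩ := hsplit
  have huv : IsUnit (⟨u * v, P.mul_mem u1 v1⟩ : P) := by
    refine isUnit_iff_exists_inv.2 ⟨⟨(u * v)⁻¹, ?_⟩, Subtype.ext ?_⟩
    · rw [mul_inv]; exact P.mul_mem u2 v2
    · exact mul_inv_cancel₀ (mul_ne_zero u0 v0)
  -- the signs
  have heq : ∀ w : P, (w : F) = u * v * ∏ i : ν, x i ^ δ i →
      w * ∏ i : ν, (⟨x i, h.mem i⟩ : P) ^ (-δ i).toNat =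
      ⟨u * v, P.mul_mem u1 v1⟩ * ∏ i : ν, (⟨x i, h.mem i⟩ : P) ^ (δ i).toNat := by
    intro w hw
    apply Subtype.ext
    change (w : F) * ((∏ i : ν, (⟨x i, h.mem i⟩ : P) ^ (-δ i).toNat : P) : F) =
      u * v * ((∏ i : ν, (⟨x i, h.mem i⟩ : P) ^ (δ i).toNat : P) : F)
    have hc : ∀ n : ν → ℕ, ((∏ i : ν, (⟨x i, h.mem i⟩ : P) ^ n i : P) : F) =
        ∏ i : ν, x i ^ n i := by
      intro n
      have h1 := map_prod P.subtype (fun i : ν => (⟨x i, h.mem i⟩ : P) ^ n i) Finset.univ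
      exact h1
    rw [hc, hc, hw, mul_assoc, ← Finset.prod_mul_distrib]
    congr 1
    refine Finset.prod_congr rfl fun i _ => ?_
    rw [← zpow_natCast, ← zpow_natCast, ← zpow_add₀ (h.ne _)]
    congr 1
    omega
  have hz' : (z : F) = u * v * ∏ i : ν, x i ^ δ i := by rw [hzδ, hv, mul_assoc]
  have hδ : ∀ i : ν, 0 ≤ δ i := by
    intro i
    by_contra hneg
    have h1 := heq z hz'
    have h2 : (⟨x i, h.mem i⟩ : P) ∣ ⟨u * v, P.mul_mem u1 v1⟩ *
        ∏ i : ν, (⟨x i, h.mem i⟩ : P) ^ (δ i).toNat := by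
      rw [← h1]
      refine dvd_trans ?_ (dvd_mul_left _ _)
      refine dvd_trans ?_ (Finset.dvd_prod_of_mem _ (Finset.mem_univ i))
      exact dvd_pow_self _ (by omega)
    have hpr : Prime (⟨x i, h.mem i⟩ : P) := hInd.prime i
    rcases hpr.dvd_or_dvd h2 with h3 | h3
    · exact hpr.not_isUnit (isUnit_of_dvd_unit h3 huv)
    · obtain ⟨j, -, h4⟩ := hpr.exists_mem_finset_dvd h3
      have h5 := hpr.dvd_of_dvd_pow h4
      by_cases hij : i = j
      · subst hij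
        have h6 : (δ i).toNat = 0 := by omega
        rw [h6, pow_zero] at h4
        exact hpr.not_isUnit (isUnit_of_dvd_one h4)
      · exact hInd.not_dvd hij h5
  refine ⟨ν, inferInstance, Subtype.val, fun i => hInd.prime i,
    ⟨u * v, P.mul_mem u1 v1⟩, fun i => (δ i).toNat, huv, ?_⟩
  rw [← heq z hz']
  have h1 : ∏ i : ν, (⟨x i, h.mem i⟩ : P) ^ (-δ i).toNat = 1 :=
    Finset.prod_eq_one fun i _ => by
      have h2 : (-δ i).toNat = 0 := by have := hδ i; omega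
      rw [h2, pow_zero]
  rw [h1, mul_one]

lemma PMon.gen [DecidableEq ι] (i : ι) : PMon P x (x i) :=
  ⟨1, one_ne_zero, P.one_mem, by rw [inv_one]; exact P.one_mem, Pi.single i 1, by
    unfold mo
    rw [one_mul, Finset.prod_eq_single i]
    · rw [Pi.single_eq_same, zpow_one]
    · intro j _ hj
      rw [Pi.single_eq_of_ne hj, zpow_zero]
    · intro h; exact absurd (Finset.mem_univ _) h⟩

lemma PMon.unit {u : F} (u0 : u ≠ 0) (u1 : u ∈ P) (u2 : u⁻¹ ∈ P) : PMon P x u :=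
  ⟨u, u0, u1, u2, 0, by rw [mo_zero, mul_one]⟩

lemma PMon.pow (hx : ∀ i, x i ≠ 0) {a : F} (ha : PMon P x a) (n : ℕ) : PMon P x (a ^ n) := by
  induction n with
  | zero => rw [pow_zero]; exact PMon.one
  | succ n ih => rw [pow_succ]; exact ih.mul hx ha

lemma PMon.prod (hx : ∀ i, x i ≠ 0) {κ : Type*} (s : Finset κ) (g : κ → F)
    (h : ∀ i ∈ s, PMon P x (g i)) : PMon P x (∏ i ∈ s, g i) := by
  classical
  induction s using Finset.induction_on with
  | empty => rw [Finset.prod_empty]; exact PMon.one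
  | insert i s hi ih =>
    rw [Finset.prod_insert hi]
    exact (h i (Finset.mem_insert_self _ _)).mul hx
      (ih fun j hj => h j (Finset.mem_insert_of_mem hj))

lemma PMon.ne (hx : ∀ i, x i ≠ 0) {a : F} (ha : PMon P x a) : a ≠ 0 := by
  obtain ⟨u, u0, -, -, δ, rfl⟩ := ha
  exact mul_ne_zero u0 (Finset.prod_ne_zero_iff.2 fun i _ => zpow_ne_zero _ (hx i))

/-- The divisors of monomials are monomials. -/
theorem RegP.dvd_mon (h : RegP A P x) {z a b : F} (hz : PMon P x z) (ha : a ∈ P) (hb : b ∈ P)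
    (hab : a * b = z) : PMon P x a := by
  classical
  have hreg := h.reg
  have hzP : z ∈ P := hab ▸ P.mul_mem ha hb
  obtain ⟨ν, _, e, hpr, u, n, hu, hn⟩ := RegP.split h (z := ⟨z, hzP⟩) hz
  have h1 : (⟨a, ha⟩ : P) * ⟨b, hb⟩ = u * ∏ i : ν, (⟨x (e i), h.mem (e i)⟩ : P) ^ n i := by
    have h2 : (⟨a, ha⟩ : P) * ⟨b, hb⟩ = ⟨z, hzP⟩ := Subtype.ext hab
    rw [h2]
    exact hn
  obtain ⟨v, m, hv, hm⟩ := dvd_monomial (z := fun i : ν => (⟨x (e i), h.mem (e i)⟩ : P))
    hpr _ n u _ _ hu le_rfl h1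
  have hv' := (h.isUnit v).1 hv
  have h3 : a = (v : F) * ∏ i : ν, x (e i) ^ m i := by
    have h4 := congrArg Subtype.val hm
    have h5 := map_prod P.subtype (fun i : ν => (⟨x (e i), h.mem (e i)⟩ : P) ^ m i) Finset.univ
    change a = (v : F) * P.subtype (∏ i : ν, (⟨x (e i), h.mem (e i)⟩ : P) ^ m i) at h4
    rw [h5] at h4
    exact h4
  rw [h3]
  exact (PMon.unit hv'.1 v.2 (h.inv v v.2 hv'.1 hv'.2)).mul h.ne
    (PMon.prod h.ne _ _ fun i _ => PMon.pow h.ne (PMon.gen _) _)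

/-- Roots of monomials. -/
theorem RegP.of_pow (h : RegP A P x) {a : F} (ha : a ∈ P) {n : ℕ} (hn : n ≠ 0)
    (hz : PMon P x (a ^ n)) : PMon P x a := by
  obtain ⟨m, rfl⟩ := Nat.exists_eq_succ_of_ne_zero hn
  exact RegP.dvd_mon h hz ha (P.pow_mem ha m) (pow_succ' a m).symm

end Pool.Agent.N98.RW
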