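import Pool.Agent.N98.RW.Div
import Pool.Agent.N98.T2.Main

/-!
Denominators in sequences of quadratic transforms.
-/

set_option autoImplicit false
set_option linter.unusedVariables false
set_option linter.unusedSectionVars false

universe u

namespace Pool.Agent.N98.RW

open Pool.Agent.N98.T2 Pool.Agent.W418.LU2

variable {E : Type u} [Field E] {V : ValuationSubring E} {P P0 : Subring E} {x y : E}

/-- The elements are quotients of elements of `P0` with denominators which divide a power of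
`e0`. -/
theorem re_q {e0 : E} (h : Re V P0 P) (he : e0 ∈ P0)
    (hev : V.valuation e0 < 1) (he0 : e0 ≠ 0) :
    ∀ c ∈ P, ∃ b ∈ P0, b ≠ 0 ∧ c * b ∈ P0 ∧ ∃ (m : ℕ), ∃ w ∈ P, b * w = e0 ^ m := by
  induction h with
  | base =>
    intro c hc
    exact ⟨1, P0.one_mem, one_ne_zero, by rwa [mul_one], 0, 1, P0.one_mem, by simp⟩
  | @step P P' s hR hN ih =>
    obtain ⟨y, hp, hw, rfl⟩ := hN
    intro c hc
    obtain ⟨g1, hg1, g2, hg2, hg20, hg2V, rfl⟩ := hc
    have hblV : bl P (y / s) ≤ V.toSubring := hp.bl_le hw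
    have hbd : bl P (y / s) ≤ dloc P s hp.xP := bl_le (le_dloc _ _ _) ⟨1, by
      rw [pow_one, mul_div_cancel₀ _ hp.x0]
      exact hp.yP⟩
    obtain ⟨N1, hN1⟩ := hbd hg1
    obtain ⟨N2, hN2⟩ := hbd hg2
    obtain ⟨e', he', hee⟩ := hp.div (hR.mono he) hev
    have hb1 : s ^ (N1 + N2) * g2 ∈ P := by
      rw [pow_add, mul_assoc]
      exact P.mul_mem (P.pow_mem hp.xP _) hN2
    have hb1c : s ^ (N1 + N2) * g2 * (g1 * g2⁻¹) ∈ P := by
      have e : s ^ (N1 + N2) * g2 * (g1 * g2⁻¹) = s ^ N2 * (s ^ N1 * g1) := by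
        rw [pow_add]
        field_simp
      rw [e]
      exact P.mul_mem (P.pow_mem hp.xP _) hN1
    obtain ⟨b', hb', hb'0, hbb', m', w', hw', hbw'⟩ := ih _ hb1
    obtain ⟨b'', hb'', hb''0, hbb'', m'', w'', hw'', hbw''⟩ := ih _ hb1c
    refine ⟨s ^ (N1 + N2) * g2 * b' * b'', P0.mul_mem hbb' hb'', ?_, ?_, N1 + N2 + m' + m'',
      e' ^ (N1 + N2) * g2⁻¹ * w' * w'', ?_, ?_⟩
    · exact mul_ne_zero (mul_ne_zero (mul_ne_zero (pow_ne_zero _ hp.x0) hg20) hb'0) hb''0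
    · have e : g1 * g2⁻¹ * (s ^ (N1 + N2) * g2 * b' * b'') =
          s ^ (N1 + N2) * g2 * (g1 * g2⁻¹) * b'' * b' := by ring
      rw [e]
      exact P0.mul_mem hbb'' hb'
    · refine Subring.mul_mem _ (Subring.mul_mem _ (Subring.mul_mem _ (Subring.pow_mem _
        (le_lo _ _ he') _) ?_) (le_lo _ _ (le_bl _ _ hw'))) (le_lo _ _ (le_bl _ _ hw''))
      exact inv_mem_lo hblV (le_lo _ _ hg2) hg20 hg2V
    · have e1 : s ^ (N1 + N2) * e' ^ (N1 + N2) = e0 ^ (N1 + N2) := by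
        rw [← mul_pow, mul_comm s, ← hee]
      calc s ^ (N1 + N2) * g2 * b' * b'' * (e' ^ (N1 + N2) * g2⁻¹ * w' * w'') =
          s ^ (N1 + N2) * e' ^ (N1 + N2) * (g2 * g2⁻¹) * (b' * w') * (b'' * w'') := by ring
        _ = _ := by
          rw [e1, mul_inv_cancel₀ hg20, hbw', hbw'', pow_add, pow_add]
          ring

section main

variable {k : Type u} [CommRing k] [IsDomain k] [IsNoetherianRing k] [Algebra k E]
  [IsFractionRing k E]

/-- **Embedded local uniformization** of two-dimensional regular local rings, with control of the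
denominators. -/
theorem exists_mono' (h0 : Par V P0 x y) (hP0 : ∀ e, e ∈ P0 ↔ ∃ a : k, algebraMap k E a = e)
    (hfin : ∀ (𝔭 : Ideal k) [𝔭.IsPrime], 𝔭 ≠ ⊥ →
      Module.Finite (k ⧸ 𝔭) (integralClosure (k ⧸ 𝔭) (FractionRing (k ⧸ 𝔭))))
    {H : Type} [Finite H] (f : H → E) (hf : ∀ t, f t ≠ 0) :
    ∃ (P : Subring E) (I : Type) (_ : Fintype I) (X : I → E), IsNoetherianRing P ∧
      (∀ a ∈ P, a ∈ V) ∧ (∀ a ∈ P, V.valuation a = 1 → a⁻¹ ∈ P) ∧ P0 ≤ P ∧
      (∃ G : Finset E, (∀ g ∈ G, g ∈ P) ∧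
        P ≤ lo V.toSubring (Subring.closure ((P0 : Set E) ∪ G))) ∧
      RV.RegC P X ∧ (∀ t, ∃ u, u ≠ 0 ∧ u ∈ P ∧ u⁻¹ ∈ P ∧ ∃ γ : I → ℤ,
        f t = u * ∏ i, X i ^ γ i) ∧
      ∀ c ∈ P, ∃ b ∈ P0, c * b ∈ P0 ∧ ∃ u, u ≠ 0 ∧ u ∈ P ∧ u⁻¹ ∈ P ∧ ∃ γ : I → ℤ,
        b = u * ∏ i, X i ^ γ i := by
  classical
  have hinj : Function.Injective (algebraMap k E) := IsFractionRing.injective k E
  -- fractions
  obtain ⟨x0, hx0⟩ := (hP0 x).1 h0.xP
  choose a b hb hab using fun t => IsFractionRing.div_surjective k (f t)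
  have hne : ∀ s : k, s ≠ 0 → algebraMap k E s ≠ 0 := fun s hs h =>
    hs (hinj (h.trans (map_zero _).symm))
  have hb0 : ∀ t, algebraMap k E (b t) ≠ 0 := fun t => hne _ (nonZeroDivisors.ne_zero (hb t))
  have ha0 : ∀ t, algebraMap k E (a t) ≠ 0 := by
    intro t h1
    apply hf t
    rw [← hab t, h1, zero_div]
  rcases exists_sq h0 with ⟨P, s, hS, hP, hR⟩ | ⟨P, s, hR, hD⟩
  · have := Fintype.ofFinite H
    have hP0' : ∀ e, e ∈ P 0 ↔ ∃ a : k, algebraMap k E a = e := by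
      rw [hP]
      exact hP0
    let F : E := x * ∏ t, (algebraMap k E (a t) * algebraMap k E (b t))
    have hF0 : F ≠ 0 := mul_ne_zero h0.x0
      (Finset.prod_ne_zero_iff.2 fun t _ => mul_ne_zero (ha0 t) (hb0 t))
    obtain ⟨n, z, hz, hm⟩ := ev_all hS hP0' hfin F hF0
    have hkP : ∀ c : k, algebraMap k E c ∈ P n := fun c =>
      hS.mono (Nat.zero_le n) ((hP0' _).2 ⟨c, rfl⟩)
    have hxP : x ∈ P n := by rw [← hx0]; exact hkP _
    have hdv : ∀ t, ∃ c ∈ P n, F = algebraMap k E (a t) * algebraMap k E (b t) * c := by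
      intro t
      refine ⟨x * ∏ i ∈ Finset.univ.erase t, (algebraMap k E (a i) * algebraMap k E (b i)),
        (P n).mul_mem hxP ((P n).prod_mem fun i _ => (P n).mul_mem (hkP _) (hkP _)), ?_⟩
      have h1 := (Finset.mul_prod_erase Finset.univ
        (fun i => algebraMap k E (a i) * algebraMap k E (b i)) (Finset.mem_univ t)).symm
      change x * ∏ t, (algebraMap k E (a t) * algebraMap k E (b t)) = _
      rw [h1]
      ring
    have hla : ∀ t, ∃ u ∈ P n, V.valuation u = 1 ∧ ∃ i j : ℕ,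
        algebraMap k E (a t) = u * s n ^ i * z ^ j := by
      intro t
      obtain ⟨c, hc, e⟩ := hdv t
      refine mono_of_dvd hz (hkP _) (b := algebraMap k E (b t) * c)
        ((P n).mul_mem (hkP _) hc) ?_
      rw [← mul_assoc, ← e]
      exact hm
    have hlb : ∀ t, ∃ u ∈ P n, V.valuation u = 1 ∧ ∃ i j : ℕ,
        algebraMap k E (b t) = u * s n ^ i * z ^ j := by
      intro t
      obtain ⟨c, hc, e⟩ := hdv t
      refine mono_of_dvd hz (hkP _) (b := algebraMap k E (a t) * c)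
        ((P n).mul_mem (hkP _) hc) ?_
      rw [← mul_assoc, mul_comm (algebraMap k E (b t)), ← e]
      exact hm
    have hlx : ∃ u ∈ P n, V.valuation u = 1 ∧ ∃ i j : ℕ, x = u * s n ^ i * z ^ j :=
      mono_of_dvd hz hxP ((P n).prod_mem fun i _ => (P n).mul_mem (hkP _) (hkP _)) hm
    have hle0 : ∀ c ∈ P0, c ∈ V := h0.le
    obtain ⟨G, hG1, -, hG2⟩ := (hR n).eft hle0
    refine ⟨P n, Fin 2, inferInstance, ![s n, z], hz.noeth, hz.le, hz.inv, (hR n).mono,
      ⟨G, hG1, hG2⟩, hz.regC, fun t => ?_, fun c hc => ?_⟩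
    · obtain ⟨u, hu, hu1, i, j, e1⟩ := hla t
      obtain ⟨v, hv, hv1, i', j', e2⟩ := hlb t
      have hu0 := ne_zero_of_one hu1
      have hv0 := ne_zero_of_one hv1
      have hui := hz.inv u hu hu1
      have hvi := hz.inv v hv hv1
      refine ⟨u * v⁻¹, mul_ne_zero hu0 (inv_ne_zero hv0), (P n).mul_mem hu hvi, ?_,
        ![(i : ℤ) - i', (j : ℤ) - j'], ?_⟩
      · rw [mul_inv, inv_inv]
        exact (P n).mul_mem hui hv
      · rw [Fin.prod_univ_two]
        change f t = u * v⁻¹ * (s n ^ ((i : ℤ) - i') * z ^ ((j : ℤ) - j'))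
        rw [← hab t, e1, e2, zpow_sub₀ hz.x0, zpow_sub₀ hz.y0, zpow_natCast, zpow_natCast,
          zpow_natCast, zpow_natCast]
        have := hz.x0
        have := hz.y0
        field_simp
    · obtain ⟨β, hβ, hβ0, hcβ, m, w, hw, hβw⟩ := re_q (hR n) h0.xP h0.xV h0.x0 c hc
      have hMx : Mo V (P n) (s n) z x := by
        obtain ⟨u, hu, hu1, i, j, e⟩ := hlx
        exact ⟨u, hu, hu1, i, j, by rw [zpow_natCast, zpow_natCast]; exact e⟩
      have hMxm : Mo V (P n) (s n) z (β * w) := by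
        rw [hβw, ← zpow_natCast]
        exact Mo.zpow hz hMx m
      obtain ⟨u, hu, hu1, i, j, e⟩ := mono_of_dvd hz ((hR n).mono hβ) hw hMxm
      refine ⟨β, hβ, hcβ, u, ne_zero_of_one hu1, hu, hz.inv u hu hu1, ![(i : ℤ), (j : ℤ)], ?_⟩
      rw [Fin.prod_univ_two]
      change β = u * (s n ^ (i : ℤ) * z ^ (j : ℤ))
      rw [zpow_natCast, zpow_natCast, ← mul_assoc]
      exact e
  · obtain ⟨G, hG1, -, hG2⟩ := hR.eft h0.le
    have hkP : ∀ c : k, algebraMap k E c ∈ P := fun c => hR.mono ((hP0 _).2 ⟨c, rfl⟩)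
    refine ⟨P, Unit, inferInstance, fun _ => s, hD.noeth, hD.le, hD.inv, hR.mono, ⟨G, hG1, hG2⟩,
      hD.regC, fun t => ?_, fun c hc => ?_⟩
    · obtain ⟨u, hu, hu1, i, e1⟩ := hD.mono (hkP (a t)) (ha0 t)
      obtain ⟨v, hv, hv1, i', e2⟩ := hD.mono (hkP (b t)) (hb0 t)
      have hu0 := ne_zero_of_one hu1
      have hv0 := ne_zero_of_one hv1
      have hui := hD.inv u hu hu1
      have hvi := hD.inv v hv hv1
      refine ⟨u * v⁻¹, mul_ne_zero hu0 (inv_ne_zero hv0), P.mul_mem hu hvi, ?_,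
        fun _ => (i : ℤ) - i', ?_⟩
      · rw [mul_inv, inv_inv]
        exact P.mul_mem hui hv
      · rw [Fintype.prod_unique]
        rw [← hab t, e1, e2, zpow_sub₀ hD.x0, zpow_natCast, zpow_natCast]
        have := hD.x0
        field_simp
    · obtain ⟨β, hβ, hβ0, hcβ, -⟩ := re_q hR h0.xP h0.xV h0.x0 c hc
      obtain ⟨u, hu, hu1, i, e⟩ := hD.mono (hR.mono hβ) hβ0
      refine ⟨β, hβ, hcβ, u, ne_zero_of_one hu1, hu, hD.inv u hu hu1, fun _ => (i : ℤ), ?_⟩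
      rw [Fintype.prod_unique, zpow_natCast]
      exact e

end main

end Pool.Agent.N98.RW
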