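import Pool.Agent.N98.RW.Single
import Pool.Agent.N98.RW.Q2
import Pool.Agent.N98.RW.PM

/-!
Base rings.
-/

set_option autoImplicit false
set_option linter.unusedVariables false
set_option linter.unusedSectionVars false

universe u

namespace Pool.Agent.N98.RW

open IsLocalRing Pool.Agent.W418.LU2 Pool.Agent.N98.RV

variable {E : Type u} [Field E]

/-- The local rings of blowings-up of `R` at the centres of the valuation ring `V`, with a
divisor. -/
structure Adl (V : ValuationSubring E) (R P : Subring E) (Θ : Set E) : Prop where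
  noeth : IsNoetherianRing P
  le : R ≤ P
  leV : ∀ a ∈ P, a ∈ V
  inv : ∀ a ∈ P, V.valuation a = 1 → a⁻¹ ∈ P
  eft : ∃ G : Finset E, (∀ g ∈ G, g ∈ P) ∧
    P ≤ lo V.toSubring (Subring.closure ((R : Set E) ∪ G))
  zero : (0 : E) ∉ Θ
  one : (1 : E) ∈ Θ
  mul : ∀ a ∈ Θ, ∀ b ∈ Θ, a * b ∈ Θ
  den : ∀ e ∈ Θ, ∃ d ∈ Θ, d ∈ P ∧ d * e ∈ P
  q : ∀ c ∈ P, ∃ b ∈ R, b ∈ Θ ∧ c * b ∈ R

/-- The admissible pairs. -/
def AdlS (V : ValuationSubring E) (R : Subring E) : Set (Subring E × Set E) :=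
  {p | Adl V R p.1 p.2}

section

variable {V : ValuationSubring E} {R P : Subring E} {Θ : Set E}

lemma Adl.den' (h : Adl V R P Θ) (s : Finset E) (hs : ∀ e ∈ s, e ∈ Θ) :
    ∃ d ∈ Θ, d ∈ P ∧ ∀ e ∈ s, d * e ∈ P := by
  classical
  induction s using Finset.induction_on with
  | empty => exact ⟨1, h.one, P.one_mem, fun e he => absurd he (Finset.notMem_empty e)⟩
  | insert a s ha ih =>
    obtain ⟨d, hd, hdP, hds⟩ := ih fun e he => hs e (Finset.mem_insert_of_mem he)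
    obtain ⟨d', hd', hdP', hds'⟩ := h.den a (hs a (Finset.mem_insert_self _ _))
    refine ⟨d * d', h.mul _ hd _ hd', P.mul_mem hdP hdP', fun e he => ?_⟩
    rcases Finset.mem_insert.1 he with rfl | he
    · rw [mul_assoc]
      exact P.mul_mem hdP hds'
    · rw [mul_comm d, mul_assoc]
      exact P.mul_mem hdP' (hds e he)

/-- Common denominators. -/
lemma Adl.q' (h : Adl V R P Θ) (s : Finset E) (hs : ∀ e ∈ s, e ∈ P) :
    ∃ b ∈ R, b ∈ Θ ∧ ∀ e ∈ s, e * b ∈ R := by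
  classical
  induction s using Finset.induction_on with
  | empty => exact ⟨1, R.one_mem, h.one, fun e he => absurd he (Finset.notMem_empty e)⟩
  | insert a s ha ih =>
    obtain ⟨d, hd, hdP, hds⟩ := ih fun e he => hs e (Finset.mem_insert_of_mem he)
    obtain ⟨d', hd', hdP', hds'⟩ := h.q a (hs a (Finset.mem_insert_self _ _))
    refine ⟨d * d', R.mul_mem hd hd', h.mul _ hdP _ hdP', fun e he => ?_⟩
    rcases Finset.mem_insert.1 he with rfl | he
    · rw [mul_comm d, ← mul_assoc]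
      exact R.mul_mem hds' hd
    · rw [← mul_assoc]
      exact R.mul_mem (hds e he) hd'

/-- The pairs which come from coordinates. -/
theorem adl_of {I : Type} [Fintype I] {X : I → E} (hn : IsNoetherianRing P) (hR : R ≤ P)
    (hV : ∀ a ∈ P, a ∈ V) (hi : ∀ a ∈ P, V.valuation a = 1 → a⁻¹ ∈ P)
    (he : ∃ G : Finset E, (∀ g ∈ G, g ∈ P) ∧
      P ≤ lo V.toSubring (Subring.closure ((R : Set E) ∪ G)))
    (hX0 : ∀ i, X i ≠ 0) (hXP : ∀ i, X i ∈ P)
    (hq : ∀ c ∈ P, ∃ b ∈ R, PMon P X b ∧ c * b ∈ R) : Adl V R P {e | PMon P X e} where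
  noeth := hn
  le := hR
  leV := hV
  inv := hi
  eft := he
  zero := fun h => PMon.ne hX0 h rfl
  one := PMon.one
  mul := fun a ha b hb => PMon.mul hX0 ha hb
  den := by
    classical
    rintro e ⟨u, u0, u1, u2, δ, rfl⟩
    refine ⟨∏ i, X i ^ (δ i).natAbs, PMon.prod hX0 _ _ fun i _ => PMon.pow hX0 (PMon.gen i) _,
      P.prod_mem fun i _ => P.pow_mem (hXP i) _, ?_⟩
    rw [mul_left_comm]
    refine P.mul_mem u1 ?_
    unfold mo
    rw [← Finset.prod_mul_distrib]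
    refine P.prod_mem fun i _ => ?_
    rw [← zpow_natCast, ← zpow_add₀ (hX0 i)]
    obtain ⟨n, hn⟩ : ∃ n : ℕ, ((δ i).natAbs : ℤ) + δ i = n := ⟨(((δ i).natAbs : ℤ) + δ i).toNat, by
      omega⟩
    rw [hn, zpow_natCast]
    exact P.pow_mem (hXP i) n
  q := hq

/-- From charts. -/
theorem hasF_adl {V : ValuationSubring E} {R : Subring E}
    (h : ∀ (H : Type) [Fintype H] (f : H → E), (∀ t, f t ≠ 0) →
      ∃ (P : Subring E) (I : Type) (_ : Fintype I) (X : I → E), IsNoetherianRing P ∧ R ≤ P ∧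
        (∀ a ∈ P, a ∈ V) ∧ (∀ a ∈ P, V.valuation a = 1 → a⁻¹ ∈ P) ∧
        (∃ G : Finset E, (∀ g ∈ G, g ∈ P) ∧
          P ≤ lo V.toSubring (Subring.closure ((R : Set E) ∪ G))) ∧
        RegC P X ∧ (∀ c ∈ P, ∃ b ∈ R, PMon P X b ∧ c * b ∈ R) ∧
        (∀ e : E, ∃ a ∈ P, ∃ b ∈ P, b ≠ 0 ∧ e = a * b⁻¹) ∧ (∀ t, PMon P X (f t))) :
    HasF (AdlS V R) ({V} : Set (ValuationSubring E)) := by
  refine hasF_aux fun H _ f hf => ?_
  obtain ⟨P, I, hI, X, hn, hR, hV, hi, he, hreg, hq, hfr, hmon⟩ := h H f hf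
  refine ⟨P, {e | PMon P X e}, I, hI, X, adl_of hn hR hV hi he hreg.ne hreg.mem hq, hV, hreg, hfr,
    hmon, fun e he => he⟩

/-- The change of the base. -/
lemma q_lo (hRV : R ≤ V.toSubring) (hP0 : lo V.toSubring R ≤ P)
    (hi : ∀ a ∈ P, V.valuation a = 1 → a⁻¹ ∈ P) {I : Type} [Fintype I] {X : I → E}
    (hX0 : ∀ i, X i ≠ 0) {c : E}
    (h : ∃ b ∈ lo V.toSubring R, PMon P X b ∧ c * b ∈ lo V.toSubring R) :
    ∃ b ∈ R, PMon P X b ∧ c * b ∈ R := by
  obtain ⟨b, hb, hbX, hcb⟩ := h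
  obtain ⟨b1, hb1, s1, hs1, hs10, hs1V, e1⟩ := hb
  obtain ⟨b2, hb2, s2, hs2, hs20, hs2V, e2⟩ := hcb
  have hu : ∀ s ∈ R, s ≠ 0 → s⁻¹ ∈ V.toSubring → PMon P X s := by
    intro s hs hs0 hsV
    have h1 : V.valuation s = 1 := by
      have h2 : V.valuation s ≤ 1 := (V.valuation_le_one_iff s).2 (hRV hs)
      have h3 : V.valuation s⁻¹ ≤ 1 := (V.valuation_le_one_iff _).2 hsV
      rw [map_inv₀] at h3
      have h4 : V.valuation s ≠ 0 := (Valuation.ne_zero_iff _).2 hs0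
      refine le_antisymm h2 ?_
      rcases inv_le_one_iff₀.1 h3 with h5 | h5
      · exact absurd (le_antisymm h5 zero_le) h4
      · exact h5
    have hsP : s ∈ P := hP0 (le_lo _ _ hs)
    exact PMon.unit hs0 hsP (hi s hsP h1)
  refine ⟨b1 * s2, R.mul_mem hb1 hs2, ?_, ?_⟩
  · have e : b1 * s2 = b * s1 * s2 := by
      rw [e1, mul_assoc b1, inv_mul_cancel₀ hs10, mul_one]
    rw [e]
    exact (hbX.mul hX0 (hu s1 hs1 hs10 hs1V)).mul hX0 (hu s2 hs2 hs20 hs2V)
  · have e : c * (b1 * s2) = b2 * s1 := by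
      have e3 : c * b1 = c * b * s1 := by
        rw [e1, mul_assoc, mul_assoc b1, inv_mul_cancel₀ hs10, mul_one]
      rw [← mul_assoc, e3, e2]
      field_simp
    rw [e]
    exact R.mul_mem hb2 hs1

end

section surf

variable (V : ValuationSubring E) (R : Subring E)

lemma fr_lo (hfr : ∀ z : E, ∃ a ∈ R, ∃ b ∈ R, b ≠ 0 ∧ z = a * b⁻¹) :
    IsFractionRing (lo V.toSubring R) E := by
  refine ⟨?_, ?_, ?_⟩
  · rintro ⟨y, hy⟩
    have h1 : (y : E) ≠ 0 := fun h => nonZeroDivisors.ne_zero hy (Subtype.ext h)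
    exact isUnit_iff_ne_zero.2 h1
  · intro z
    obtain ⟨a, ha, b, hb, hb0, rfl⟩ := hfr z
    refine ⟨(⟨a, le_lo _ _ ha⟩, ⟨⟨b, le_lo _ _ hb⟩, ?_⟩), ?_⟩
    · rw [mem_nonZeroDivisors_iff_ne_zero]
      intro h
      exact hb0 (congrArg Subtype.val h)
    · change a * b⁻¹ * b = a
      rw [mul_assoc, inv_mul_cancel₀ hb0, mul_one]
  · intro x y hxy
    exact ⟨1, by rw [Subtype.ext hxy]⟩

theorem hasF_dim_two (hRV : R ≤ V.toSubring)
    (hfr : ∀ z : E, ∃ a ∈ R, ∃ b ∈ R, b ≠ 0 ∧ z = a * b⁻¹)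
    [IsRegularLocalRing (lo V.toSubring R)] (hdim : ringKrullDim (lo V.toSubring R) = 2)
    (hfin : ∀ (𝔭 : Ideal (lo V.toSubring R)) [𝔭.IsPrime], 𝔭 ≠ ⊥ →
      Module.Finite (lo V.toSubring R ⧸ 𝔭)
        (integralClosure (lo V.toSubring R ⧸ 𝔭) (FractionRing (lo V.toSubring R ⧸ 𝔭)))) :
    HasF (AdlS V R) ({V} : Set (ValuationSubring E)) := by
  have hF := fr_lo V R hfr
  set L := lo V.toSubring R with hL
  have hLV : L ≤ V.toSubring := lo_le hRV
  have hinvL : ∀ a ∈ L, V.valuation a = 1 → a⁻¹ ∈ L := by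
    intro a ha h1
    refine inv_mem_lo hRV ha ?_ ?_
    · rintro rfl
      rw [map_zero] at h1
      exact zero_ne_one h1
    · change a⁻¹ ∈ V
      rw [← V.valuation_le_one_iff, map_inv₀, h1, inv_one]
  have hV' : ∀ a : L, a ∈ nonunits L ↔ V.valuation (algebraMap L E a) < 1 := by
    intro a
    rw [mem_nonunits_iff, isUnit_lo_iff hRV]
    exact (val_lt_iff (hLV a.2)).symm
  obtain ⟨x, y, hxy⟩ := T2.par_of_regular (E := E) hdim V (fun a => hLV a.2) hV'
  have hrange : ∀ e, e ∈ (algebraMap L E).range ↔ e ∈ L := by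
    intro e
    constructor
    · rintro ⟨a, rfl⟩; exact a.2
    · intro he; exact ⟨⟨e, he⟩, rfl⟩
  have hrL : (algebraMap L E).range = L := by
    ext e; exact hrange e
  rw [hrL] at hxy
  refine hasF_adl fun H _ f hf => ?_
  obtain ⟨P, I, hI, X, hn, hPV, hPi, hP0, ⟨G, hG1, hG2⟩, hreg, hmon, hq⟩ :=
    exists_mono' (k := L) hxy (fun e => (hrange e).symm) hfin f hf
  have hRP : R ≤ P := fun a ha => hP0 (le_lo _ _ ha)
  have hcl : Subring.closure ((R : Set E) ∪ G) ≤ V.toSubring := by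
    rw [Subring.closure_le]
    rintro z (hz | hz)
    · exact hRV hz
    · exact hPV z (hG1 z hz)
  refine ⟨P, I, hI, X, hn, hRP, hPV, hPi, ⟨G, hG1, ?_⟩, hreg, ?_, ?_, ?_⟩
  · refine hG2.trans ?_
    refine (lo_mono ?_).trans (RV.lo_lo hcl).le
    rw [Subring.closure_le]
    rintro z (hz | hz)
    · exact lo_mono (fun a ha => Subring.subset_closure (Or.inl ha)) hz
    · exact le_lo _ _ (Subring.subset_closure (Or.inr hz))
  · intro c hc
    refine q_lo hRV hP0 hPi (X := X) hreg.ne ?_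
    obtain ⟨b, hb, hcb, u, u0, u1, u2, γ, e⟩ := hq c hc
    exact ⟨b, hb, ⟨u, u0, u1, u2, γ, e⟩, hcb⟩
  · intro e
    obtain ⟨a, ha, b, hb, hb0, e⟩ := hfr e
    exact ⟨a, hRP ha, b, hRP hb, hb0, e⟩
  · intro t
    obtain ⟨u, u0, u1, u2, γ, e⟩ := hmon t
    exact ⟨u, u0, u1, u2, γ, e⟩

theorem hasF_dim_le_one (hRV : R ≤ V.toSubring)
    (hfr : ∀ z : E, ∃ a ∈ R, ∃ b ∈ R, b ≠ 0 ∧ z = a * b⁻¹)
    [IsRegularLocalRing (lo V.toSubring R)] (hdim : ringKrullDim (lo V.toSubring R) ≤ 1) :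
    HasF (AdlS V R) ({V} : Set (ValuationSubring E)) := by
  classical
  have hF := fr_lo V R hfr
  set k := lo V.toSubring R with hL
  have hLV : k ≤ V.toSubring := lo_le hRV
  have hinv : ∀ a ∈ k, V.valuation a = 1 → a⁻¹ ∈ k := by
    intro a ha h1
    refine inv_mem_lo hRV ha ?_ ?_
    · rintro rfl
      rw [map_zero] at h1
      exact zero_ne_one h1
    · change a⁻¹ ∈ V
      rw [← V.valuation_le_one_iff, map_inv₀, h1, inv_one]
  have hV' : ∀ a : k, a ∈ nonunits k ↔ V.valuation (a : E) < 1 := by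
    intro a
    rw [mem_nonunits_iff, isUnit_lo_iff hRV]
    exact (val_lt_iff (hLV a.2)).symm
  have h1 : (maximalIdeal k).spanFinrank ≤ 1 := by
    have := IsRegularLocalRing.spanFinrank_maximalIdeal (R := k)
    rw [← this] at hdim
    exact_mod_cast hdim
  obtain ⟨X, hX⟩ : ∃ X, maximalIdeal k = Ideal.span {X} := by
    have hfg : (maximalIdeal k).FG := IsNoetherian.noetherian _
    have h2 := Submodule.span_generators (maximalIdeal k)
    have h3 : (maximalIdeal k).generators.ncard ≤ 1 :=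
      (Submodule.FG.generators_ncard hfg).le.trans h1
    have hfs : (maximalIdeal k).generators.Finite := Submodule.FG.finite_generators hfg
    rcases Set.eq_empty_or_nonempty (maximalIdeal k).generators with h4 | ⟨X, hX⟩
    · refine ⟨0, ?_⟩
      rw [← h2, h4, Ideal.span_singleton_eq_bot.2 rfl]
      exact Submodule.span_empty
    · refine ⟨X, ?_⟩
      rw [← h2]
      have h5 : (maximalIdeal k).generators = {X} := by
        apply Set.eq_singleton_iff_unique_mem.2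
        refine ⟨hX, fun Y hY => ?_⟩
        exact (Set.ncard_le_one hfs).1 h3 Y hY X hX
      rw [h5]
  have hPn : IsNoetherianRing k := inferInstance
  have hgen : ∀ a ∈ k, V.valuation a < 1 → ∃ b ∈ k, a = b * (X : E) := by
    intro a ha ha1
    have h2 : (⟨a, ha⟩ : k) ∈ maximalIdeal k := (hV' ⟨a, ha⟩).2 ha1
    rw [hX, Ideal.mem_span_singleton] at h2
    obtain ⟨b, hb⟩ := h2
    refine ⟨b, b.2, ?_⟩
    have h3 := congrArg Subtype.val hb
    rw [mul_comm]
    exact h3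
  have hRk : R ≤ k := le_lo _ _
  have heft : ∃ G : Finset E, (∀ g ∈ G, g ∈ k) ∧
      k ≤ lo V.toSubring (Subring.closure ((R : Set E) ∪ G)) := by
    refine ⟨∅, by simp, ?_⟩
    exact lo_mono fun a ha => Subring.subset_closure (Or.inl ha)
  have hfr' : ∀ e : E, ∃ a ∈ k, ∃ b ∈ k, b ≠ 0 ∧ e = a * b⁻¹ := by
    intro e
    obtain ⟨a, ha, b, hb, hb0, e⟩ := hfr e
    exact ⟨a, hRk ha, b, hRk hb, hb0, e⟩
  by_cases hX0 : X = 0
  · -- a field
    have hu : ∀ a ∈ k, a ≠ 0 → a⁻¹ ∈ k := by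
      intro a ha h0
      refine hinv a ha ((T2.lt_or_one (hLV ha)).resolve_left fun h2 => ?_)
      obtain ⟨b, hb, e⟩ := hgen a ha h2
      apply h0
      rw [e, hX0, ZeroMemClass.coe_zero, mul_zero]
    refine hasF_adl fun H _ f hf => ⟨k, Empty, inferInstance, fun e => e.elim, hPn, hRk,
      fun a ha => hLV ha, hinv, heft, ?_, ?_, hfr', ?_⟩
    · refine ⟨fun e => e.elim, fun e => e.elim, fun W hW hPW ι _ f hf => ?_⟩
      obtain ⟨𝔮, h𝔮p, h𝔮, -⟩ := exists_center hW hPW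
      refine T2.regP_principal hPn hW hPW 𝔮 h𝔮 0 ?_ _ (fun i => (f i).elim)
        (fun i => (f i).elim) (fun i => (f i).elim) (fun i => (f i).elim)
      rw [Ideal.span_singleton_eq_bot.2 rfl, eq_bot_iff]
      intro a ha
      rw [Ideal.mem_bot]
      by_contra h0
      have h0' : (a : E) ≠ 0 := fun h => h0 (Subtype.ext h)
      exact (h𝔮 a).2 ⟨h0', hPW (hu a a.2 h0')⟩ ha
    · intro c hc
      refine q_lo hRV le_rfl hinv (fun e => e.elim)
        ⟨1, Subring.one_mem _, PMon.one, by rwa [mul_one]⟩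
    · intro t
      obtain ⟨a, ha, b, hb, hb0, e⟩ := hfr' (f t)
      have ha0 : a ≠ 0 := by
        rintro rfl
        apply hf t
        rw [e, zero_mul]
      rw [e]
      exact (PMon.unit ha0 ha (hu a ha ha0)).mul (fun e => e.elim)
        (PMon.unit hb0 hb (hu b hb hb0)).inv
  · have hD : T2.Dv V k (X : E) := by
      refine ⟨fun a ha => hLV ha, hinv, hPn, X.2, (hV' X).1 ?_, ?_, hgen⟩
      · have : X ∈ maximalIdeal k := by
          rw [hX]
          exact Ideal.mem_span_singleton_self X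
        exact this
      · intro h0
        exact hX0 (Subtype.ext h0)
    refine hasF_adl fun H _ f hf => ⟨k, Unit, inferInstance, fun _ => (X : E), hPn, hRk,
      fun a ha => hLV ha, hinv, heft, hD.regC, ?_, hfr', fun t => ?_⟩
    · intro c hc
      refine q_lo hRV le_rfl hinv (fun _ => hD.x0)
        ⟨1, Subring.one_mem _, PMon.one, by rwa [mul_one]⟩
    obtain ⟨a, ha, b, hb, hb0, e⟩ := hfr' (f t)
    have ha0 : a ≠ 0 := by
      rintro rfl
      apply hf t
      rw [e, zero_mul]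
    obtain ⟨u, hu, hu1, i, e1⟩ := hD.mono ha ha0
    obtain ⟨v, hv, hv1, i', e2⟩ := hD.mono hb hb0
    have hu0 := T2.ne_zero_of_one hu1
    have hv0 := T2.ne_zero_of_one hv1
    have hui := hD.inv u hu hu1
    have hvi := hD.inv v hv hv1
    have hx0 : ∀ _ : Unit, (X : E) ≠ 0 := fun _ => hD.x0
    rw [e, e1, e2]
    exact ((PMon.unit hu0 hu hui).mul hx0 (PMon.pow hx0 (PMon.gen ()) _)).mul hx0
      ((PMon.unit hv0 hv hvi).mul hx0 (PMon.pow hx0 (PMon.gen ()) _)).inv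

/-- Regular local rings of dimension at most two. -/
theorem hasF_dim_le_two (hRV : R ≤ V.toSubring)
    (hfr : ∀ z : E, ∃ a ∈ R, ∃ b ∈ R, b ≠ 0 ∧ z = a * b⁻¹)
    (hreg : IsRegularLocalRing (lo V.toSubring R)) (hdim : ringKrullDim (lo V.toSubring R) ≤ 2)
    (hfin : ∀ (𝔭 : Ideal (lo V.toSubring R)) [𝔭.IsPrime], 𝔭 ≠ ⊥ →
      Module.Finite (lo V.toSubring R ⧸ 𝔭)
        (integralClosure (lo V.toSubring R ⧸ 𝔭) (FractionRing (lo V.toSubring R ⧸ 𝔭)))) :
    HasF (AdlS V R) ({V} : Set (ValuationSubring E)) := by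
  by_cases h : ringKrullDim (lo V.toSubring R) ≤ 1
  · exact hasF_dim_le_one V R hRV hfr h
  · refine hasF_dim_two V R hRV hfr ?_ hfin
    have := IsRegularLocalRing.spanFinrank_maximalIdeal (R := lo V.toSubring R)
    rw [← this] at hdim h ⊢
    have h1 : (maximalIdeal (lo V.toSubring R)).spanFinrank ≤ 2 := by exact_mod_cast hdim
    have h2 : ¬ (maximalIdeal (lo V.toSubring R)).spanFinrank ≤ 1 := fun h3 =>
      h (by exact_mod_cast h3)
    have h3 : (maximalIdeal (lo V.toSubring R)).spanFinrank = 2 := by omega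
    rw [h3]
    rfl

end surf

end Pool.Agent.N98.RW
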