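import Pool.Agent.N98.RW.Lu

/-!
Charts at the centre of a valuation.
-/

set_option autoImplicit false
set_option linter.unusedVariables false
set_option linter.unusedSectionVars false

universe u

namespace Pool.Agent.N98.RW

open IsLocalRing Pool.Agent.W418.LU2 Pool.Agent.N98.RV Polynomial

section model

variable {k K : Type u} [CommRing k] [IsNoetherianRing k] [Field K] [Algebra k K]
  {𝒱 : Set (ValuationSubring K)} {Ry : Subalgebra k K} {T I : Type}

lemma Mo.pmon {A : Subalgebra k K} {ι : Type} [Fintype ι] {x : ι → K} {L : Subring K}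
    (hx : ∀ i, x i ≠ 0) (hAL : A.toSubring ≤ L) {b : K} (h : Mo A x b) : PMon L x b := by
  classical
  induction h with
  | unit u h0 h1 h2 => exact PMon.unit h0 (hAL h1) (hAL h2)
  | gen i => exact PMon.gen i
  | mul a b _ _ ha hb => exact ha.mul hx hb
  | inv a _ ha => exact ha.inv

lemma IsBr.zpow [Fintype I] {R0 : Subalgebra k K} {M : LM 𝒱 R0 Ry T I} {g : K} (h : IsBr M g)
    (n : ℤ) : IsBr M (g ^ n) := by
  obtain ⟨m, rfl | rfl⟩ := Int.eq_nat_or_neg n
  · rw [zpow_natCast]
    exact h.pow m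
  · rw [zpow_neg, zpow_natCast]
    exact (h.pow m).inv

lemma IsBr.prod [Fintype I] {R0 : Subalgebra k K} {M : LM 𝒱 R0 Ry T I} {ι : Type*} (s : Finset ι)
    (g : ι → K) (h : ∀ i ∈ s, IsBr M (g i)) : IsBr M (∏ i ∈ s, g i) := by
  classical
  induction s using Finset.induction_on with
  | empty =>
    rw [Finset.prod_empty]
    exact IsB.one.br
  | insert a s ha ih =>
    rw [Finset.prod_insert ha]
    exact (h a (Finset.mem_insert_self a s)).mul
      (ih fun i hi => h i (Finset.mem_insert_of_mem hi))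

/-- A chart at the centre of a valuation. -/
theorem lg_of_model [Finite T] [Fintype I] (M : LM 𝒱 (⊥ : Subalgebra k K) Ry T I) (hFr : Frc M)
    {V : ValuationSubring K} (hV : V ∈ 𝒱) {J : Type} [Finite J] (S : J → K)
    (hB : ∀ j, IsBr M (S j)) :
    ∃ (B : Subalgebra k K) (I' : Type) (_ : Fintype I') (X : I' → K), Algebra.FiniteType k B ∧
      (∀ b ∈ B, b ∈ V) ∧ RegP V.toSubring (lo V.toSubring B.toSubring) X ∧
      (∀ y : K, IsIntegral (lo V.toSubring B.toSubring) y → y ∈ lo V.toSubring B.toSubring) ∧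
      (∀ i j, S i / S j ∈ V → S i / S j ∈ lo V.toSubring B.toSubring) ∧
      (∀ g, IsBr M g → g ∈ lo V.toSubring B.toSubring →
        PMon (lo V.toSubring B.toSubring) X g) ∧
      ∀ f ∈ B, ∃ b ∈ Ry, PMon (lo V.toSubring B.toSubring) X b ∧ f * b ∈ Ry := by
  classical
  have := Fintype.ofFinite J
  choose N hN hNB using hB
  -- a common exponent
  let N0 : ℕ := ∏ j, N j
  have hN0 : N0 ≠ 0 := by
    have h1 : IsUnit (N0 : k) := by
      change IsUnit ((∏ j, N j : ℕ) : k)
      rw [Nat.cast_prod]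
      exact (IsUnit.submonoid k).prod_mem fun j _ => hN j
    exact ne_zero_of_isUnit (K := K) h1
  have hSN : ∀ j, IsB M (S j ^ N0) := fun j =>
    (hNB j).pow_of_dvd (Finset.dvd_prod_of_mem N (Finset.mem_univ j))
  obtain ⟨T', I', hT', hI', M', π, hO, hC⟩ := exists_princ M (fun j => S j ^ N0) hSN
  obtain ⟨t, ht⟩ := M'.cv V hV
  set B := M'.A t with hBdef
  have hBV : B.toSubring ≤ V.toSubring := fun b hb => ht b hb
  have hWl := loc_val V
  have hreg : RegP V.toSubring (lo V.toSubring B.toSubring) (M'.x t) :=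
    (M'.rg t).reg V.toSubring hWl hBV I' id Function.injective_id
  obtain ⟨P, hP, hPW, -⟩ := exists_center hWl hBV
  have hlo := lo_eq_ofPrime hBV P hPW
  have hic : IsIntegrallyClosedIn (lo V.toSubring B.toSubring) K := by
    rw [hlo]
    refine isIntegrallyClosedIn_ofPrime (M'.ft t) (M'.rg t) ?_ P
    intro y
    obtain ⟨a, ha, b, hb, hb0, hy⟩ := hFr (π t) y
    exact ⟨a, hO.le t ha, b, hO.le t hb, hb0, hy⟩
  have hic' : ∀ y : K, IsIntegral (lo V.toSubring B.toSubring) y →
      y ∈ lo V.toSubring B.toSubring := by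
    intro y hy
    obtain ⟨z, hz⟩ := hic.isIntegral_iff.1 hy
    rw [← hz]
    exact z.2
  have hBL : B.toSubring ≤ lo V.toSubring B.toSubring := le_lo _ _
  refine ⟨B, I', hI', M'.x t, M'.ft t, ht, hreg, hic', ?_, ?_, ?_⟩
  · intro i j hij
    have hS0 : ∀ j, S j ≠ 0 := by
      intro j h0
      apply (hSN j).ne
      rw [h0, zero_pow hN0]
    have hpow : (S i / S j) ^ N0 ∈ lo V.toSubring B.toSubring := by
      rw [div_pow]
      rcases hC t j i with h | h
      · exact hBL h
      · have h0 : S j ^ N0 / S i ^ N0 ≠ 0 :=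
          div_ne_zero (pow_ne_zero _ (hS0 j)) (pow_ne_zero _ (hS0 i))
        have h1 := inv_mem_lo hBV (hBL h) h0 (by
          rw [inv_div, ← div_pow]
          exact V.toSubring.pow_mem hij _)
        rwa [inv_div] at h1
    apply hic'
    refine IsIntegral.of_pow (Nat.pos_of_ne_zero hN0) ?_
    exact isIntegral_algebraMap (R := lo V.toSubring B.toSubring) (A := K) (x := ⟨_, hpow⟩)
  · rintro g ⟨n, hn, hg⟩ hgL
    obtain ⟨γ, hγ⟩ := hO.bf _ hg
    obtain ⟨w, w0, w1, w2, e⟩ := hγ t
    exact RegP.of_pow hreg hgL (ne_zero_of_isUnit (K := K) hn)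
      ⟨w, w0, hBL w1, hBL w2, γ, e⟩
  · intro f hf
    obtain ⟨b, hb, hbM, hfb⟩ := M'.q t f hf
    exact ⟨b, hb, hbM.pmon (M'.x0 t) hBL, hfb⟩

end model

end Pool.Agent.N98.RW
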