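import Pool.Agent.N98.RW.Lu

/-!
Log desingularizations along a valuation.
-/

set_option autoImplicit false
set_option linter.unusedVariables false
set_option linter.unusedSectionVars false

universe u

namespace Pool.Agent.N98.RW

open IsLocalRing Pool.Agent.W418.LU2

variable {F : Type u} [Field F]

/-- The blowing-up of `A` in `I` is a log desingularization of `(Spec A, V(D))` along `V`. -/
def LogDesing (V : ValuationSubring F) (A : Subring F) (D I : Ideal A) : Prop :=
  ∃ f ∈ I, f ≠ 0 ∧ (∀ a ∈ I, (a : F) / (f : F) ∈ V) ∧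
    RegularPair (lo V.toSubring (chart A I f)) (Ideal.span {z | ∃ a ∈ D * I, (z : F) = (a : F)})

/-- The general criterion. -/
theorem logDesing_of {V : ValuationSubring F} {A : Subring F} {D I : Ideal A} {f d : A} (hf : f ∈ I)
    (hf0 : f ≠ 0) (hI : ∀ a ∈ I, (a : F) / (f : F) ∈ V) (hd : d ∈ D) (hd0 : d ≠ 0) {P : Subring F}
    (hP : lo V.toSubring (chart A I f) = P) {ι : Type} [Fintype ι] {x : ι → F}
    (h : RegP V.toSubring P x) (hD : ∀ a ∈ D, (a : F) / (d : F) ∈ P)
    (hmon : PMon P x ((d : F) * (f : F))) : LogDesing V A D I := by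
  refine ⟨f, hf, hf0, hI, ?_⟩
  have hAP : A ≤ P := by
    rw [← hP]
    exact fun a ha => le_lo _ _ (Subring.subset_closure (Or.inl ha))
  have hIP : ∀ a ∈ I, (a : F) / (f : F) ∈ P := by
    rw [← hP]
    exact fun a ha => le_lo _ _ (Subring.subset_closure (Or.inr ⟨a, ha, rfl⟩))
  subst hP
  have hf0' : (f : F) ≠ 0 := fun h => hf0 (Subtype.ext h)
  have hd0' : (d : F) ≠ 0 := fun h => hd0 (Subtype.ext h)
  have h1 : Ideal.span {z : lo V.toSubring (chart A I f) | ∃ a ∈ D * I, (z : F) = (a : F)} =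
      Ideal.span {(⟨(d : F) * (f : F), (lo V.toSubring (chart A I f)).mul_mem (hAP d.2)
        (hAP f.2)⟩ : lo V.toSubring (chart A I f))} := by
    apply le_antisymm
    · rw [Ideal.span_le]
      rintro z ⟨a, ha, hz⟩
      rw [SetLike.mem_coe, Ideal.mem_span_singleton']
      have h2 : (a : F) / ((d : F) * (f : F)) ∈ lo V.toSubring (chart A I f) := by
        refine Submodule.mul_induction_on ha ?_ ?_
        · intro b hb c hc
          have h3 : ((b * c : A) : F) / ((d : F) * (f : F)) = (b : F) / (d : F) *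
              ((c : F) / (f : F)) := by
            change (b : F) * (c : F) / ((d : F) * (f : F)) = _
            field_simp
          change ((b * c : A) : F) / ((d : F) * (f : F)) ∈ _
          rw [h3]
          exact Subring.mul_mem _ (hD b hb) (hIP c hc)
        · intro b c hb hc
          have h3 : ((b + c : A) : F) / ((d : F) * (f : F)) = (b : F) / ((d : F) * (f : F)) +
              (c : F) / ((d : F) * (f : F)) := by
            change ((b : F) + (c : F)) / ((d : F) * (f : F)) = _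
            rw [add_div]
          rw [h3]
          exact Subring.add_mem _ hb hc
      refine ⟨⟨_, h2⟩, Subtype.ext ?_⟩
      change (a : F) / ((d : F) * (f : F)) * ((d : F) * (f : F)) = (z : F)
      rw [hz, div_mul_cancel₀ _ (mul_ne_zero hd0' hf0')]
    · rw [Ideal.span_le, Set.singleton_subset_iff]
      exact Ideal.subset_span ⟨d * f, Ideal.mul_mem_mul hd hf, rfl⟩
  rw [h1]
  exact h.pair hmon

/-- Generators of finitely generated ideals in valuation rings. -/
theorem exists_gen (V : ValuationSubring F) {A : Subring F} (hA : A ≤ V.toSubring) {S : Set A}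
    (hS : S.Finite) (hne : Ideal.span S ≠ ⊥) :
    ∃ f ∈ S, f ≠ 0 ∧ ∀ a ∈ S, (a : F) / (f : F) ∈ V := by
  have hS0 : S.Nonempty := by
    by_contra h
    rw [Set.not_nonempty_iff_eq_empty] at h
    apply hne
    rw [h, Ideal.span_empty]
  obtain ⟨f, hf, hmax⟩ := Set.exists_max_image S (fun a : A => V.valuation (a : F)) hS hS0
  have hf0 : f ≠ 0 := by
    rintro rfl
    apply hne
    rw [Ideal.span_eq_bot]
    intro a ha
    have h1 := hmax a ha
    simp only [ZeroMemClass.coe_zero, map_zero, le_zero_iff] at h1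
    exact Subtype.ext (V.valuation.zero_iff.1 h1)
  have hf0' : (f : F) ≠ 0 := fun h => hf0 (Subtype.ext h)
  refine ⟨f, hf, hf0, fun a ha => ?_⟩
  rw [← V.valuation_le_one_iff, map_div₀]
  exact (div_le_one₀ (zero_lt_iff.2 ((_root_.map_ne_zero _).2 hf0'))).2 (hmax a ha)

/-- The quotients of the elements of an ideal. -/
lemma span_div {A L : Subring F} (hAL : A ≤ L) {S : Set A} {f : F}
    (h : ∀ a ∈ S, (a : F) / f ∈ L) : ∀ a ∈ Ideal.span S, (a : F) / f ∈ L := by
  intro a ha
  induction ha using Submodule.span_induction with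
  | mem a ha => exact h a ha
  | zero => simp [L.zero_mem]
  | add a b _ _ ha hb =>
    have h1 : ((a + b : A) : F) / (f : F) = (a : F) / (f : F) + (b : F) / (f : F) := add_div _ _ _
    rw [h1]
    exact L.add_mem ha hb
  | smul c a _ ha =>
    have h1 : ((c • a : A) : F) / (f : F) = (c : F) * ((a : F) / (f : F)) := mul_div_assoc _ _ _
    rw [h1]
    exact L.mul_mem (hAL c.2) ha

theorem logDesing_core {V : ValuationSubring F} {A : Subring F}
    {L B0 : Subring F} (hB0 : B0 ≤ V.toSubring) (hL : L = lo V.toSubring B0) {ι : Type}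
    [Fintype ι] {X : ι → F} (hreg : RegP V.toSubring L X) (hAL : A ≤ L) (Z : Finset F)
    (hZL : ∀ z ∈ Z, z ∈ L) (hZ : ∀ z ∈ Z, ∃ β ∈ A, PMon L X β ∧ z * β ∈ A)
    (hB0Z : B0 ≤ lo V.toSubring (Subring.closure ((A : Set F) ∪ Z))) {D I₀ : Ideal A}
    {SD SI : Set A} (hSD : SD.Finite) (hSI : SI.Finite) (hD : D = Ideal.span SD)
    (hI₀ : I₀ = Ideal.span SI) (hD0 : D ≠ ⊥) (hI0 : I₀ ≠ ⊥)
    (hcD : ∀ a ∈ SD, ∀ b ∈ SD, (a : F) / (b : F) ∈ V → (a : F) / (b : F) ∈ L)
    (hcI0 : ∀ a ∈ SI, ∀ b ∈ SI, (a : F) / (b : F) ∈ V → (a : F) / (b : F) ∈ L)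
    (hmD : ∀ b ∈ SD, b ≠ 0 → PMon L X (b : F)) (hmI : ∀ b ∈ SI, b ≠ 0 → PMon L X (b : F)) :
    ∃ I₁ : Ideal A, I₁ ≠ ⊥ ∧ LogDesing V A D (I₀ * I₁) := by
  classical
  have hLV : L ≤ V.toSubring := by rw [hL]; exact lo_le hB0
  have hAV : A ≤ V.toSubring := hAL.trans hLV
  have hX0 := hreg.ne
  choose! β hβA hβX hzβ using hZ
  let cc : F := ∏ z ∈ Z, β z
  have hccA : cc ∈ A := A.prod_mem fun z hz => hβA z hz
  have hccX : PMon L X cc := PMon.prod hX0 _ _ fun z hz => hβX z hz
  have hcc0 : cc ≠ 0 := PMon.ne hX0 hccX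
  have hccz : ∀ z ∈ Z, cc * z ∈ A := by
    intro z hz
    change (∏ z ∈ Z, β z) * z ∈ A
    rw [← Finset.mul_prod_erase Z β hz]
    have e : β z * (∏ y ∈ Z.erase z, β y) * z = z * β z * ∏ y ∈ Z.erase z, β y := by ring
    rw [e]
    exact A.mul_mem (hzβ z hz) (A.prod_mem fun y hy => hβA y (Finset.mem_erase.1 hy).2)
  let c : A := ⟨cc, hccA⟩
  have hc0 : c ≠ 0 := fun h => hcc0 (congrArg Subtype.val h)
  let S1 : Set A := {c} ∪ {a | ∃ z ∈ Z, (a : F) = cc * z}
  let I₁ : Ideal A := Ideal.span S1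
  have hcI : c ∈ I₁ := Ideal.subset_span (Or.inl rfl)
  have hI₁ : I₁ ≠ ⊥ := fun h => hc0 (by rw [h] at hcI; exact hcI)
  rw [hD] at hD0
  rw [hI₀] at hI0
  obtain ⟨f₀, hf₀, hf₀0, hf₀V⟩ := exists_gen V hAV hSI hI0
  obtain ⟨d, hd, hd0, hdV⟩ := exists_gen V hAV hSD hD0
  have hf₀0' : (f₀ : F) ≠ 0 := fun h => hf₀0 (Subtype.ext h)
  have hf₀L : ∀ a ∈ I₀, (a : F) / (f₀ : F) ∈ L := by
    rw [hI₀]
    exact span_div hAL fun a ha => hcI0 a ha f₀ hf₀ (hf₀V a ha)
  have hdL : ∀ a ∈ D, (a : F) / (d : F) ∈ L := by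
    rw [hD]
    exact span_div hAL fun a ha => hcD a ha d hd (hdV a ha)
  have h1L : ∀ a ∈ I₁, (a : F) / cc ∈ L := by
    refine span_div hAL fun a ha => ?_
    rcases ha with rfl | ⟨z, hz, e⟩
    · change cc / cc ∈ L
      rw [div_self hcc0]
      exact L.one_mem
    · rw [e, mul_div_cancel_left₀ _ hcc0]
      exact hZL z hz
  let f : A := f₀ * c
  have hf0 : f ≠ 0 := mul_ne_zero hf₀0 hc0
  have hff : (f : F) = (f₀ : F) * cc := rfl
  have hfI : f ∈ I₀ * I₁ := Ideal.mul_mem_mul (by rw [hI₀]; exact Ideal.subset_span hf₀) hcI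
  have hIL : ∀ a ∈ I₀ * I₁, (a : F) / (f : F) ∈ L := by
    intro a ha
    refine Submodule.mul_induction_on ha ?_ ?_
    · intro b hb e he
      have h3 : ((b * e : A) : F) / (f : F) = (b : F) / (f₀ : F) * ((e : F) / cc) := by
        change (b : F) * (e : F) / ((f₀ : F) * cc) = _
        rw [mul_div_mul_comm]
      change ((b * e : A) : F) / (f : F) ∈ _
      rw [h3]
      exact L.mul_mem (hf₀L b hb) (h1L e he)
    · intro b e hb he
      have h3 : ((b + e : A) : F) / (f : F) = (b : F) / (f : F) + (e : F) / (f : F) :=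
        add_div _ _ _
      rw [h3]
      exact L.add_mem hb he
  have hchL : chart A (I₀ * I₁) f ≤ L := by
    unfold chart
    rw [Subring.closure_le]
    rintro z (hz | ⟨a, ha, rfl⟩)
    · exact hAL hz
    · exact hIL a ha
  have hchV := hchL.trans hLV
  have hZch : Subring.closure ((A : Set F) ∪ Z) ≤ chart A (I₀ * I₁) f := by
    rw [Subring.closure_le]
    rintro z (hz | hz)
    · exact Subring.subset_closure (Or.inl hz)
    · refine Subring.subset_closure (Or.inr ⟨f₀ * ⟨cc * z, hccz z hz⟩, ?_, ?_⟩)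
      · exact Ideal.mul_mem_mul (by rw [hI₀]; exact Ideal.subset_span hf₀)
          (Ideal.subset_span (Or.inr ⟨z, hz, rfl⟩))
      · change z = (f₀ : F) * (cc * z) / ((f₀ : F) * cc)
        field_simp
  have hlo : lo V.toSubring (chart A (I₀ * I₁) f) = L := by
    apply le_antisymm
    · refine (lo_mono hchL).trans ?_
      rw [hL]
      exact (RV.lo_lo hB0).le
    · rw [hL]
      refine (lo_mono (hB0Z.trans (lo_mono hZch))).trans ?_
      exact (RV.lo_lo hchV).le
  refine ⟨I₁, hI₁, logDesing_of hfI hf0 (fun a ha => hLV (hIL a ha)) (d := d)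
    (by rw [hD]; exact Ideal.subset_span hd) hd0 hlo hreg hdL ?_⟩
  rw [hff]
  exact (hmD d hd hd0).mul hX0 ((hmI f₀ hf₀ hf₀0).mul hX0 hccX)

end Pool.Agent.N98.RW
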