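import Pool.Agent.N98.RW.Fin1
import Pool.Agent.N98.RW.Log

/-!
Log uniformization in bounded degree: the chart at the centre.
-/

set_option autoImplicit false
set_option linter.unusedVariables false
set_option linter.unusedSectionVars false

universe u

namespace Pool.Agent.N98.RW

open IsLocalRing Pool.Agent.W418.LU2 Pool.Agent.N98.RV Pool.Agent.N98

lemma val_one_iff {F : Type u} [Field F] {V : ValuationSubring F} {a : F} :
    V.valuation a = 1 ↔ a ∈ V ∧ a ≠ 0 ∧ a⁻¹ ∈ V := by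
  constructor
  · intro h
    refine ⟨(V.valuation_le_one_iff a).1 h.le, ?_, ?_⟩
    · rintro rfl
      rw [map_zero] at h
      exact zero_ne_one h
    · rw [← V.valuation_le_one_iff, map_inv₀, h, inv_one]
  · rintro ⟨h1, h2, h3⟩
    have h4 : V.valuation a ≤ 1 := (V.valuation_le_one_iff a).2 h1
    have h5 : V.valuation a⁻¹ ≤ 1 := (V.valuation_le_one_iff _).2 h3
    rw [map_inv₀] at h5
    have h6 : V.valuation a ≠ 0 := (Valuation.ne_zero_iff _).2 h2
    refine le_antisymm h4 ?_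
    rcases inv_le_one_iff₀.1 h5 with h7 | h7
    · exact absurd (le_antisymm h7 zero_le) h6
    · exact h7

section main

variable {E K : Type u} [Field E] [Infinite E] [Field K] [Algebra E K]

theorem lgu_aux {N r δ : ℕ} (x : Fin N → K)
    (htop : IntermediateField.adjoin E (Set.range x) = ⊤) (htr : Algebra.trdeg E K = r) (C0 : ℕ)
    (hδ : ∀ t : ℕ, r.factorial * Module.finrank E (img E x t) ≤ δ * (t + C0) ^ r)
    (V : ValuationSubring K)
    (hp : ∀ p : ℕ, p.Prime → p ≤ δ ^ 2 ^ r → V.valuation (p : K) = 1)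
    (R : Subring E) (hfr : ∀ z : E, ∃ a ∈ R, ∃ b ∈ R, b ≠ 0 ∧ z = a * b⁻¹)
    (hR : HasF (AdlS (V.comap (algebraMap E K)) R)
      ({V.comap (algebraMap E K)} : Set (ValuationSubring E)))
    {J : Type} [Finite J] (S : J → K) (q' : J → ℕ) (a : ∀ j, Fin (q' j) → E)
    (b : ∀ j, Fin (q' j) → Fin N → E) (e : ∀ j, Fin (q' j) → ℤ)
    (hs : ∀ j, S j =
      ∏ i, (algebraMap E K (a j i) + ∑ l, algebraMap E K (b j i l) * x l) ^ e j i)
    (hS0 : ∀ j, S j ≠ 0)
    (A : Subring K) (hRA : ∀ c ∈ R, algebraMap E K c ∈ A)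
    (jx : Fin N → J) (hx : ∀ l, S (jx l) ∈ A ∧ S (jx l) * x l ∈ A) :
    ∃ (L B0 : Subring K) (ι : Type) (_ : Fintype ι) (X : ι → K) (Z : Finset K),
      B0 ≤ V.toSubring ∧ L = lo V.toSubring B0 ∧ RegP V.toSubring L X ∧
      (∀ y : K, IsIntegral L y → y ∈ L) ∧ (∀ c ∈ R, algebraMap E K c ∈ L) ∧
      (∀ i j, S i / S j ∈ V → S i / S j ∈ L) ∧ (∀ j, S j ∈ L → PMon L X (S j)) ∧
      (∀ z ∈ Z, z ∈ L) ∧ (A ≤ L → ∀ z ∈ Z, ∃ β ∈ A, PMon L X β ∧ z * β ∈ A) ∧
      B0 ≤ lo V.toSubring (Subring.closure ((A : Set K) ∪ Z)) := by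
  classical
  let F : (Σ j, Fin (q' j)) → K := fun i =>
    algebraMap E K (a i.1 i.2) + ∑ j, algebraMap E K (b i.1 i.2 j) * x j
  obtain ⟨c, hc⟩ := rel_modelsF (E := E) x
    (𝒮 := AdlS (V.comap (algebraMap E K)) R) (fun k Θ hk => hk.noeth)
    (fun k Θ hk => ⟨hk.zero, hk.den'⟩) hR ⟨V, rfl⟩
    htop htr δ C0 hδ (fun k' Θ' hk' => by
      refine isUnit_factorial_of_primes _ fun p hpp hpB => ?_
      have h1 : (V.comap (algebraMap E K)).valuation (p : E) = 1 := by
        rw [val_one_iff]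
        obtain ⟨h2, h3, h4⟩ := val_one_iff.1 (hp p hpp hpB)
        have e0 : algebraMap E K (p : E) = (p : K) := map_natCast _ _
        refine ⟨?_, ?_, ?_⟩
        · change algebraMap E K (p : E) ∈ V
          rw [e0]; exact h2
        · intro h5
          apply h3
          rw [← e0, h5, map_zero]
        · change algebraMap E K (p : E)⁻¹ ∈ V
          rw [map_inv₀, e0]; exact h4
      have h2 : (p : E) ∈ k' := natCast_mem k' p
      have h3 := hk'.inv _ h2 h1
      have h0 := (val_one_iff.1 h1).2.1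
      refine isUnit_iff_exists_inv.2 ⟨⟨_, h3⟩, Subtype.ext ?_⟩
      change ((p : k') : E) * (p : E)⁻¹ = 1
      have e1 : ((p : k') : E) = (p : E) := by push_cast; rfl
      rw [e1, mul_inv_cancel₀ h0])
  -- the denominators of the coordinates
  have hw : ∀ i j, ∃ w ∈ R, w ≠ 0 ∧ algebraMap E K w * algebraMap E K (c i j) ∈ A := by
    intro i j
    obtain ⟨u, hu, v, hv, hv0, e1⟩ := hfr (c i j)
    refine ⟨v, hv, hv0, ?_⟩
    have e3 : v * c i j = u := by rw [e1, mul_left_comm, mul_inv_cancel₀ hv0, mul_one]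
    rw [← map_mul, e3]
    exact hRA u hu
  choose w hwR hw0 hwA using hw
  let d : E := ∏ p : Fin (r + 1) × Fin N, w p.1 p.2
  have hdR : d ∈ R := R.prod_mem fun p _ => hwR _ _
  have hd0 : d ≠ 0 := Finset.prod_ne_zero_iff.2 fun p _ => hw0 _ _
  let d' : K := ∏ l, S (jx l)
  have hdA' : d' ∈ A := A.prod_mem fun l _ => (hx l).1
  set y : Fin (r + 1) → K := fun i => ∑ j, algebraMap E K (c i j) * x j with hy
  have hdy : ∀ i, y i * (algebraMap E K d * d') ∈ A := by
    intro i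
    rw [hy]
    change (∑ j, algebraMap E K (c i j) * x j) * _ ∈ A
    rw [Finset.sum_mul]
    refine A.sum_mem fun j _ => ?_
    have e1 : d = w i j * ∏ p ∈ Finset.univ.erase (i, j), w p.1 p.2 :=
      (Finset.mul_prod_erase Finset.univ (fun p : Fin (r + 1) × Fin N => w p.1 p.2)
        (Finset.mem_univ (i, j))).symm
    have e1' : d' = S (jx j) * ∏ l ∈ Finset.univ.erase j, S (jx l) :=
      (Finset.mul_prod_erase Finset.univ (fun l => S (jx l)) (Finset.mem_univ j)).symm
    rw [e1, e1', map_mul]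
    have e2 : algebraMap E K (c i j) * x j * (algebraMap E K (w i j) *
        algebraMap E K (∏ p ∈ Finset.univ.erase (i, j), w p.1 p.2) *
        (S (jx j) * ∏ l ∈ Finset.univ.erase j, S (jx l))) =
        (algebraMap E K (w i j) * algebraMap E K (c i j)) * (S (jx j) * x j) *
        (algebraMap E K (∏ p ∈ Finset.univ.erase (i, j), w p.1 p.2) *
          ∏ l ∈ Finset.univ.erase j, S (jx l)) := by ring
    rw [e2]
    exact A.mul_mem (A.mul_mem (hwA i j) (hx j).2) (A.mul_mem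
      (hRA _ (R.prod_mem fun p _ => hwR _ _)) (A.prod_mem fun l _ => (hx l).1))
  obtain ⟨k, Θ, hk, T, I, hT, hI, M, hFr, hM, hΘ, hΘB⟩ :=
    hc {i : Σ j, Fin (q' j) // F i ≠ 0} (fun i => a i.1.1 i.1.2) (fun i => b i.1.1 i.1.2)
      (fun i => i.2) Unit (fun _ => d) (fun _ => hd0)
  have hkn : IsNoetherianRing k := hk.noeth
  have hsB : ∀ j, IsBr M (S j) := by
    intro j
    have hne := hS0 j
    rw [hs j] at hne ⊢
    rw [Finset.prod_ne_zero_iff] at hne
    refine IsBr.prod _ _ fun i _ => ?_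
    by_cases h0 : F ⟨j, i⟩ = 0
    · have h1 : e j i = 0 := by
        by_contra h2
        apply hne i (Finset.mem_univ i)
        change F ⟨j, i⟩ ^ e j i = 0
        rw [h0, zero_zpow _ h2]
      rw [h1, zpow_zero]
      exact IsB.one.br
    · exact (hM ⟨⟨j, i⟩, h0⟩).zpow _
  obtain ⟨B, I', hI', X, hft, hBV0, hreg, hint, hcmp, hpm, hq⟩ :=
    lg_of_model M hFr (V := V) rfl S hsB
  have hBV : B.toSubring ≤ V.toSubring := fun b hb => hBV0 b hb
  set L := lo V.toSubring B.toSubring with hL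
  have hBL : B.toSubring ≤ L := le_lo _ _
  have hkB : ∀ c ∈ k, algebraMap E K c ∈ B := fun c hc => B.algebraMap_mem (⟨c, hc⟩ : k)
  have hRL : ∀ c ∈ R, algebraMap E K c ∈ L := fun c hc => hBL (hkB c (hk.le hc))
  have hΘL : ∀ c ∈ R, c ∈ Θ → PMon L X (algebraMap E K c) := fun c hc hcΘ =>
    hpm _ (hΘB c hcΘ) (hRL c hc)
  -- denominators
  have hdX : A ≤ L → PMon L X d' := fun hAL =>
    PMon.prod hreg.ne _ _ fun l _ => hpm _ (hsB _) (hAL (hx l).1)
  have hRy : A ≤ L → ∀ w ∈ Algebra.adjoin k (Set.range y), ∃ β ∈ A, PMon L X β ∧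
      w * β ∈ A := by
    intro hAL w hw
    induction hw using Algebra.adjoin_induction with
    | mem w hw =>
      obtain ⟨i, rfl⟩ := hw
      exact ⟨algebraMap E K d * d', A.mul_mem (hRA d hdR) hdA',
        (hΘL d hdR (hΘ ())).mul hreg.ne (hdX hAL), hdy i⟩
    | algebraMap c =>
      obtain ⟨β, hβ, hβΘ, hcβ⟩ := hk.q c c.2
      refine ⟨algebraMap E K β, hRA β hβ, hΘL β hβ hβΘ, ?_⟩
      change algebraMap E K (c : E) * algebraMap E K β ∈ A
      rw [← map_mul]
      exact hRA _ hcβ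
    | add w w' _ _ hw hw' =>
      obtain ⟨β, hβ, hβΘ, hcβ⟩ := hw
      obtain ⟨β', hβ', hβΘ', hcβ'⟩ := hw'
      refine ⟨β * β', A.mul_mem hβ hβ', hβΘ.mul hreg.ne hβΘ', ?_⟩
      have e1 : (w + w') * (β * β') = w * β * β' + w' * β' * β := by ring
      rw [e1]
      exact A.add_mem (A.mul_mem hcβ hβ') (A.mul_mem hcβ' hβ)
    | mul w w' _ _ hw hw' =>
      obtain ⟨β, hβ, hβΘ, hcβ⟩ := hw
      obtain ⟨β', hβ', hβΘ', hcβ'⟩ := hw'
      refine ⟨β * β', A.mul_mem hβ hβ', hβΘ.mul hreg.ne hβΘ', ?_⟩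
      have e1 : w * w' * (β * β') = w * β * (w' * β') := by ring
      rw [e1]
      exact A.mul_mem hcβ hcβ'
  have hBden : A ≤ L → ∀ z ∈ B, ∃ β ∈ A, PMon L X β ∧ z * β ∈ A := by
    intro hAL z hz
    obtain ⟨b', hb', hbX, hzb⟩ := hq z hz
    obtain ⟨β, hβ, hβX, hcβ⟩ := hRy hAL _ hb'
    obtain ⟨β', hβ', hβX', hcβ'⟩ := hRy hAL _ hzb
    refine ⟨b' * β * β', A.mul_mem hcβ hβ', (hbX.mul hreg.ne hβX).mul hreg.ne hβX', ?_⟩
    have e1 : z * (b' * β * β') = z * b' * β' * β := by ring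
    rw [e1]
    exact A.mul_mem hcβ' hβ
  obtain ⟨GB, hGB⟩ := (Subalgebra.fg_iff_finiteType _).2 hft
  obtain ⟨G', hG'k, hG'⟩ := hk.eft
  have hGBm : ∀ g ∈ GB, g ∈ B := by
    intro g hg
    rw [← hGB]
    exact Algebra.subset_adjoin hg
  refine ⟨L, B.toSubring, I', hI', X, GB ∪ G'.image (algebraMap E K), hBV, hL, hreg, hint, hRL,
    hcmp, fun j hj => hpm _ (hsB j) hj, ?_, ?_, ?_⟩
  · intro z hz
    rcases Finset.mem_union.1 hz with hz | hz
    · exact hBL (hGBm z hz)
    · obtain ⟨g, hg, rfl⟩ := Finset.mem_image.1 hz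
      exact hBL (hkB g (hG'k g hg))
  · intro hAL z hz
    apply hBden hAL
    rcases Finset.mem_union.1 hz with hz | hz
    · exact hGBm z hz
    · obtain ⟨g, hg, rfl⟩ := Finset.mem_image.1 hz
      exact hkB g (hG'k g hg)
  · have hcl : ∀ e ∈ Subring.closure ((R : Set E) ∪ G'), algebraMap E K e ∈
        Subring.closure ((A : Set K) ∪ ((GB ∪ G'.image (algebraMap E K) : Finset K) : Set K)) := by
      intro e he
      have h1 : Subring.closure ((R : Set E) ∪ G') ≤
          (Subring.closure ((A : Set K) ∪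
            ((GB ∪ G'.image (algebraMap E K) : Finset K) : Set K))).comap (algebraMap E K) := by
        rw [Subring.closure_le]
        rintro a (ha | ha)
        · exact Subring.subset_closure (Or.inl (hRA a ha))
        · refine Subring.subset_closure (Or.inr ?_)
          exact Finset.mem_coe.2 (Finset.mem_union_right _ (Finset.mem_image_of_mem _ ha))
      exact h1 he
    intro b' hb
    have hb' : b' ∈ Algebra.adjoin k (GB : Set K) := by rw [hGB]; exact hb
    clear hb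
    induction hb' using Algebra.adjoin_induction with
    | mem a ha =>
      refine le_lo _ _ (Subring.subset_closure (Or.inr ?_))
      exact Finset.mem_coe.2 (Finset.mem_union_left _ ha)
    | algebraMap r =>
      obtain ⟨a, ha, d', hd, hd0', hdV, e'⟩ := hG' r.2
      have e1 : algebraMap k K r = algebraMap E K a * (algebraMap E K d')⁻¹ := by
        change algebraMap E K r = _
        rw [e', map_mul, map_inv₀]
      rw [e1]
      refine ⟨_, hcl a ha, _, hcl d' hd, (_root_.map_ne_zero _).2 hd0', ?_, rfl⟩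
      rw [← map_inv₀]
      exact hdV
    | add x y _ _ hx hy => exact Subring.add_mem _ hx hy
    | mul x y _ _ hx hy => exact Subring.mul_mem _ hx hy

end main

end Pool.Agent.N98.RW
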