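import Pool.Agent.N98.RW.Fin2

/-!
Log uniformization in bounded degree.
-/

set_option autoImplicit false
set_option linter.unusedVariables false
set_option linter.unusedSectionVars false

universe u

namespace Pool.Agent.N98.RW

open IsLocalRing Pool.Agent.W418.LU2 Pool.Agent.N98.RV Pool.Agent.N98 Polynomial

section main

variable {E K : Type u} [Field E] [Field K] [Algebra E K]

/-- Products of integral powers of affine forms. -/
def LProd {N : ℕ} (x : Fin N → K) (z : K) : Prop :=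
  ∃ (q : ℕ) (a : Fin q → E) (b : Fin q → Fin N → E) (e : Fin q → ℤ),
    z = ∏ i, (algebraMap E K (a i) + ∑ l, algebraMap E K (b i l) * x l) ^ e i

lemma LProd.one {N : ℕ} {x : Fin N → K} : LProd (E := E) x 1 :=
  ⟨0, Fin.elim0, Fin.elim0, Fin.elim0, by simp⟩

lemma LProd.mul {N : ℕ} {x : Fin N → K} {z w : K} (hz : LProd (E := E) x z)
    (hw : LProd (E := E) x w) : LProd (E := E) x (z * w) := by
  obtain ⟨q, a, b, e, rfl⟩ := hz
  obtain ⟨q', a', b', e', rfl⟩ := hw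
  refine ⟨q + q', Fin.append a a', Fin.append b b', Fin.append e e', ?_⟩
  rw [Fin.prod_univ_add]
  simp only [Fin.append_left, Fin.append_right]

lemma LProd.pow {N : ℕ} {x : Fin N → K} {z : K} (hz : LProd (E := E) x z) (n : ℕ) :
    LProd (E := E) x (z ^ n) := by
  induction n with
  | zero => rw [pow_zero]; exact LProd.one
  | succ n ih => rw [pow_succ]; exact ih.mul hz

lemma LProd.prod {N : ℕ} {x : Fin N → K} {κ : Type*} (s : Finset κ) (g : κ → K)
    (h : ∀ i ∈ s, LProd (E := E) x (g i)) : LProd (E := E) x (∏ i ∈ s, g i) := by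
  classical
  induction s using Finset.induction_on with
  | empty => rw [Finset.prod_empty]; exact LProd.one
  | insert i s hi ih =>
    rw [Finset.prod_insert hi]
    exact (h i (Finset.mem_insert_self _ _)).mul
      (ih fun j hj => h j (Finset.mem_insert_of_mem hj))

/-- Integral elements. -/
lemma mem_of_int {C L : Subring K} (hCL : C ≤ L) (hint : ∀ y : K, IsIntegral L y → y ∈ L) {y : K}
    (hy : IsIntegral C y) : y ∈ L := by
  apply hint
  obtain ⟨P, hP, hP0⟩ := hy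
  refine ⟨P.map (Subring.inclusion hCL), hP.map _, ?_⟩
  rw [eval₂_map]
  exact hP0

/-- **Log uniformization in bounded degree.** -/
theorem lgu [Infinite E] {N r δ : ℕ} (x : Fin N → K)
    (htop : IntermediateField.adjoin E (Set.range x) = ⊤) (htr : Algebra.trdeg E K = r) (C0 : ℕ)
    (hδ : ∀ t : ℕ, r.factorial * Module.finrank E (img E x t) ≤ δ * (t + C0) ^ r)
    (V : ValuationSubring K)
    (hp : ∀ p : ℕ, p.Prime → p ≤ δ ^ 2 ^ r → V.valuation (p : K) = 1)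
    (R : Subring E) (hfr : ∀ z : E, ∃ a ∈ R, ∃ b ∈ R, b ≠ 0 ∧ z = a * b⁻¹)
    (hR : HasF (AdlS (V.comap (algebraMap E K)) R)
      ({V.comap (algebraMap E K)} : Set (ValuationSubring E)))
    (G : Set K) (hG : G.Finite) (hGm : ∀ z ∈ G, LProd (E := E) x z)
    (A : Subring K) (hAV : A ≤ V.toSubring)
    (hGA : Subring.closure ((R.map (algebraMap E K) : Set K) ∪ G) ≤ A)
    (hA : ∀ z ∈ A, IsIntegral (Subring.closure ((R.map (algebraMap E K) : Set K) ∪ G)) z)
    (hx : ∀ j, ∃ b ∈ A, b ≠ 0 ∧ LProd (E := E) x b ∧ b * x j ∈ A)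
    (D I₀ : Ideal A) (SD SI : Set A) (hSD : SD.Finite) (hSI : SI.Finite)
    (hD : D = Ideal.span SD) (hI₀ : I₀ = Ideal.span SI) (hD0 : D ≠ ⊥) (hI0 : I₀ ≠ ⊥)
    (hmD : ∀ a ∈ SD, LProd (E := E) x (a : K)) (hmI : ∀ a ∈ SI, LProd (E := E) x (a : K)) :
    ∃ I₁ : Ideal A, I₁ ≠ ⊥ ∧ LogDesing V A D (I₀ * I₁) := by
  classical
  -- the family
  choose bx hbxA hbx0 hbxm hbxx using hx
  let T0 : Set K := {1} ∪ Set.range bx ∪ G ∪ (fun a : A => (a : K)) '' SD ∪
    (fun a : A => (a : K)) '' SI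
  have hT0 : T0.Finite := ((((Set.finite_singleton _).union (Set.finite_range bx)).union hG).union
    (hSD.image _)).union (hSI.image _)
  have hT0m : ∀ z ∈ T0, LProd (E := E) x z := by
    rintro z ((((hz | ⟨j, rfl⟩) | hz) | ⟨a, ha, rfl⟩) | ⟨a, ha, rfl⟩)
    · rw [Set.mem_singleton_iff.1 hz]
      exact ⟨0, Fin.elim0, Fin.elim0, Fin.elim0, by simp⟩
    · exact hbxm j
    · exact hGm z hz
    · exact hmD a ha
    · exact hmI a ha
  let T1 : Finset K := hT0.toFinset.filter fun z => z ≠ 0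
  have hT1 : ∀ z, z ∈ T1 ↔ z ∈ T0 ∧ z ≠ 0 := by
    intro z
    rw [Finset.mem_filter, Set.Finite.mem_toFinset]
  let eT := T1.equivFin
  let S : Fin T1.card → K := fun j => (eT.symm j : K)
  have hSs : ∀ z ∈ T0, z ≠ 0 → ∃ j, S j = z := by
    intro z hz hz0
    refine ⟨eT ⟨z, (hT1 z).2 ⟨hz, hz0⟩⟩, ?_⟩
    change ((eT.symm (eT ⟨z, _⟩) : T1) : K) = z
    rw [Equiv.symm_apply_apply]
  have hSm : ∀ j, LProd (E := E) x (S j) := fun j => hT0m _ ((hT1 _).1 (eT.symm j).2).1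
  have hS0 : ∀ j, S j ≠ 0 := fun j => ((hT1 _).1 (eT.symm j).2).2
  choose q' a b e hs using hSm
  have hRA : ∀ c ∈ R, algebraMap E K c ∈ A := fun c hc =>
    hGA (Subring.subset_closure (Or.inl ⟨c, hc, rfl⟩))
  have hjx : ∀ l, ∃ j, S j = bx l := fun l =>
    hSs _ (Or.inl (Or.inl (Or.inl (Or.inr ⟨l, rfl⟩)))) (hbx0 l)
  choose jx hjx using hjx
  obtain ⟨L, B0, ι, hι, X, Z, hB0V, hL, hreg, hint, hRL, hcmp, hpm, hZL, hZ, hB0Z⟩ :=
    lgu_aux x htop htr C0 hδ V hp R hfr hR S q' a b e hs hS0 A hRA jx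
      (fun l => by rw [hjx l]; exact ⟨hbxA l, hbxx l⟩)
  obtain ⟨j1, hj1⟩ := hSs 1 (Or.inl (Or.inl (Or.inl (Or.inl rfl)))) one_ne_zero
  have hVL : ∀ z ∈ T0, z ∈ V → z ∈ L := by
    intro z hz hzV
    by_cases hz0 : z = 0
    · rw [hz0]
      exact L.zero_mem
    · obtain ⟨j, hj⟩ := hSs z hz hz0
      have h1 := hcmp j j1 (by rw [hj, hj1, div_one]; exact hzV)
      rwa [hj, hj1, div_one] at h1
  have hGL : Subring.closure ((R.map (algebraMap E K) : Set K) ∪ G) ≤ L := by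
    rw [Subring.closure_le]
    rintro z (⟨c, hc, rfl⟩ | hz)
    · exact hRL c hc
    · exact hVL z (Or.inl (Or.inl (Or.inr hz)))
        (hAV (hGA (Subring.subset_closure (Or.inr hz))))
  have hAL : A ≤ L := fun z hz => mem_of_int hGL hint (hA z hz)
  have hc0 : ∀ a ∈ T0, ∀ b ∈ T0, a / b ∈ V → a / b ∈ L := by
    intro a ha b hb hab
    by_cases ha0 : a = 0
    · rw [ha0, zero_div]
      exact L.zero_mem
    by_cases hb0 : b = 0
    · rw [hb0, div_zero]
      exact L.zero_mem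
    obtain ⟨i, hi⟩ := hSs a ha ha0
    obtain ⟨j, hj⟩ := hSs b hb hb0
    have h1 := hcmp i j (by rw [hi, hj]; exact hab)
    rwa [hi, hj] at h1
  have hm0 : ∀ b ∈ T0, b ≠ 0 → b ∈ L → PMon L X b := by
    intro b hb hb0 hbL
    obtain ⟨j, hj⟩ := hSs b hb hb0
    rw [← hj] at hbL ⊢
    exact hpm j hbL
  have hSD' : ∀ a ∈ SD, (a : K) ∈ T0 := fun a ha => Or.inl (Or.inr ⟨a, ha, rfl⟩)
  have hSI' : ∀ a ∈ SI, (a : K) ∈ T0 := fun a ha => Or.inr ⟨a, ha, rfl⟩
  exact logDesing_core hB0V hL hreg hAL Z hZL (hZ hAL) hB0Z hSD hSI hD hI₀ hD0 hI0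
    (fun a ha b hb => hc0 a (hSD' a ha) b (hSD' b hb))
    (fun a ha b hb => hc0 a (hSI' a ha) b (hSI' b hb))
    (fun b hb hb0 => hm0 b (hSD' b hb) (fun h => hb0 (Subtype.ext h)) (hAL b.2))
    (fun b hb hb0 => hm0 b (hSI' b hb) (fun h => hb0 (Subtype.ext h)) (hAL b.2))

end main

end Pool.Agent.N98.RW
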