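import Pool.Agent.N98.RW.Basic

/-!
Valuation rings over a set of valuation rings.
-/

set_option autoImplicit false

universe u

namespace Pool.Agent.N98.RW

open Pool.Agent.N98.RV

/-- The valuation rings of `K` over the given valuation rings of `E`. -/
def exV {E : Type u} (K : Type u) [Field E] [Field K] [Algebra E K]
    (𝒲 : Set (ValuationSubring E)) : Set (ValuationSubring K) :=
  {V | V.comap (algebraMap E K) ∈ 𝒲}

lemma exV_comap {E L K : Type u} [Field E] [Field L] [Field K] [Algebra E L] [Algebra E K]
    [Algebra L K] [IsScalarTower E L K] {𝒲 : Set (ValuationSubring E)} {V : ValuationSubring K}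
    (hV : V ∈ exV K 𝒲) : V.comap (algebraMap L K) ∈ exV L 𝒲 := by
  change (V.comap (algebraMap L K)).comap (algebraMap E L) ∈ 𝒲
  rw [ValuationSubring.comap_comap, ← IsScalarTower.algebraMap_eq]
  exact hV

end Pool.Agent.N98.RW
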