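import Pool.Agent.N98.RW.Tn
import Pool.Agent.N98.RW.Cut

/-!
Hypersurfaces of bounded degree over a base.
-/

set_option autoImplicit false
set_option linter.unusedVariables false
set_option linter.unusedSimpArgs false
set_option linter.unusedSectionVars false

universe u

open Pool.Agent.W418.LU2

namespace Pool.Agent.N98.RW

open Pool.Agent.N98.RV

section q

/-- The local ring of the kernel of a homomorphism to a field. -/
theorem exists_Q {k R0 K K' : Type u} [CommRing k] [CommRing R0] [IsDomain R0] [Algebra k R0]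
    [Field K] [Algebra k K] [Field K'] [Algebra R0 K'] [IsFractionRing R0 K'] [Algebra k K']
    [IsScalarTower k R0 K'] (ev : R0 →ₐ[k] K) :
    ∃ (Q : Subalgebra k K') (π : Q →ₐ[k] K),
      (∀ y, y ∈ Q ↔ ∃ a s : R0, ev s ≠ 0 ∧ y = algebraMap R0 K' a * (algebraMap R0 K' s)⁻¹) ∧
      ∀ (g : R0) (h : algebraMap R0 K' g ∈ Q), π ⟨_, h⟩ = ev g := by
  let S : Submonoid R0 := (nonZeroDivisors K).comap (ev : R0 →+* K)
  have hSm : ∀ s, s ∈ S ↔ ev s ≠ 0 := fun s => by
    change ev s ∈ nonZeroDivisors K ↔ _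
    rw [mem_nonZeroDivisors_iff_ne_zero]
  have hS : S ≤ nonZeroDivisors R0 := by
    intro s hs
    rw [mem_nonZeroDivisors_iff_ne_zero]
    rintro rfl
    exact (hSm 0).1 hs (map_zero _)
  have hu : ∀ s : S, IsUnit ((ev : R0 →+* K) s) := fun s =>
    isUnit_iff_ne_zero.2 ((hSm s).1 s.2)
  let π0 : Localization.subalgebra.ofField K' S hS →+* K :=
    IsLocalization.lift (M := S) (S := Localization.subalgebra.ofField K' S hS) hu
  have hπ0 : ∀ a, π0 (algebraMap R0 _ a) = ev a := fun a => IsLocalization.lift_eq hu a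
  refine ⟨(Localization.subalgebra.ofField K' S hS).restrictScalars k,
    { π0 with commutes' := fun r => ?_ }, ?_, ?_⟩
  · change π0 (algebraMap k _ r) = _
    rw [IsScalarTower.algebraMap_apply k R0 (Localization.subalgebra.ofField K' S hS), hπ0]
    exact ev.commutes r
  · intro y
    constructor
    · rintro ⟨a, s, hs, rfl⟩
      exact ⟨a, s, (hSm s).1 hs, rfl⟩
    · rintro ⟨a, s, hs, rfl⟩
      exact ⟨a, s, (hSm s).2 hs, rfl⟩
  · intro g h
    exact hπ0 g

end q

section loc

variable {k E K : Type u} [CommRing k] [Field E] [Algebra k E] [Field K] [Algebra E K] [Algebra k K]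
  [IsScalarTower k E K] {n : ℕ}

/-- The local ring of a prime element of the ring of polynomials, with the residue map. -/
theorem exists_loc (x : Fin n → K) (htop : IntermediateField.adjoin E (Set.range x) = ⊤)
    (f : MvPolynomial (Fin n) E) (hf : Irreducible f)
    (hker : ∀ g : MvPolynomial (Fin n) E, MvPolynomial.aeval x g = 0 ↔ f ∣ g)
    (K' : Type u) [Field K'] [Algebra (MvPolynomial (Fin n) E) K']
    [IsFractionRing (MvPolynomial (Fin n) E) K'] [Algebra k K']
    [IsScalarTower k (MvPolynomial (Fin n) E) K'] :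
    ∃ (Q : Subalgebra k K') (π : Q →ₐ[k] K), Function.Surjective π ∧
      (∀ y : K', y ∈ Q ∨ y⁻¹ ∈ Q) ∧ (∀ b : K', b ∈ Q → pq π b ≠ 0 → b⁻¹ ∈ Q) ∧
      (∀ g : MvPolynomial (Fin n) E, algebraMap _ K' g ∈ Q ∧
        pq π (algebraMap _ K' g) = MvPolynomial.aeval x g) ∧
      (∀ q ∈ Q, pq π q = 0 → q / algebraMap _ K' f ∈ Q) ∧
      ∀ q ∈ Q, ∃ r s : MvPolynomial (Fin n) E, MvPolynomial.aeval x s ≠ 0 ∧
        q * algebraMap _ K' s = algebraMap _ K' r := by
  classical
  let R0 := MvPolynomial (Fin n) E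
  obtain ⟨Q, π, hQ0, hπ⟩ := exists_Q (K' := K')
    ((MvPolynomial.aeval x : MvPolynomial (Fin n) E →ₐ[E] K).restrictScalars k)
  have hgQ : ∀ g : R0, algebraMap R0 K' g ∈ Q := fun g => (hQ0 _).2 ⟨g, 1, by
    rw [map_one]; exact one_ne_zero, by rw [map_one, inv_one, mul_one]⟩
  have hπg : ∀ g : R0, pq π (algebraMap R0 K' g) = MvPolynomial.aeval x g := by
    intro g
    rw [pq_of π (hgQ g)]
    exact hπ g (hgQ g)
  have hinj : Function.Injective (algebraMap R0 K') := IsFractionRing.injective R0 K'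
  have hne : ∀ s : R0, s ≠ 0 → algebraMap R0 K' s ≠ 0 := fun s hs h =>
    hs (hinj (h.trans (map_zero _).symm))
  have hfrac : ∀ r s : R0, MvPolynomial.aeval x s ≠ 0 →
      algebraMap R0 K' r * (algebraMap R0 K' s)⁻¹ ∈ Q := fun r s hs =>
    (hQ0 _).2 ⟨r, s, hs, rfl⟩
  have hrep : ∀ q ∈ Q, ∃ r s : R0, MvPolynomial.aeval x s ≠ 0 ∧
      q = algebraMap R0 K' r * (algebraMap R0 K' s)⁻¹ := by
    intro q hq
    obtain ⟨r, s, hs, rfl⟩ := (hQ0 q).1 hq
    exact ⟨r, s, hs, rfl⟩
  have hs0 : ∀ s : R0, MvPolynomial.aeval x s ≠ 0 → s ≠ 0 := by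
    rintro s hs rfl
    exact hs (map_zero _)
  have hval : ∀ r s : R0, MvPolynomial.aeval x s ≠ 0 →
      pq π (algebraMap R0 K' r * (algebraMap R0 K' s)⁻¹) * MvPolynomial.aeval x s =
        MvPolynomial.aeval x r := by
    intro r s hs
    rw [← hπg s, ← pq_mul π (hfrac r s hs) (hgQ s), mul_assoc,
      inv_mul_cancel₀ (hne s (hs0 s hs)), mul_one, hπg]
  refine ⟨Q, π, ?_, ?_, ?_, fun g => ⟨hgQ g, hπg g⟩, ?_, ?_⟩
  · intro z
    have hz : z ∈ IntermediateField.adjoin E (Set.range x) := by rw [htop]; trivial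
    obtain ⟨r, s, rfl⟩ := (IntermediateField.mem_adjoin_range_iff E x z).1 hz
    by_cases hs : MvPolynomial.aeval x s = 0
    · exact ⟨0, by rw [map_zero, hs, div_zero]⟩
    · refine ⟨⟨_, hfrac r s hs⟩, ?_⟩
      rw [← pq_of π (hfrac r s hs), eq_div_iff hs]
      exact hval r s hs
  · -- totality
    have key : ∀ (a b : R0), a ≠ 0 → b ≠ 0 →
        algebraMap R0 K' a * (algebraMap R0 K' b)⁻¹ ∈ Q ∨
        algebraMap R0 K' b * (algebraMap R0 K' a)⁻¹ ∈ Q := by
      intro a b ha hb
      obtain ⟨i, a', ha', rfl⟩ := WfDvdMonoid.max_power_factor ha hf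
      obtain ⟨j, b', hb', rfl⟩ := WfDvdMonoid.max_power_factor hb hf
      have hf0 := hne f hf.ne_zero
      have ha1 : MvPolynomial.aeval x a' ≠ 0 := fun h => ha' ((hker _).1 h)
      have hb1 : MvPolynomial.aeval x b' ≠ 0 := fun h => hb' ((hker _).1 h)
      have ha2 := hne a' (hs0 _ ha1)
      have hb2 := hne b' (hs0 _ hb1)
      rcases le_total j i with h | h
      · left
        have e : algebraMap R0 K' (f ^ i * a') * (algebraMap R0 K' (f ^ j * b'))⁻¹ =
            algebraMap R0 K' (f ^ (i - j) * a') * (algebraMap R0 K' b')⁻¹ := by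
          rw [map_mul, map_mul, map_mul, map_pow, map_pow, map_pow, mul_inv]
          have : algebraMap R0 K' f ^ i = algebraMap R0 K' f ^ (i - j) * algebraMap R0 K' f ^ j := by
            rw [← pow_add, Nat.sub_add_cancel h]
          rw [this]
          field_simp
        rw [e]
        exact hfrac _ _ hb1
      · right
        have e : algebraMap R0 K' (f ^ j * b') * (algebraMap R0 K' (f ^ i * a'))⁻¹ =
            algebraMap R0 K' (f ^ (j - i) * b') * (algebraMap R0 K' a')⁻¹ := by
          rw [map_mul, map_mul, map_mul, map_pow, map_pow, map_pow, mul_inv]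
          have : algebraMap R0 K' f ^ j = algebraMap R0 K' f ^ (j - i) * algebraMap R0 K' f ^ i := by
            rw [← pow_add, Nat.sub_add_cancel h]
          rw [this]
          field_simp
        rw [e]
        exact hfrac _ _ ha1
    intro y
    by_cases hy : y = 0
    · left
      rw [hy]
      exact Q.zero_mem
    obtain ⟨a, b, hb, hab⟩ := IsFractionRing.div_surjective R0 y
    have hb0 := nonZeroDivisors.ne_zero hb
    have ha0 : a ≠ 0 := by
      rintro rfl
      apply hy
      rw [← hab, map_zero, zero_div]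
    rcases key a b ha0 hb0 with h | h
    · left
      rw [← hab, div_eq_mul_inv]
      exact h
    · right
      rw [← hab, inv_div, div_eq_mul_inv]
      exact h
  · intro b hb hb0
    obtain ⟨r, s, hs, rfl⟩ := hrep b hb
    have h1 := hval r s hs
    have hr : MvPolynomial.aeval x r ≠ 0 := by
      rw [← h1]
      exact mul_ne_zero hb0 hs
    have e : (algebraMap R0 K' r * (algebraMap R0 K' s)⁻¹)⁻¹ =
        algebraMap R0 K' s * (algebraMap R0 K' r)⁻¹ := by
      rw [mul_inv, inv_inv, mul_comm]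
    rw [e]
    exact hfrac _ _ hr
  · intro q hq hq0
    obtain ⟨r, s, hs, rfl⟩ := hrep q hq
    have h1 := hval r s hs
    rw [hq0, zero_mul] at h1
    obtain ⟨r', rfl⟩ := (hker r).1 h1.symm
    have e : algebraMap R0 K' (f * r') * (algebraMap R0 K' s)⁻¹ / algebraMap R0 K' f =
        algebraMap R0 K' r' * (algebraMap R0 K' s)⁻¹ := by
      have := hne f hf.ne_zero
      rw [map_mul]
      field_simp
    rw [e]
    exact hfrac _ _ hs
  · intro q hq
    obtain ⟨r, s, hs, rfl⟩ := hrep q hq
    refine ⟨r, s, hs, ?_⟩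
    rw [mul_assoc, inv_mul_cancel₀ (hne s (hs0 s hs)), mul_one]

end loc

section main

variable {k E K : Type u} [CommRing k] [Field E] [Algebra k E] [Field K] [Algebra E K] [Algebra k K]
  [IsScalarTower k E K] {n : ℕ}

lemma frac_top (K' : Type u) [Field K'] [Algebra E K'] [Algebra (MvPolynomial (Fin n) E) K']
    [IsScalarTower E (MvPolynomial (Fin n) E) K'] [IsFractionRing (MvPolynomial (Fin n) E) K'] :
    (∀ g : MvPolynomial (Fin n) E, MvPolynomial.aeval (fun i : Fin n =>
      algebraMap (MvPolynomial (Fin n) E) K' (MvPolynomial.X i)) g = algebraMap _ K' g) ∧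
    AlgebraicIndependent E (fun i : Fin n =>
      algebraMap (MvPolynomial (Fin n) E) K' (MvPolynomial.X i)) ∧
    IntermediateField.adjoin E (Set.range (fun i : Fin n =>
      algebraMap (MvPolynomial (Fin n) E) K' (MvPolynomial.X i))) = ⊤ := by
  have h1 : (MvPolynomial.aeval (fun i : Fin n =>
      algebraMap (MvPolynomial (Fin n) E) K' (MvPolynomial.X i)) :
        MvPolynomial (Fin n) E →ₐ[E] K') =
      IsScalarTower.toAlgHom E (MvPolynomial (Fin n) E) K' := by
    apply MvPolynomial.algHom_ext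
    intro i
    rw [MvPolynomial.aeval_X]
    rfl
  have h2 : ∀ g : MvPolynomial (Fin n) E, MvPolynomial.aeval (fun i : Fin n =>
      algebraMap (MvPolynomial (Fin n) E) K' (MvPolynomial.X i)) g = algebraMap _ K' g := by
    intro g
    rw [h1]
    rfl
  refine ⟨h2, ?_, ?_⟩
  · intro a b hab
    have hab' : MvPolynomial.aeval (fun i : Fin n =>
      algebraMap (MvPolynomial (Fin n) E) K' (MvPolynomial.X i)) a = MvPolynomial.aeval
      (fun i : Fin n => algebraMap (MvPolynomial (Fin n) E) K' (MvPolynomial.X i)) b := hab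
    rw [h2, h2] at hab'
    exact IsFractionRing.injective (MvPolynomial (Fin n) E) K' hab'
  · rw [eq_top_iff]
    intro y _
    obtain ⟨a, b, hb, hab⟩ := IsFractionRing.div_surjective (MvPolynomial (Fin n) E) y
    rw [IntermediateField.mem_adjoin_range_iff]
    exact ⟨a, b, by rw [h2, h2, hab]⟩

lemma pullV_comap {K' : Type u} [Field K'] [Algebra E K'] [Algebra k K'] {Q : Subalgebra k K'}
    (π : Q →ₐ[k] K)
    (hK : ∀ x : K', (∃ a b : Q, π b ≠ 0 ∧ x * b = a) ∨ (∃ a b : Q, π b ≠ 0 ∧ x⁻¹ * b = a))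
    (hEQ : ∀ e : E, algebraMap E K' e ∈ Q ∧ pq π (algebraMap E K' e) = algebraMap E K e)
    (V : ValuationSubring K) :
    (pullV π hK V).comap (algebraMap E K') = V.comap (algebraMap E K) := by
  ext e
  rw [ValuationSubring.mem_comap, ValuationSubring.mem_comap]
  obtain ⟨h1, h2⟩ := hEQ e
  constructor
  · intro h
    have h3 := pullV_pq π h1 h
    rwa [h2] at h3
  · intro h
    refine ⟨⟨_, h1⟩, 1, by rw [map_one]; exact one_ne_zero, ?_, ?_⟩
    · rw [Subalgebra.coe_one, mul_one]
    · rw [map_one, div_one, ← pq_of π h1, h2]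
      exact h

end main

end Pool.Agent.N98.RW
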