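import Pool.Agent.N98.RW.Bs

/-!
Base rings with log uniformizable valuations.
-/

set_option autoImplicit false
set_option linter.unusedVariables false
set_option linter.unusedSectionVars false

universe u

namespace Pool.Agent.N98.RW

open IsLocalRing Pool.Agent.W418.LU2 Pool.Agent.N98.RV

variable {E : Type u} [Field E]

/-- The chart `A[I / f]` of the blowing-up of `A` in the ideal `I`. -/
def chart (A : Subring E) (I : Ideal A) (f : A) : Subring E :=
  Subring.closure ((A : Set E) ∪ {z | ∃ a ∈ I, z = (a : E) / (f : E)})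

/-- Regular rings with a strict normal crossings divisor. -/
def SncPair (P : Type u) [CommRing P] (J : Ideal P) : Prop :=
  ∃ (m : ℕ) (x : Fin m → P), (∀ (Q : Ideal P) [Q.IsPrime],
    IsRegularLocalRing (Localization.AtPrime Q) ∧
    ∀ c : Fin m → Localization.AtPrime Q, (∀ i, x i ∉ Q → c i = 0) →
      ∑ i, c i * algebraMap P (Localization.AtPrime Q) (x i) ∈
        maximalIdeal (Localization.AtPrime Q) ^ 2 →
      ∀ i, c i ∈ maximalIdeal (Localization.AtPrime Q)) ∧
  J.radical = Ideal.span {∏ i, x i}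

lemma chart_mul {A : Subring E} {I : Ideal A} {f : A} (hf0 : (f : E) ≠ 0) :
    ∀ z ∈ chart A I f, ∃ n : ℕ, z * (f : E) ^ n ∈ A := by
  intro z hz
  have hup : ∀ {z : E} {n m : ℕ}, n ≤ m → z * (f : E) ^ n ∈ A → z * (f : E) ^ m ∈ A := by
    intro z n m hnm h
    obtain ⟨e, rfl⟩ := Nat.exists_eq_add_of_le hnm
    rw [pow_add, ← mul_assoc]
    exact A.mul_mem h (A.pow_mem f.2 e)
  induction hz using Subring.closure_induction with
  | mem z hz =>
    rcases hz with hz | ⟨a, ha, rfl⟩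
    · exact ⟨0, by rw [pow_zero, mul_one]; exact hz⟩
    · exact ⟨1, by rw [pow_one, div_mul_cancel₀ _ hf0]; exact a.2⟩
  | zero => exact ⟨0, by rw [zero_mul]; exact A.zero_mem⟩
  | one => exact ⟨0, by rw [pow_zero, mul_one]; exact A.one_mem⟩
  | add x y _ _ hx hy =>
    obtain ⟨n, hn⟩ := hx
    obtain ⟨m, hm⟩ := hy
    refine ⟨n + m, ?_⟩
    rw [add_mul]
    exact A.add_mem (hup (Nat.le_add_right _ _) hn) (hup (Nat.le_add_left _ _) hm)
  | neg x _ hx =>
    obtain ⟨n, hn⟩ := hx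
    exact ⟨n, by rw [neg_mul]; exact A.neg_mem hn⟩
  | mul x y _ _ hx hy =>
    obtain ⟨n, hn⟩ := hx
    obtain ⟨m, hm⟩ := hy
    refine ⟨n + m, ?_⟩
    have e : x * y * (f : E) ^ (n + m) = x * (f : E) ^ n * (y * (f : E) ^ m) := by
      rw [pow_add]; ring
    rw [e]
    exact A.mul_mem hn hm

theorem hasF_of_logUnif (V : ValuationSubring E) (R : Subring E) [IsNoetherianRing R]
    (hRV : R ≤ V.toSubring) (hfr : ∀ z : E, ∃ a ∈ R, ∃ b ∈ R, b ≠ 0 ∧ z = a * b⁻¹)
    (hLU : ∀ D : Ideal R, D ≠ ⊥ → ∃ I : Ideal R, ∃ f ∈ I, f ≠ 0 ∧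
      (∀ a ∈ I, (a : E) / (f : E) ∈ V) ∧
      SncPair (lo V.toSubring (chart R I f))
        (Ideal.span {z : lo V.toSubring (chart R I f) | ∃ a ∈ D * I, (z : E) = (a : E)})) :
    HasF (AdlS V R) ({V} : Set (ValuationSubring E)) := by
  classical
  refine hasF_adl fun H _ g hg => ?_
  choose num hnum den hden hden0 hnd using hfr
  let nh : E → R := fun h => ⟨num h, hnum h⟩
  let dh : E → R := fun h => ⟨den h, hden h⟩
  let h₀ : R := ∏ t, nh (g t) * dh (g t)
  have hnum0 : ∀ t, num (g t) ≠ 0 := by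
    intro t h0
    apply hg t
    rw [hnd (g t), h0, zero_mul]
  have hh₀ : h₀ ≠ 0 := by
    refine Finset.prod_ne_zero_iff.2 fun t _ => mul_ne_zero ?_ ?_
    · exact fun h0 => hnum0 t (congrArg Subtype.val h0)
    · exact fun h0 => hden0 (g t) (congrArg Subtype.val h0)
  obtain ⟨I, f, hf, hf0, hfV, hpair⟩ := hLU (Ideal.span {h₀}) (by
    rw [Ne, Ideal.span_singleton_eq_bot]; exact hh₀)
  have hf0' : (f : E) ≠ 0 := fun h => hf0 (Subtype.ext h)
  have hBW : chart R I f ≤ V.toSubring := by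
    unfold chart
    rw [Subring.closure_le]
    rintro z (hz | ⟨a, ha, rfl⟩)
    · exact hRV hz
    · exact hfV a ha
  set P := lo V.toSubring (chart R I f) with hP
  have hloc : IsLocalRing P := isLocalRing_lo (loc_val V) hBW
  obtain ⟨m, x, hsnc, hrad⟩ := hpair
  -- regularity
  have e0 : P ≃+* Localization.AtPrime (maximalIdeal P) := by
    refine (IsLocalization.atUnits P (maximalIdeal P).primeCompl (S := Localization.AtPrime
      (maximalIdeal P)) ?_).toRingEquiv
    intro a ha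
    by_contra h1
    exact ha ((mem_maximalIdeal a).2 h1)
  have hregP : IsRegularLocalRing P := by
    have := (hsnc (maximalIdeal P)).1
    exact IsRegularLocalRing.of_ringEquiv e0.symm
  have hPn : IsNoetherianRing P := inferInstance
  have hRP : R ≤ P := fun a ha => le_lo _ _ (Subring.subset_closure (Or.inl ha))
  have hPV : P ≤ V.toSubring := lo_le hBW
  have hinv : ∀ a ∈ P, V.valuation a = 1 → a⁻¹ ∈ P := by
    intro a ha h1
    refine inv_mem_lo hBW ha ?_ ?_
    · rintro rfl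
      rw [map_zero] at h1
      exact zero_ne_one h1
    · change a⁻¹ ∈ V
      rw [← V.valuation_le_one_iff, map_inv₀, h1, inv_one]
  -- the divisor
  have hrm : ∃ (N : ℕ) (c : P), (∏ i, x i) ^ N = c * ⟨(h₀ : E) * (f : E),
      P.mul_mem (hRP h₀.2) (hRP f.2)⟩ := by
    have h1 : ∏ i, x i ∈ (Ideal.span {z : P | ∃ a ∈ Ideal.span {h₀} * I,
        (z : E) = (a : E)}).radical := by
      rw [hrad]
      exact Ideal.mem_span_singleton_self _
    obtain ⟨N, hN⟩ := Ideal.mem_radical_iff.1 h1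
    have h2 : Ideal.span {z : P | ∃ a ∈ Ideal.span {h₀} * I, (z : E) = (a : E)} ≤
        Ideal.span {(⟨(h₀ : E) * (f : E), P.mul_mem (hRP h₀.2) (hRP f.2)⟩ : P)} := by
      rw [Ideal.span_le]
      rintro z ⟨a, ha, hz⟩
      obtain ⟨i, hi, rfl⟩ := Ideal.mem_span_singleton_mul.1 ha
      rw [SetLike.mem_coe, Ideal.mem_span_singleton']
      refine ⟨⟨(i : E) / (f : E), le_lo _ _ (Subring.subset_closure (Or.inr ⟨i, hi, rfl⟩))⟩,
        Subtype.ext ?_⟩
      change (i : E) / (f : E) * ((h₀ : E) * (f : E)) = z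
      rw [hz]
      change _ = (h₀ : E) * (i : E)
      field_simp
    obtain ⟨c, hc⟩ := Ideal.mem_span_singleton'.1 (h2 hN)
    exact ⟨N, c, hc.symm⟩
  obtain ⟨N, c, hc⟩ := hrm
  have hJ0 : (⟨(h₀ : E) * (f : E), P.mul_mem (hRP h₀.2) (hRP f.2)⟩ : P) ≠ 0 := by
    intro h
    exact mul_ne_zero (fun h => hh₀ (Subtype.ext h)) hf0' (congrArg Subtype.val h)
  have hJr : ∃ N : ℕ, ∏ i, x i ∣ (⟨(h₀ : E) * (f : E), P.mul_mem (hRP h₀.2) (hRP f.2)⟩ : P) := by
    refine ⟨0, ?_⟩
    rw [← Ideal.mem_span_singleton, ← hrad]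
    apply Ideal.le_radical
    exact Ideal.subset_span ⟨h₀ * f, Ideal.mul_mem_mul (Ideal.mem_span_singleton_self _) hf, rfl⟩
  obtain ⟨-, hJd⟩ := hJr
  have hx0 : ∀ i, ((x i : P) : E) ≠ 0 := by
    intro i h0
    apply hJ0
    obtain ⟨b, hb⟩ := hJd
    rw [hb, Finset.prod_eq_zero (Finset.mem_univ i) (Subtype.ext h0), zero_mul]
  have hreg : RegC P (fun i => ((x i : P) : E)) :=
    regC_of_snc P.subtype Subtype.val_injective (fun y => ⟨fun hy => ⟨⟨y, hy⟩, rfl⟩, by
      rintro ⟨a, rfl⟩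
      exact a.2⟩) hx0 hsnc
  have hRegP : RegP V.toSubring P (fun i => ((x i : P) : E)) := by
    have h1 := hreg.reg V.toSubring (loc_val V) hPV (Fin m) id Function.injective_id
    have h2 : lo V.toSubring P = P := RV.lo_lo hBW
    rwa [h2] at h1
  have hpm : PMon P (fun i => ((x i : P) : E)) (((∏ i, x i) ^ N : P) : E) := by
    have h1 : (((∏ i, x i) ^ N : P) : E) = (∏ i, ((x i : P) : E)) ^ N := by
      have h2 := map_prod P.subtype (fun i => x i) Finset.univ
      change ((∏ i, x i : P) : E) ^ N = _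
      congr 1
    rw [h1]
    exact PMon.pow hx0 (PMon.prod hx0 _ _ fun i _ => PMon.gen i) N
  have hdiv : ∀ a ∈ P, (∃ b ∈ P, a * b = (h₀ : E) * (f : E)) →
      PMon P (fun i => ((x i : P) : E)) a := by
    rintro a ha ⟨b, hb, hab⟩
    refine RegP.dvd_mon hRegP hpm ha (P.mul_mem hb c.2) ?_
    rw [← mul_assoc, hab, hc, mul_comm]
    rfl
  have hfp : PMon P (fun i => ((x i : P) : E)) (f : E) :=
    hdiv f (hRP f.2) ⟨h₀, hRP h₀.2, mul_comm _ _⟩
  obtain ⟨S, hS⟩ := (IsNoetherian.noetherian I : I.FG)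
  let Wb : Finset E := S.image (fun a : R => (a : E) / (f : E))
  have hB : chart R I f ≤ Subring.closure ((R : Set E) ∪ Wb) := by
    unfold chart
    rw [Subring.closure_le]
    rintro z (hz | ⟨a, ha, rfl⟩)
    · exact Subring.subset_closure (Or.inl hz)
    · rw [← hS] at ha
      change (a : E) / (f : E) ∈ _
      induction ha using Submodule.span_induction with
      | mem a ha =>
        refine Subring.subset_closure (Or.inr ?_)
        exact Finset.mem_coe.2 (Finset.mem_image_of_mem (fun a : R => (a : E) / (f : E)) ha)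
      | zero => simp
      | add a b _ _ ha hb =>
        have h1 : ((a + b : R) : E) / (f : E) = (a : E) / (f : E) + (b : E) / (f : E) :=
          add_div _ _ _
        rw [h1]
        exact Subring.add_mem _ ha hb
      | smul c a _ ha =>
        have h1 : ((c • a : R) : E) / (f : E) = (c : E) * ((a : E) / (f : E)) :=
          mul_div_assoc _ _ _
        rw [h1]
        exact Subring.mul_mem _ (Subring.subset_closure (Or.inl c.2)) ha
  refine ⟨P, Fin m, inferInstance, fun i => ((x i : P) : E), hPn, hRP, fun a ha => hPV ha, hinv,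
    ⟨Wb, ?_, lo_mono hB⟩, hreg, ?_, ?_, ?_⟩
  · intro z hz
    obtain ⟨a, ha, rfl⟩ := Finset.mem_image.1 hz
    refine le_lo _ _ (Subring.subset_closure (Or.inr ⟨a, ?_, rfl⟩))
    rw [← hS]
    exact Ideal.subset_span ha
  · rintro c' ⟨a, ha, b, hb, hb0, hbV, rfl⟩
    obtain ⟨n1, hn1⟩ := chart_mul hf0' a ha
    obtain ⟨n2, hn2⟩ := chart_mul hf0' b hb
    have hbP : b ∈ P := le_lo _ _ hb
    refine ⟨(f : E) ^ n1 * (b * (f : E) ^ n2), R.mul_mem (R.pow_mem f.2 _) hn2, ?_, ?_⟩
    · exact (PMon.pow hx0 hfp _).mul hx0 ((PMon.unit hb0 hbP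
        (inv_mem_lo hBW hbP hb0 hbV)).mul hx0 (PMon.pow hx0 hfp _))
    · have e : a * b⁻¹ * ((f : E) ^ n1 * (b * (f : E) ^ n2)) = a * (f : E) ^ n1 * (f : E) ^ n2 := by
        field_simp
      rw [e]
      exact R.mul_mem hn1 (R.pow_mem f.2 _)
  · intro e
    exact ⟨num e, hRP (hnum e), den e, hRP (hden e), hden0 e, hnd e⟩
  · intro t
    have h1 : ∀ a : R, a ∣ h₀ → PMon P (fun i => ((x i : P) : E)) (a : E) := by
      rintro a ⟨c', hc'⟩
      refine hdiv a (hRP a.2) ⟨(c' : E) * (f : E), P.mul_mem (hRP c'.2) (hRP f.2), ?_⟩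
      rw [hc']
      change (a : E) * ((c' : E) * (f : E)) = (a : E) * (c' : E) * (f : E)
      ring
    have h2 : nh (g t) * dh (g t) ∣ h₀ := Finset.dvd_prod_of_mem _ (Finset.mem_univ t)
    have h3 := (h1 (nh (g t)) (dvd_trans (dvd_mul_right _ _) h2)).mul hx0
      (h1 (dh (g t)) (dvd_trans (dvd_mul_left _ _) h2)).inv
    have h4 : (nh (g t) : E) * (dh (g t) : E)⁻¹ = g t := (hnd (g t)).symm
    rwa [h4] at h3

end Pool.Agent.N98.RW
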