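import Pool.Agent.N98.RV.Reg2

set_option autoImplicit false
set_option linter.unusedVariables false
set_option linter.unusedSimpArgs false
set_option linter.unusedSectionVars false

universe u v

open Polynomial Pool.Agent.W418.LU2

namespace Pool.Agent.N98.RW

open Pool.Agent.N98.RV

export Pool.Agent.N98.RV (evA evA_C evA_X adj le_adj self_mem_adj adj_induction adj_le evA'
  evA'_surj mem_adj_inv ft_adj adj_toSubring mem_of_depth isIntegrallyClosed_of_regular indN_units
  regP_reindex regP_comp RegC lo_lo lo_eq_of closure_le_lo le_closure self_mem_closure bx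
  loc_ofPrime inv_mem_ofPrime not_inv_mem_ofPrime lo_ofPrime)

/-- Products of units of `A` and of (positive and negative) powers of the elements `x i`. -/
inductive Mo {k K : Type u} [CommRing k] [Field K] [Algebra k K] (A : Subalgebra k K) {I : Type}
    (x : I → K) : K → Prop
  | unit (u : K) : u ≠ 0 → u ∈ A → u⁻¹ ∈ A → Mo A x u
  | gen (i : I) : Mo A x (x i)
  | mul (a b : K) : Mo A x a → Mo A x b → Mo A x (a * b)
  | inv (a : K) : Mo A x a → Mo A x a⁻¹

section mo

variable {k K : Type u} [CommRing k] [Field K] [Algebra k K] {A A' : Subalgebra k K}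
  {I I' : Type} {x : I → K} {x' : I' → K}

lemma Mo.one : Mo A x 1 := Mo.unit 1 one_ne_zero A.one_mem (by rw [inv_one]; exact A.one_mem)

lemma Mo.ne (hx : ∀ i, x i ≠ 0) {b : K} (h : Mo A x b) : b ≠ 0 := by
  induction h with
  | unit u h _ _ => exact h
  | gen i => exact hx i
  | mul a b _ _ ha hb => exact mul_ne_zero ha hb
  | inv a _ ha => exact inv_ne_zero ha

lemma Mo.mono (hA : A ≤ A') (hx : ∀ i, Mo A' x' (x i)) {b : K} (h : Mo A x b) : Mo A' x' b := by
  induction h with
  | unit u h1 h2 h3 => exact Mo.unit u h1 (hA h2) (hA h3)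
  | gen i => exact hx i
  | mul a b _ _ ha hb => exact Mo.mul _ _ ha hb
  | inv a _ ha => exact Mo.inv _ ha

lemma Mo.pow {b : K} (h : Mo A x b) (n : ℕ) : Mo A x (b ^ n) := by
  induction n with
  | zero => rw [pow_zero]; exact Mo.one
  | succ n ih => rw [pow_succ]; exact Mo.mul _ _ ih h

lemma Mo.zpow {b : K} (h : Mo A x b) (n : ℤ) : Mo A x (b ^ n) := by
  obtain ⟨m, rfl | rfl⟩ := n.eq_nat_or_neg
  · rw [zpow_natCast]; exact h.pow m
  · rw [zpow_neg, zpow_natCast]; exact Mo.inv _ (h.pow m)

lemma Mo.prod {ι : Type*} (s : Finset ι) (g : ι → K) (h : ∀ i ∈ s, Mo A x (g i)) :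
    Mo A x (∏ i ∈ s, g i) := by
  classical
  induction s using Finset.induction_on with
  | empty => rw [Finset.prod_empty]; exact Mo.one
  | insert i s hi ih =>
    rw [Finset.prod_insert hi]
    exact Mo.mul _ _ (h i (Finset.mem_insert_self _ _))
      (ih fun j hj => h j (Finset.mem_insert_of_mem hj))

lemma Mo.of_pow {b : K} {n : ℕ} (h : Mo A x (b ^ (n + 1))) (h' : Mo A x (b ^ n)⁻¹) (hb : b ≠ 0) :
    Mo A x b := by
  have e : b = b ^ (n + 1) * (b ^ n)⁻¹ := by
    rw [pow_succ, mul_comm (b ^ n), mul_assoc, mul_inv_cancel₀ (pow_ne_zero n hb), mul_one]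
  rw [e]
  exact Mo.mul _ _ h h'

/-- The elements of `A` are quotients of elements of `R`, whose denominators are monomials up to
units of `A`. -/
def Qd (R A : Subalgebra k K) (x : I → K) : Prop :=
  ∀ f ∈ A, ∃ b ∈ R, Mo A x b ∧ f * b ∈ R

/-- `f` is such a quotient. -/
def Qf (R A : Subalgebra k K) (x : I → K) (f : K) : Prop := ∃ b ∈ R, Mo A x b ∧ f * b ∈ R

variable {R : Subalgebra k K}

lemma Qf.add {f g : K} (hf : Qf R A x f) (hg : Qf R A x g) : Qf R A x (f + g) := by
  obtain ⟨b, hb, hb', hfb⟩ := hf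
  obtain ⟨c, hc, hc', hgc⟩ := hg
  refine ⟨b * c, R.mul_mem hb hc, Mo.mul _ _ hb' hc', ?_⟩
  have e : (f + g) * (b * c) = f * b * c + g * c * b := by ring
  rw [e]
  exact R.add_mem (R.mul_mem hfb hc) (R.mul_mem hgc hb)

lemma Qf.mul {f g : K} (hf : Qf R A x f) (hg : Qf R A x g) : Qf R A x (f * g) := by
  obtain ⟨b, hb, hb', hfb⟩ := hf
  obtain ⟨c, hc, hc', hgc⟩ := hg
  refine ⟨b * c, R.mul_mem hb hc, Mo.mul _ _ hb' hc', ?_⟩
  have e : f * g * (b * c) = f * b * (g * c) := by ring
  rw [e]
  exact R.mul_mem hfb hgc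

lemma Qf.of_mem {f : K} (hf : f ∈ R) : Qf R A x f := ⟨1, R.one_mem, Mo.one, by rwa [mul_one]⟩

lemma Qf.inv {f : K} (hf : Qf R A x f) (hf0 : f ≠ 0) (hf' : Mo A x f) : Qf R A x f⁻¹ := by
  obtain ⟨b, hb, hb', hfb⟩ := hf
  refine ⟨f * b, hfb, Mo.mul _ _ hf' hb', ?_⟩
  rw [← mul_assoc, inv_mul_cancel₀ hf0, one_mul]
  exact hb

lemma Qf.mono (hA : A ≤ A') (hx : ∀ i, Mo A' x' (x i)) {f : K} (h : Qf R A x f) :
    Qf R A' x' f := by
  obtain ⟨b, hb, hb', hfb⟩ := h
  exact ⟨b, hb, hb'.mono hA hx, hfb⟩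

lemma Qd.same (h : Qd R A x) (hx : ∀ i, Mo A x' (x i)) : Qd R A x' := fun f hf =>
  Qf.mono le_rfl hx (h f hf)

lemma Qd.adj {v : K} (h : Qd R A x) (hx : ∀ i, Mo (Pool.Agent.N98.RV.adj A v) x' (x i))
    (hv : Qf R (Pool.Agent.N98.RV.adj A v) x' v) : Qd R (Pool.Agent.N98.RV.adj A v) x' := by
  intro f hf
  exact adj_induction A v (p := fun f => Qf R (Pool.Agent.N98.RV.adj A v) x' f)
    (fun a ha => Qf.mono (le_adj A v) hx (h a ha)) (fun a b ha hb => Qf.add ha hb)
    (fun a ha => Qf.mul ha hv) f hf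

end mo

/-- A regular model with a strict normal crossings divisor: finitely many charts, regular subalgebras
`A t` of `K`, with homogeneous coordinates `H t` and local equations `x t i` of the components of
the divisor. The valuations in `𝒱` have a centre, and the elements of the charts are
quotients of elements of `R` whose denominators have their zeros and poles in the divisor. -/
structure LM {k K : Type u} [CommRing k] [Field K] [Algebra k K] (𝒱 : Set (ValuationSubring K))
    (R0 R : Subalgebra k K) (T I : Type) where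
  ne : 𝒱.Nonempty
  /-- the charts -/
  A : T → Subalgebra k K
  /-- the homogeneous coordinates -/
  H : T → K
  /-- the local equations of the components of the divisor -/
  x : T → I → K
  ft : ∀ t, Algebra.FiniteType k (A t)
  base : ∀ t, R0 ≤ A t
  H0 : ∀ t, H t ≠ 0
  rt : ∀ t t', H t' / H t ∈ A t
  gl : ∀ t t', ∀ f ∈ A t', ∃ n : ℕ, (H t' / H t) ^ n * f ∈ A t
  q : ∀ t, Qd R (A t) (x t)
  cv : ∀ V ∈ 𝒱, ∃ t, ∀ f ∈ A t, f ∈ V
  xA : ∀ t i, x t i ∈ A t
  x0 : ∀ t i, x t i ≠ 0
  gi : ∀ t t' i, ∃ n : ℕ, (H t' / H t) ^ n * (x t' i / x t i) ∈ A t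
  rg : ∀ t, RegC (A t).toSubring (x t)

namespace LM

variable {k K : Type u} [CommRing k] [Field K] [Algebra k K]
  {𝒱 : Set (ValuationSubring K)} {R0 R : Subalgebra k K}
    {T I : Type} (M : LM 𝒱 R0 R T I)

lemma gl_mono {t t' : T} {f : K} {n m : ℕ} (hnm : n ≤ m)
    (h : (M.H t' / M.H t) ^ n * f ∈ M.A t) : (M.H t' / M.H t) ^ m * f ∈ M.A t := by
  obtain ⟨e, rfl⟩ := Nat.exists_eq_add_of_le hnm
  rw [add_comm, pow_add, mul_assoc]
  exact (M.A t).mul_mem ((M.A t).pow_mem (M.rt t t') e) h

/-- A common exponent. -/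
lemma exists_N [Finite T] [Finite I] : ∃ N : ℕ, ∀ n, N ≤ n →
    (∀ t t' i, (M.H t' / M.H t) ^ n * (M.x t' i / M.x t i) ∈ M.A t) := by
  classical
  have : Fintype T := Fintype.ofFinite T
  have : Fintype I := Fintype.ofFinite I
  choose n hn using M.gi
  refine ⟨(Finset.univ.sup fun p : T × T × I => n p.1 p.2.1 p.2.2), fun N hN => ?_⟩
  intro t t' i
  refine M.gl_mono ?_ (hn t t' i)
  have h1 : n t t' i ≤ Finset.univ.sup fun p : T × T × I => n p.1 p.2.1 p.2.2 :=
    Finset.le_sup (f := fun p : T × T × I => n p.1 p.2.1 p.2.2) (Finset.mem_univ (t, t', i))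
  omega

/-- A common exponent for a family of elements. -/
lemma exists_N' [Finite T] {J : Type} [Finite J] (h : T → J → K) (hh : ∀ t b, h t b ∈ M.A t) :
    ∃ N : ℕ, ∀ n, N ≤ n → (∀ t t' b, (M.H t' / M.H t) ^ n * h t' b ∈ M.A t) := by
  classical
  have : Fintype T := Fintype.ofFinite T
  have : Fintype J := Fintype.ofFinite J
  choose n hn using fun t t' b => M.gl t t' _ (hh t' b)
  refine ⟨(Finset.univ.sup fun p : T × T × J => n p.1 p.2.1 p.2.2), fun N hN => ?_⟩
  intro t t' b
  refine M.gl_mono ?_ (hn t t' b)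
  have h1 : n t t' b ≤ Finset.univ.sup fun p : T × T × J => n p.1 p.2.1 p.2.2 :=
    Finset.le_sup (f := fun p : T × T × J => n p.1 p.2.1 p.2.2) (Finset.mem_univ (t, t', b))
  omega

end LM

section blowup

variable {k K : Type u} [CommRing k] [Field K] [Algebra k K]
  {𝒱 : Set (ValuationSubring K)} {R0 R : Subalgebra k K}
    {T I : Type} (M : LM 𝒱 R0 R T I) [DecidableEq I] (i j : I)

/-- The numerator on the chart `b`. -/
def nu (b : Bool) : I := if b then i else j

/-- The denominator on the chart `b`. -/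
def de (b : Bool) : I := if b then j else i

/-- The coordinate on the chart `b` of the blowup. -/
noncomputable def vv (t : T) (b : Bool) : K := M.x t (nu i j b) / M.x t (de i j b)

/-- The charts of the blowup. -/
noncomputable def bA (p : T × Bool) : Subalgebra k K := adj (M.A p.1) (vv M i j p.1 p.2)

/-- The divisors of the blowup. -/
noncomputable def bX (p : T × Bool) : Option I → K := bx (M.x p.1) (nu i j p.2) (de i j p.2)

lemma le_bA (p : T × Bool) : M.A p.1 ≤ bA M i j p := le_adj _ _

lemma vv_mem (p : T × Bool) : vv M i j p.1 p.2 ∈ bA M i j p := self_mem_adj _ _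

lemma nu_ne_de (hij : i ≠ j) (b : Bool) : nu i j b ≠ de i j b := by
  cases b
  · exact hij.symm
  · exact hij

lemma div_mem (p : T × Bool) (b : Bool) :
    M.x p.1 (de i j b) / M.x p.1 (de i j p.2) ∈ bA M i j p := by
  have h1 := M.x0 p.1 (de i j p.2)
  by_cases hb : b = p.2
  · rw [hb, div_self h1]
    exact (bA M i j p).one_mem
  · have h2 : de i j b = nu i j p.2 := by
      rcases p with ⟨t, b'⟩
      cases b <;> cases b' <;> simp_all [de, nu]
    rw [h2]
    exact vv_mem M i j p

lemma div_mem' (p : T × Bool) (b : Bool) :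
    M.x p.1 (nu i j b) / M.x p.1 (de i j p.2) ∈ bA M i j p := by
  have h2 : nu i j b = de i j (!b) := by cases b <;> rfl
  rw [h2]
  exact div_mem M i j p (!b)

lemma bX_mem (hij : i ≠ j) (p : T × Bool) (o : Option I) : bX M i j p o ∈ bA M i j p := by
  cases o with
  | none => exact le_bA M i j p (M.xA _ _)
  | some l =>
    simp only [bX, bx]
    split_ifs
    · exact vv_mem M i j p
    · exact (bA M i j p).one_mem
    · exact le_bA M i j p (M.xA _ _)

lemma bX_ne (p : T × Bool) (o : Option I) : bX M i j p o ≠ 0 := by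
  cases o with
  | none => exact M.x0 _ _
  | some l =>
    simp only [bX, bx]
    split_ifs
    · exact div_ne_zero (M.x0 _ _) (M.x0 _ _)
    · exact one_ne_zero
    · exact M.x0 _ _

lemma ft_bA (p : T × Bool) : Algebra.FiniteType k (bA M i j p) := ft_adj (M.ft p.1) _

lemma mo_bX (p : T × Bool) (l : I) : Mo (bA M i j p) (bX M i j p) (M.x p.1 l) := by
  by_cases hl : l = i ∨ l = j
  · have e : M.x p.1 l = bX M i j p (some l) * bX M i j p none := by
      have h6 := M.x0 p.1 (de i j p.2)
      simp only [bX, bx]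
      split_ifs with h4 h5
      · rw [h4]; field_simp
      · rw [one_mul, h5]
      · exfalso
        rcases p with ⟨t, b⟩
        cases b <;> rcases hl with rfl | rfl <;> simp_all [nu, de]
    rw [e]
    exact Mo.mul _ _ (Mo.gen _) (Mo.gen _)
  · push Not at hl
    have e : M.x p.1 l = bX M i j p (some l) := by
      have h4 : l ≠ nu i j p.2 := by unfold nu; split_ifs; exacts [hl.1, hl.2]
      have h5 : l ≠ de i j p.2 := by unfold de; split_ifs; exacts [hl.2, hl.1]
      simp only [bX, bx, if_neg h4, if_neg h5]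
    rw [e]
    exact Mo.gen _

/-- The homogeneous coordinates of the blowup. -/
noncomputable def bH (N : ℕ) (p : T × Bool) : K := M.H p.1 ^ N * M.x p.1 (de i j p.2)

variable {i j} in
/-- The blowup of the intersection of two components of the divisor. -/
theorem exists_blowup [Finite T] [Finite I] (hij : i ≠ j) : ∃ M' : LM 𝒱 R0 R (T × Bool) (Option I),
    M'.A = bA M i j ∧ M'.x = bX M i j ∧
      ∃ N : ℕ, ∀ p : T × Bool, M'.H p = M.H p.1 ^ N * M.x p.1 (de i j p.2) := by
  obtain ⟨N0, hN0⟩ := M.exists_N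
  let N : ℕ := 2 * N0 + 1
  have hN : ∀ p : T × Bool, bH M i j N p = M.H p.1 ^ N * M.x p.1 (de i j p.2) := fun p => rfl
  have hH0 : ∀ p : T × Bool, bH M i j N p ≠ 0 := fun p =>
    mul_ne_zero (pow_ne_zero _ (M.H0 _)) (M.x0 _ _)
  -- the basic ratios
  have hq : ∀ (p p' : T × Bool) (n : ℕ), N0 ≤ n →
      (M.H p'.1 / M.H p.1) ^ n * (M.x p'.1 (de i j p'.2) / M.x p.1 (de i j p.2)) ∈
        bA M i j p := by
    intro p p' n hn
    have h1 : (M.H p'.1 / M.H p.1) ^ n * (M.x p'.1 (de i j p'.2) / M.x p.1 (de i j p.2)) =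
        (M.H p'.1 / M.H p.1) ^ n * (M.x p'.1 (de i j p'.2) / M.x p.1 (de i j p'.2)) *
        (M.x p.1 (de i j p'.2) / M.x p.1 (de i j p.2)) := by
      have := M.x0 p.1 (de i j p'.2)
      field_simp
    rw [h1]
    exact (bA M i j p).mul_mem (le_bA M i j p (hN0 n hn _ _ _)) (div_mem M i j p p'.2)
  have hρ : ∀ p p' : T × Bool, bH M i j N p' / bH M i j N p =
      (M.H p'.1 / M.H p.1) * ((M.H p'.1 / M.H p.1) ^ (2 * N0) *
        (M.x p'.1 (de i j p'.2) / M.x p.1 (de i j p.2))) := by
    intro p p'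
    rw [hN, hN, show N = 2 * N0 + 1 from rfl, pow_succ, pow_succ]
    have h1 := M.H0 p.1
    have h2 := M.x0 p.1 (de i j p.2)
    rw [div_pow]
    field_simp
  have hρmem : ∀ p p' : T × Bool, bH M i j N p' / bH M i j N p ∈ bA M i j p := by
    intro p p'
    rw [hρ]
    exact (bA M i j p).mul_mem (le_bA M i j p (M.rt _ _)) (hq p p' _ (by omega))
  have hgl : ∀ p p' : T × Bool, ∀ f ∈ bA M i j p', ∃ n : ℕ,
      (bH M i j N p' / bH M i j N p) ^ n * f ∈ bA M i j p := by
    intro p p' f hf
    refine adj_induction (M.A p'.1) (vv M i j p'.1 p'.2)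
      (p := fun f => ∃ n : ℕ, (bH M i j N p' / bH M i j N p) ^ n * f ∈ bA M i j p) ?_ ?_ ?_ f hf
    · intro a ha
      obtain ⟨n, hn⟩ := M.gl p.1 p'.1 a ha
      refine ⟨n, ?_⟩
      rw [hρ, mul_pow, mul_right_comm]
      exact (bA M i j p).mul_mem (le_bA M i j p hn) ((bA M i j p).pow_mem (hq p p' _ (by omega)) n)
    · rintro a b ⟨n, hn⟩ ⟨m, hm⟩
      refine ⟨n + m, ?_⟩
      have h1 : (bH M i j N p' / bH M i j N p) ^ (n + m) * (a + b) =
          (bH M i j N p' / bH M i j N p) ^ m * ((bH M i j N p' / bH M i j N p) ^ n * a) +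
          (bH M i j N p' / bH M i j N p) ^ n * ((bH M i j N p' / bH M i j N p) ^ m * b) := by
        ring
      rw [h1]
      exact (bA M i j p).add_mem
        ((bA M i j p).mul_mem ((bA M i j p).pow_mem (hρmem p p') m) hn)
        ((bA M i j p).mul_mem ((bA M i j p).pow_mem (hρmem p p') n) hm)
    · rintro a ⟨n, hn⟩
      refine ⟨n + 1, ?_⟩
      have h1 : (bH M i j N p' / bH M i j N p) ^ (n + 1) * (a * vv M i j p'.1 p'.2) =
          (bH M i j N p' / bH M i j N p) ^ n * a *
          (bH M i j N p' / bH M i j N p * vv M i j p'.1 p'.2) := by ring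
      rw [h1]
      refine (bA M i j p).mul_mem hn ?_
      have h2 : bH M i j N p' / bH M i j N p * vv M i j p'.1 p'.2 =
          ((M.H p'.1 / M.H p.1) ^ N * (M.x p'.1 (nu i j p'.2) / M.x p.1 (nu i j p'.2))) *
            (M.x p.1 (nu i j p'.2) / M.x p.1 (de i j p.2)) := by
        rw [hN, hN, vv]
        have h1 := M.H0 p.1
        have h2 := M.x0 p.1 (de i j p.2)
        have h3 := M.x0 p.1 (nu i j p'.2)
        have h4 := M.x0 p'.1 (de i j p'.2)
        rw [div_pow]
        field_simp
      rw [h2]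
      exact (bA M i j p).mul_mem (le_bA M i j p (hN0 N (by omega) _ _ _))
        (div_mem' M i j p p'.2)
  refine ⟨{ ne := M.ne, A := bA M i j, H := bH M i j N, x := bX M i j, ft := ft_bA M i j,
            base := fun p => (M.base p.1).trans (le_bA M i j p), H0 := hH0,
            rt := hρmem, gl := hgl, q := ?_, cv := ?_, xA := bX_mem M i j hij,
            x0 := bX_ne M i j, gi := ?_, rg := ?_ }, rfl, rfl, N, fun p => rfl⟩
  · -- denominators
    intro p
    have hval : ∀ l, Mo (bA M i j p) (bX M i j p) (M.x p.1 l) := mo_bX M i j p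
    refine (M.q p.1).adj hval ?_
    change Qf R (bA M i j p) (bX M i j p) (vv M i j p.1 p.2)
    have h1 : ∀ l, Qf R (bA M i j p) (bX M i j p) (M.x p.1 l) := fun l =>
      Qf.mono (le_bA M i j p) hval (M.q p.1 _ (M.xA p.1 l))
    rw [vv, div_eq_mul_inv]
    exact (h1 _).mul ((h1 _).inv (M.x0 _ _) (hval _))
  · -- covering
    intro V hV
    obtain ⟨t, ht⟩ := M.cv V hV
    have h1 : ∀ b : Bool, vv M i j t b ∈ V → ∀ f ∈ bA M i j (t, b), f ∈ V := by
      intro b hb
      exact adj_induction (M.A t) (vv M i j t b) ht (fun a b ha hb => V.add_mem _ _ ha hb)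
        (fun a ha => V.mul_mem _ _ ha hb)
    rcases V.mem_or_inv_mem (vv M i j t true) with h | h
    · exact ⟨(t, true), h1 true h⟩
    · refine ⟨(t, false), h1 false ?_⟩
      have : vv M i j t false = (vv M i j t true)⁻¹ := by
        simp only [vv, nu, de]
        simp
      rw [this]
      exact h
  · -- gluing of the divisors
    rintro p p' (_ | l)
    · refine ⟨1, ?_⟩
      have h1 : (bH M i j N p' / bH M i j N p) ^ 1 * (bX M i j p' none / bX M i j p none) =
          (M.H p'.1 / M.H p.1) *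
          ((M.H p'.1 / M.H p.1) ^ N0 * (M.x p'.1 (de i j p'.2) / M.x p.1 (de i j p.2))) ^ 2 := by
        rw [pow_one, hρ]
        simp only [bX, bx]
        rw [mul_pow, ← pow_mul, mul_comm N0 2]
        ring
      rw [h1]
      exact (bA M i j p).mul_mem (le_bA M i j p (M.rt _ _))
        ((bA M i j p).pow_mem (hq p p' _ le_rfl) 2)
    · -- the strict transforms
      have hother : (l ≠ i ∧ l ≠ j) → ∃ n : ℕ,
          (bH M i j N p' / bH M i j N p) ^ n * (bX M i j p' (some l) / bX M i j p (some l)) ∈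
          bA M i j p := by
        rintro ⟨h1, h2⟩
        have h3 : ∀ p : T × Bool, bX M i j p (some l) = M.x p.1 l := by
          intro p
          have h4 : l ≠ nu i j p.2 := by unfold nu; split_ifs <;> assumption
          have h5 : l ≠ de i j p.2 := by unfold de; split_ifs <;> assumption
          simp only [bX, bx, if_neg h4, if_neg h5]
        refine ⟨N0, ?_⟩
        rw [h3, h3, hρ, mul_pow, mul_right_comm]
        exact (bA M i j p).mul_mem (le_bA M i j p (hN0 N0 le_rfl _ _ _))
          ((bA M i j p).pow_mem (hq p p' _ (by omega)) N0)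
      -- the value on the two charts
      have hval : ∀ p : T × Bool, (l = i ∨ l = j) →
          bX M i j p (some l) * bX M i j p none = M.x p.1 l := by
        intro p hl
        have h6 := M.x0 p.1 (de i j p.2)
        simp only [bX, bx]
        split_ifs with h4 h5
        · rw [h4]; field_simp
        · rw [one_mul, h5]
        · exfalso
          rcases p with ⟨t, b⟩
          cases b <;> rcases hl with rfl | rfl <;> simp_all [nu, de]
      by_cases hl : l = i ∨ l = j
      · refine ⟨1, ?_⟩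
        have h1 : (bH M i j N p' / bH M i j N p) ^ 1 *
            (bX M i j p' (some l) / bX M i j p (some l)) =
            (M.H p'.1 / M.H p.1) ^ N * (M.x p'.1 l / M.x p.1 l) := by
          rw [← hval p hl, ← hval p' hl, pow_one, hN, hN]
          have e1 : ∀ p : T × Bool, bX M i j p none = M.x p.1 (de i j p.2) := fun p => rfl
          rw [e1, e1]
          have h1 := M.H0 p.1
          have h2 := M.x0 p.1 (de i j p.2)
          have h3 := bX_ne M i j p (some l)
          have h4 := M.x0 p'.1 (de i j p'.2)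
          rw [div_pow]
          field_simp
        rw [h1]
        exact le_bA M i j p (hN0 N (by omega) _ _ _)
      · push Not at hl
        exact hother hl
  · intro p
    have h1 := (M.rg p.1).blow (nu_ne_de i j hij p.2)
    rw [← adj_toSubring (M.A p.1)] at h1
    exact h1

end blowup

end Pool.Agent.N98.RW
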