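import Pool.Agent.N98.RW.Ext

set_option autoImplicit false
set_option linter.unusedVariables false
set_option linter.unusedSimpArgs false
set_option linter.unusedSectionVars false

universe u v

open Polynomial

namespace Pool.Agent.N98.RW

open Pool.Agent.N98.RV

section wt

variable {k K : Type u} [CommRing k] [Field K] [Algebra k K]
  {𝒱 : Set (ValuationSubring K)} {R0 R : Subalgebra k K}
    {T I : Type} {G : Type}

/-- The weight of a pair. -/
def wt (c : I → ℤ) (p : I × I) : ℕ := (c p.1).toNat * (- c p.2).toNat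

lemma wt_pos {c : I → ℤ} {p : I × I} : 0 < wt c p ↔ 0 < c p.1 ∧ c p.2 < 0 := by
  unfold wt
  rw [CanonicallyOrderedAdd.mul_pos]
  omega

lemma wt_int {c : I → ℤ} {p : I × I} (h : 0 < wt c p) : (wt c p : ℤ) = c p.1 * (- c p.2) := by
  obtain ⟨h1, h2⟩ := wt_pos.1 h
  unfold wt
  rw [Nat.cast_mul, Int.toNat_of_nonneg h1.le, Int.toNat_of_nonneg (by omega)]

/-- The bad pairs. -/
def Bad (M : LM 𝒱 R0 R T I) (c : I → ℤ) (p : I × I) : Prop := 0 < wt c p ∧ ¬ Sep M p.1 p.2

/-- The difference of the exponents. -/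
def dc (Γ : G → I → ℤ) (a b : G) (l : I) : ℤ := Γ a l - Γ b l

lemma dc_blowup (i j : I) (Γ : G → I → ℤ) (a b : G) :
    dc (fun a => bΓ i j (Γ a)) a b none = dc Γ a b i + dc Γ a b j ∧
    ∀ l, dc (fun a => bΓ i j (Γ a)) a b (some l) = dc Γ a b l := by
  constructor
  · simp only [dc, bΓ]; ring
  · intro l; rfl

lemma bad_blowup [Fintype I] [DecidableEq I] (M : LM 𝒱 R0 R T I) {i j : I} (hij : i ≠ j)
    (M' : LM 𝒱 R0 R (T × Bool) (Option I)) (hA : M'.A = bA M i j) (hx : M'.x = bX M i j)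
    (c : I → ℤ) (c' : Option I → ℤ) (hc' : c' none = c i + c j) (hc : ∀ l, c' (some l) = c l)
    (W : ℕ) (hW : ∀ p, Bad M c p → wt c p ≤ W) (hbad : Bad M c (i, j)) :
    ∀ q, Bad M' c' q → wt c' q < W ∨ ∃ l l', q = (some l, some l') ∧ Bad M c (l, l') ∧
      wt c (l, l') = wt c' q ∧ (l, l') ≠ (i, j) := by
  obtain ⟨s1, s2, s3, s4⟩ := sep_blowup M hij M' hA hx
  obtain ⟨hi, hj⟩ := wt_pos.1 hbad.1
  rintro ⟨_ | l, _ | l'⟩ ⟨h1, h2⟩
  · obtain ⟨h3, h4⟩ := wt_pos.1 h1
    simp only at h3 h4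
    omega
  · left
    obtain ⟨h3, h4⟩ := wt_pos.1 h1
    simp only [hc, hc'] at h3 h4 hi hj
    have h5 : ¬ Sep M i l' := fun h => h2 (s3 _ h)
    have h6 : 0 < wt c (i, l') := wt_pos.2 ⟨hi, h4⟩
    have h7 := hW _ ⟨h6, h5⟩
    have h8 := wt_int h6
    have h9 := wt_int h1
    simp only [hc, hc'] at h8 h9
    have : (wt c' (none, some l') : ℤ) < wt c (i, l') := by
      rw [h8, h9]
      nlinarith
    omega
  · left
    obtain ⟨h3, h4⟩ := wt_pos.1 h1
    simp only [hc, hc'] at h3 h4 hi hj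
    have h5 : ¬ Sep M l j := fun h => h2 (s4 _ h.symm).symm
    have h6 : 0 < wt c (l, j) := wt_pos.2 ⟨h3, hj⟩
    have h7 := hW _ ⟨h6, h5⟩
    have h8 := wt_int h6
    have h9 := wt_int h1
    simp only [hc, hc'] at h8 h9
    have : (wt c' (some l, none) : ℤ) < wt c (l, j) := by
      rw [h8, h9]
      nlinarith
    omega
  · right
    have e : wt c (l, l') = wt c' (some l, some l') := by
      unfold wt
      simp only [hc]
    refine ⟨l, l', rfl, ⟨by rw [e]; exact h1, fun h => h2 (s2 _ _ h)⟩, e, ?_⟩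
    rintro h
    obtain ⟨rfl, rfl⟩ := Prod.mk.inj h
    exact h2 s1

/-- If there are no bad pairs then the functions become comparable after a refinement. -/
lemma cmp_of_no_bad [Finite T] [Fintype I] [DecidableEq I] (g : G → K) (a b : G)
    (M : LM 𝒱 R0 R T I) (Γ : G → I → ℤ) (h : ∀ p, ¬ Bad M (dc Γ a b) p) :
    ∃ (T' I' : Type) (_ : Finite T') (_ : Fintype I') (_ : DecidableEq I')
      (M' : LM 𝒱 R0 R T' I') (Γ' : G → I' → ℤ), Ext g M Γ M' Γ' ∧ Cmp M' Γ' a b := by
  classical
  let s : Bool → Finset I := fun e =>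
    if e then Finset.univ.filter (fun l => dc Γ a b l < 0) else
      Finset.univ.filter (fun l => 0 < dc Γ a b l)
  let h' : T → Bool → K := fun t e => ∏ l ∈ s e, M.x t l
  have hmem : ∀ t e, h' t e ∈ M.A t := fun t e => (M.A t).prod_mem fun l _ => M.xA t l
  have hne : ∀ t e, h' t e ≠ 0 := fun t e => Finset.prod_ne_zero_iff.2 fun l _ => M.x0 t l
  have hcop : ∀ t, ∃ α ∈ M.A t, ∃ β ∈ M.A t, α * h' t true + β * h' t false = 1 := by
    intro t
    have key : IsCoprime (∏ l ∈ s true, (⟨M.x t l, M.xA t l⟩ : M.A t))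
        (∏ l ∈ s false, (⟨M.x t l, M.xA t l⟩ : M.A t)) := by
      refine IsCoprime.prod_left fun l hl => IsCoprime.prod_right fun m hm => ?_
      have hl' : dc Γ a b l < 0 := by simpa [s] using hl
      have hm' : 0 < dc Γ a b m := by simpa [s] using hm
      have h1 : Sep M m l := by
        by_contra h2
        exact h (m, l) ⟨wt_pos.2 ⟨hm', hl'⟩, h2⟩
      obtain ⟨α, hα, β, hβ, h3⟩ := h1.symm t
      exact ⟨⟨α, hα⟩, ⟨β, hβ⟩, Subtype.ext h3⟩
    obtain ⟨α, β, hαβ⟩ := key
    refine ⟨α, α.2, β, β.2, ?_⟩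
    have := congrArg (Subtype.val : M.A t → K) hαβ
    simpa [h'] using this
  obtain ⟨M', hA, hx, hH⟩ := exists_refine M h' hmem hne (by
    intro t V hV
    obtain ⟨α, hα, β, hβ, h1⟩ := hcop t
    have hV1 : h' t true ∈ V := hV _ (hmem _ _)
    have hV2 : h' t false ∈ V := hV _ (hmem _ _)
    by_contra hcon
    push Not at hcon
    have h2 : ∀ e, V.valuation (h' t e) < 1 := by
      intro e
      have h3 : (h' t e)⁻¹ ∉ V := hcon e
      rw [← V.valuation_le_one_iff, map_inv₀, not_le] at h3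
      have h4 : V.valuation (h' t e) ≠ 0 := by
        rw [ne_eq, map_eq_zero]; exact hne t e
      exact (one_lt_inv₀ (zero_lt_iff.2 h4)).1 h3
    have h5 : V.valuation (α * h' t true + β * h' t false) < 1 := by
      refine Valuation.map_add_lt _ ?_ ?_
      · rw [map_mul]
        exact (mul_le_of_le_one_left' ((V.valuation_le_one_iff _).2 (hV _ hα))).trans_lt (h2 _)
      · rw [map_mul]
        exact (mul_le_of_le_one_left' ((V.valuation_le_one_iff _).2 (hV _ hβ))).trans_lt (h2 _)
    rw [h1, map_one] at h5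
    exact lt_irrefl _ h5)
  refine ⟨T × Bool, I, inferInstance, inferInstance, inferInstance, M', Γ, ?_, ?_⟩
  · refine ext_refine M h' hmem hne ?_ g Γ M' hA hx hH
    intro F hF t e
    have : ∀ s : Finset I, ∃ n : ℕ, F ^ n / ∏ l ∈ s, M.x t l ∈ M.A t := by
      intro s
      induction s using Finset.induction_on with
      | empty => exact ⟨0, by simp⟩
      | insert l s hl ih =>
        obtain ⟨n, hn⟩ := ih
        obtain ⟨m, hm⟩ := hF.Fx t l
        refine ⟨m + n, ?_⟩
        rw [Finset.prod_insert hl, pow_add, mul_div_mul_comm]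
        exact (M.A t).mul_mem hm hn
    exact this _
  · rintro ⟨t, e⟩
    rw [hA, hx]
    have hu : ∀ l ∈ s e, (M.x t l)⁻¹ ∈ rA M h' (t, e) := by
      intro l hl
      have h1 : (M.x t l)⁻¹ = (∏ m ∈ (s e).erase l, M.x t m) * (h' t e)⁻¹ := by
        have h2 : h' t e = M.x t l * ∏ m ∈ (s e).erase l, M.x t m :=
          (Finset.mul_prod_erase _ _ hl).symm
        rw [h2]
        have h3 := M.x0 t l
        have h4 : ∏ m ∈ (s e).erase l, M.x t m ≠ 0 :=
          Finset.prod_ne_zero_iff.2 fun l _ => M.x0 t l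
        field_simp
      rw [h1]
      exact (rA M h' (t, e)).mul_mem
        (le_rA M h' (t, e) ((M.A t).prod_mem fun m _ => M.xA t m)) (inv_mem_rA M h' (t, e))
    cases e
    · -- the divisors with positive exponent are units
      left
      intro l
      by_cases hl : 0 < dc Γ a b l
      · right
        exact hu l (by simpa [s] using hl)
      · left
        simp only [dc] at hl
        omega
    · right
      intro l
      by_cases hl : dc Γ a b l < 0
      · right
        exact hu l (by simpa [s] using hl)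
      · left
        simp only [dc] at hl
        omega

theorem princ_aux (g : G → K) (a b : G) : ∀ (W n : ℕ) {T I : Type} [Finite T] [Fintype I]
    [DecidableEq I] (M : LM 𝒱 R0 R T I) (Γ : G → I → ℤ),
    (∀ p, Bad M (dc Γ a b) p → wt (dc Γ a b) p ≤ W) →
    {p | Bad M (dc Γ a b) p ∧ wt (dc Γ a b) p = W}.ncard ≤ n →
    ∃ (T' I' : Type) (_ : Finite T') (_ : Fintype I') (_ : DecidableEq I')
      (M' : LM 𝒱 R0 R T' I') (Γ' : G → I' → ℤ), Ext g M Γ M' Γ' ∧ Cmp M' Γ' a b := by
  intro W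
  induction W with
  | zero =>
    intro n T I _ _ _ M Γ hW hn
    refine cmp_of_no_bad g a b M Γ ?_
    intro p hp
    have := hW p hp
    have := hp.1
    omega
  | succ W ihW =>
    intro n
    induction n with
    | zero =>
      intro T I _ _ _ M Γ hW hn
      refine ihW _ M Γ ?_ le_rfl
      intro p hp
      have h1 := hW p hp
      rcases h1.lt_or_eq with h2 | h2
      · omega
      · exfalso
        have h3 : {p | Bad M (dc Γ a b) p ∧ wt (dc Γ a b) p = W + 1} = ∅ := by
          rw [← Set.ncard_eq_zero (Set.toFinite _)]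
          omega
        have h4 : p ∈ {p | Bad M (dc Γ a b) p ∧ wt (dc Γ a b) p = W + 1} := ⟨hp, h2⟩
        rw [h3] at h4
        exact h4
    | succ n ihn =>
      intro T I _ _ _ M Γ hW hn
      by_cases hex : ∃ p, Bad M (dc Γ a b) p ∧ wt (dc Γ a b) p = W + 1
      · obtain ⟨⟨i, j⟩, hb, hwt⟩ := hex
        have hij : i ≠ j := by
          rintro rfl
          obtain ⟨h1, h2⟩ := wt_pos.1 hb.1
          simp only at h1 h2
          omega
        obtain ⟨M', hA, hx, hH⟩ := exists_blowup M hij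
        obtain ⟨hd1, hd2⟩ := dc_blowup i j Γ a b
        have key := bad_blowup M hij M' hA hx _ _ hd1 hd2 (W + 1) hW hb
        obtain ⟨T'', I'', i1, i2, i3, M'', Γ'', hE, hC⟩ := ihn M' (fun a => bΓ i j (Γ a)) (by
          intro q hq
          rcases key q hq with h1 | ⟨l, l', h1, h2, h3, h4⟩
          · exact h1.le
          · rw [← h3]
            exact hW _ h2) (by
          have h5 : {q | Bad M' (dc (fun a => bΓ i j (Γ a)) a b) q ∧
              wt (dc (fun a => bΓ i j (Γ a)) a b) q = W + 1} ⊆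
              (fun q : I × I => (some q.1, some q.2)) ''
                ({p | Bad M (dc Γ a b) p ∧ wt (dc Γ a b) p = W + 1} \ {(i, j)}) := by
            rintro q ⟨hq, hq'⟩
            rcases key q hq with h1 | ⟨l, l', h1, h2, h3, h4⟩
            · omega
            · exact ⟨(l, l'), ⟨⟨h2, by rw [h3, hq']⟩, h4⟩, h1.symm⟩
          have h6 := Set.ncard_le_ncard h5 (Set.toFinite _)
          have h7 := Set.ncard_image_le (f := fun q : I × I => (some q.1, some q.2))
            (s := {p | Bad M (dc Γ a b) p ∧ wt (dc Γ a b) p = W + 1} \ {(i, j)}) (Set.toFinite _)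
          have h8 := Set.ncard_sdiff_singleton_lt_of_mem
            (s := {p | Bad M (dc Γ a b) p ∧ wt (dc Γ a b) p = W + 1}) (a := (i, j)) ⟨hb, hwt⟩
            (Set.toFinite _)
          omega)
        exact ⟨T'', I'', i1, i2, i3, M'', Γ'', (ext_blowup M hij g Γ M' hA hx hH).trans hE, hC⟩
      · refine ihW _ M Γ ?_ le_rfl
        intro p hp
        have h1 := hW p hp
        rcases h1.lt_or_eq with h2 | h2
        · omega
        · exact absurd ⟨p, hp, h2⟩ hex

theorem princ_pair (g : G → K) (a b : G) [Finite T] [Fintype I] [DecidableEq I]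
    (M : LM 𝒱 R0 R T I) (Γ : G → I → ℤ) :
    ∃ (T' I' : Type) (_ : Finite T') (_ : Fintype I') (_ : DecidableEq I')
      (M' : LM 𝒱 R0 R T' I') (Γ' : G → I' → ℤ), Ext g M Γ M' Γ' ∧ Cmp M' Γ' a b := by
  refine princ_aux g a b (Finset.univ.sup (wt (dc Γ a b))) _ M Γ ?_ le_rfl
  intro p _
  exact Finset.le_sup (Finset.mem_univ p)

/-- Principalization. -/
theorem princ_all (g : G → K) [Finite G] [Finite T] [Fintype I] [DecidableEq I]
    (M : LM 𝒱 R0 R T I) (Γ : G → I → ℤ) :
    ∃ (T' I' : Type) (_ : Finite T') (_ : Fintype I') (_ : DecidableEq I')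
      (M' : LM 𝒱 R0 R T' I') (Γ' : G → I' → ℤ), Ext g M Γ M' Γ' ∧ ∀ a b, Cmp M' Γ' a b := by
  classical
  have : Fintype G := Fintype.ofFinite G
  have key : ∀ s : Finset (G × G), ∃ (T' I' : Type) (_ : Finite T') (_ : Fintype I')
      (_ : DecidableEq I') (M' : LM 𝒱 R0 R T' I') (Γ' : G → I' → ℤ), Ext g M Γ M' Γ' ∧
        ∀ p ∈ s, Cmp M' Γ' p.1 p.2 := by
    intro s
    induction s using Finset.induction_on with
    | empty =>
      exact ⟨T, I, inferInstance, inferInstance, inferInstance, M, Γ, Ext.refl g M Γ, by simp⟩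
    | insert q s hq ih =>
      obtain ⟨T1, I1, i1, i2, i3, M1, Γ1, hE1, hC1⟩ := ih
      obtain ⟨T2, I2, j1, j2, j3, M2, Γ2, hE2, hC2⟩ := princ_pair g q.1 q.2 M1 Γ1
      refine ⟨T2, I2, j1, j2, j3, M2, Γ2, hE1.trans hE2, ?_⟩
      intro p hp
      rcases Finset.mem_insert.1 hp with rfl | hp
      · exact hC2
      · exact hE2.cmp _ _ (hC1 p hp)
  obtain ⟨T', I', i1, i2, i3, M', Γ', hE, hC⟩ := key Finset.univ
  exact ⟨T', I', i1, i2, i3, M', Γ', hE, fun a b => hC (a, b) (Finset.mem_univ _)⟩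

end wt

end Pool.Agent.N98.RW
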