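import Pool.Agent.N98.RW.HasRM
import Pool.Agent.N98.RW.RelF
import Pool.Agent.N98.RV.FamLow

/-!
Models with a single chart.
-/

set_option autoImplicit false
set_option linter.unusedVariables false
set_option linter.unusedSectionVars false

universe u

namespace Pool.Agent.N98.RW

open Pool.Agent.N98.RV

open Pool.Agent.W418.LU2

variable {k E : Type u} [CommRing k] [Field E] [Algebra k E]

/-- The model with a single chart. -/
noncomputable def singleLM {I : Type}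
    {x : I → E} (hx : RegC (⊥ : Subalgebra k E).toSubring x) {V : ValuationSubring E}
    (hV : ∀ a ∈ (⊥ : Subalgebra k E), a ∈ V) :
    LM ({V} : Set (ValuationSubring E)) (⊥ : Subalgebra k E) ⊥ Unit I where
  ne := ⟨V, rfl⟩
  A := fun _ => ⊥
  H := fun _ => 1
  x := fun _ => x
  ft := fun _ => (Subalgebra.fg_iff_finiteType _).1 Subalgebra.fg_bot
  base := fun _ => bot_le
  H0 := fun _ => one_ne_zero
  rt := fun _ _ => by rw [div_one]; exact (⊥ : Subalgebra k E).one_mem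
  gl := fun _ _ f hf => ⟨0, by simpa using hf⟩
  q := fun _ f hf => ⟨1, (⊥ : Subalgebra k E).one_mem, Mo.one, by rwa [mul_one]⟩
  cv := fun W hW => ⟨(), fun f hf => by rw [Set.mem_singleton_iff.1 hW]; exact hV f hf⟩
  xA := fun _ i => hx.mem i
  x0 := fun _ i => hx.ne i
  gi := fun _ _ i => ⟨0, by
    rw [pow_zero, one_mul, div_self (hx.ne i)]; exact (⊥ : Subalgebra k E).one_mem⟩
  rg := fun _ => hx

/-- A single ring. -/
lemma hasF_aux {𝒮 : Set (Subring E × Set E)} {V : ValuationSubring E}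
    (h : ∀ (H : Type) [Fintype H] (f : H → E), (∀ t, f t ≠ 0) →
      ∃ (P : Subring E) (Θ : Set E) (I : Type) (_ : Fintype I) (X : I → E), (P, Θ) ∈ 𝒮 ∧
        (∀ a ∈ P, a ∈ V) ∧
        RegC P X ∧ (∀ e : E, ∃ a ∈ P, ∃ b ∈ P, b ≠ 0 ∧ e = a * b⁻¹) ∧ (∀ t, f t ∈ Θ) ∧
        ∀ e ∈ Θ, ∃ u, u ≠ 0 ∧ u ∈ P ∧ u⁻¹ ∈ P ∧ ∃ γ : I → ℤ, e = u * ∏ i, X i ^ γ i) :
    HasF 𝒮 ({V} : Set (ValuationSubring E)) := by
  intro H _ f hf
  obtain ⟨P, Θ, I, hI, X, hP, hPV, hreg, hfr, hfΘ, hmon⟩ := h H f hf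
  have hb := bot_toSubring P
  have hbm : ∀ y, y ∈ (⊥ : Subalgebra P E) ↔ y ∈ P := by
    intro y
    rw [← Subalgebra.mem_toSubring, hb]
  have hreg' : RegC (⊥ : Subalgebra P E).toSubring X := by rwa [hb]
  refine ⟨P, Θ, hP, Unit, I, inferInstance, hI,
    singleLM hreg' (V := V) fun a ha => hPV a ((hbm a).1 ha), hfΘ, ?_, ?_⟩
  · intro e he
    obtain ⟨u, hu0, hu, hui, γ, e1⟩ := hmon e he
    exact ⟨γ, fun _ => ⟨u, hu0, (hbm _).2 hu, (hbm _).2 hui, e1⟩⟩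
  · rintro - y
    obtain ⟨a, ha, b, hb, hb0, e⟩ := hfr y
    exact ⟨a, (hbm _).2 ha, b, (hbm _).2 hb, hb0, e⟩

end Pool.Agent.N98.RW
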