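import Pool.Agent.N98.RW.Loc

/-!
Adding the divisor of a polynomial over a base with known logarithmic derivations.
-/

set_option autoImplicit false
set_option linter.unusedVariables false
set_option linter.unusedSimpArgs false
set_option linter.unusedSectionVars false

universe u

open Polynomial Pool.Agent.W418.LU2

namespace Pool.Agent.N98.RW

open Pool.Agent.N98.RV

section mu

variable {k L K : Type u} [CommRing k] [Field L] [Field K] [Algebra k L] [Algebra k K] [Algebra L K]
  [IsScalarTower k L K]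

/-- The derivation `φ ∂`. -/
noncomputable def th (k : Type u) {L K : Type u} [CommRing k] [Field L] [Field K] [Algebra k L]
    [Algebra k K] [Algebra L K] [IsScalarTower k L K] (D : Derivation L K K) (φ : K) :
    Derivation k K K := φ • D.restrictScalars k

lemma th_apply (D : Derivation L K K) (φ a : K) : th k D φ a = φ * D a := rfl

lemma D_aeval {D : Derivation L K K} {z : K} (hD : D z = 1) (P : L[X]) :
    D (aeval z P) = aeval z (derivative P) := by
  rw [Derivation.comp_aeval_eq, hD, smul_eq_mul, mul_one]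

lemma derivative_hasse (P : L[X]) (j : ℕ) :
    derivative (hasseDeriv j P) = ((j + 1 : ℕ) : L[X]) * hasseDeriv (j + 1) P := by
  have h1 := LinearMap.congr_fun (hasseDeriv_comp (R := L) 1 j) P
  rw [LinearMap.comp_apply, hasseDeriv_one'] at h1
  rw [h1, LinearMap.smul_apply, Nat.choose_one_right, nsmul_eq_mul, add_comm 1 j]

/-- The Taylor coefficients of `G` in the direction `φ ∂` are divisible by the first one. -/
lemma mu_mem {D : Derivation L K K} {z : K} (hD : D z = 1) {A : Subalgebra k K} {φ : K}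
    (hφ : φ ≠ 0) (G : L[X]) (hG' : aeval z (derivative G) ≠ 0)
    (hA : ∀ f ∈ A, th k D φ f ∈ A) (hl : th k D φ φ / φ ∈ A)
    (hm : th k D φ (φ * aeval z (derivative G)) / (φ * aeval z (derivative G)) ∈ A)
    (hdeg : ∀ j, 1 ≤ j → j ≤ G.natDegree → IsUnit (j : k)) :
    ∀ j, 1 ≤ j → φ ^ j * aeval z (hasseDeriv j G) / (φ * aeval z (derivative G)) ∈ A := by
  have hμ0 : φ * aeval z (derivative G) ≠ 0 := mul_ne_zero hφ hG'
  intro j hj
  induction j, hj using Nat.le_induction with
  | base =>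
    rw [pow_one, hasseDeriv_one', div_self hμ0]
    exact A.one_mem
  | succ j hj ih =>
    by_cases hd : j + 1 ≤ G.natDegree
    · set μ := φ * aeval z (derivative G) with hμ
      set a := φ ^ j * aeval z (hasseDeriv j G) / μ with ha
      have e1 : φ ^ j * aeval z (hasseDeriv j G) = a * μ := by
        rw [ha, div_mul_cancel₀ _ hμ0]
      have e2 : th k D φ (φ ^ j * aeval z (hasseDeriv j G)) =
          (j : K) * (th k D φ φ / φ) * (a * μ) +
          ((j + 1 : ℕ) : K) * (φ ^ (j + 1) * aeval z (hasseDeriv (j + 1) G)) := by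
        rw [Derivation.leibniz, Derivation.leibniz_pow, th_apply, th_apply, D_aeval hD,
          derivative_hasse, map_mul, map_natCast, ← e1]
        simp only [smul_eq_mul, nsmul_eq_mul]
        obtain ⟨n, rfl⟩ : ∃ n, j = n + 1 := ⟨j - 1, by omega⟩
        rw [Nat.add_sub_cancel]
        push_cast
        field_simp
        ring
      have e3 : th k D φ (a * μ) = (th k D φ a + a * (th k D φ μ / μ)) * μ := by
        rw [Derivation.leibniz]
        simp only [smul_eq_mul]
        field_simp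
        ring
      have e4 : ((j + 1 : ℕ) : K) * (φ ^ (j + 1) * aeval z (hasseDeriv (j + 1) G) / μ) =
          th k D φ a + a * (th k D φ μ / μ) - (j : K) * (th k D φ φ / φ) * a := by
        rw [e1, e3] at e2
        have e5 : ((j + 1 : ℕ) : K) * (φ ^ (j + 1) * aeval z (hasseDeriv (j + 1) G)) =
            (th k D φ a + a * (th k D φ μ / μ) - (j : K) * (th k D φ φ / φ) * a) * μ := by
          linear_combination -e2
        rw [← mul_div_assoc, e5, mul_div_cancel_right₀ _ hμ0]
      refine mem_of_natCast_mul (N := j + 1) (hdeg _ (by omega) hd) ?_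
      rw [e4]
      refine A.sub_mem (A.add_mem (hA _ ih) (A.mul_mem ih hm)) (A.mul_mem (A.mul_mem ?_ hl) ih)
      have : ((j : ℕ) : K) = algebraMap k K j := by simp
      rw [this]
      exact A.algebraMap_mem _
    · have h0 : hasseDeriv (j + 1) G = 0 := hasseDeriv_eq_zero_of_lt_natDegree _ _ (by omega)
      rw [h0, map_zero, mul_zero, zero_div]
      exact A.zero_mem

end mu

section good

variable {k L K : Type u} [CommRing k] [Field L] [Field K] [Algebra k L] [Algebra k K] [Algebra L K]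
  [IsScalarTower k L K] {𝒱 : Set (ValuationSubring K)} {R0 R : Subalgebra k K} {T0 I0 : Type}
  {B : Type}

/-- The functions `F b`, `b ∈ S`, are boundary functions, and each chart has a logarithmic
derivation of the form `F c (z) / F c' (z) ∂` with `c ∈ S`. -/
structure Good (M0 : LM 𝒱 R0 R T0 I0) (D : Derivation L K K) (z : K) (P : Set K) (F : B → L[X])
    (S : Set B) {T I : Type} [Fintype I] (M : LM 𝒱 R0 R T I) : Prop where
  br : ∀ b ∈ S, IsBr M (aeval z (F b))
  brP : ∀ g ∈ P, IsBr M g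
  cen : ∀ t, ∃ c ∈ S, 1 ≤ (F c).natDegree ∧ IsBr M (aeval z (derivative (F c))) ∧
    LDt M t (th k D (aeval z (F c) / aeval z (derivative (F c))))
  dom : ∀ t, ∃ t0, M0.A t0 ≤ M.A t

lemma eval_map' (z : K) (P : L[X]) : (P.map (algebraMap L K)).eval z = aeval z P := by
  rw [eval_map, aeval_def]

variable {T I : Type} [Finite T] [Fintype I]

/-- The step. -/
theorem exists_step [IsNoetherianRing k] [Finite B] {M0 : LM 𝒱 R0 R T0 I0} (hF0 : Frc M0) {D : Derivation L K K} {z : K}
    (hD : D z = 1) {P : Set K} {F : B → L[X]} {S : Set B} {M : LM 𝒱 R0 R T I}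
    (hM : Good M0 D z P F S M) (b : B) (hb0 : aeval z (F b) ≠ 0) (hb1 : 1 ≤ (F b).natDegree)
    (hb' : IsBr M (aeval z (derivative (F b)))) (Δ : ℕ) (hΔ : IsUnit ((Nat.factorial Δ : ℕ) : k))
    (hdeg : (F b).natDegree ≤ Δ)
    (hQ : ∀ c ∈ S, 1 ≤ (F c).natDegree → ∃ Q : L[X], Q ≠ 0 ∧ Q.natDegree ≤ Δ ∧
      F c ∣ Q.comp (F b) ∧ ∀ n, Q.coeff n ≠ 0 → algebraMap L K (Q.coeff n) ∈ P) :
    ∃ (T' I' : Type) (_ : Finite T') (_ : Fintype I') (M' : LM 𝒱 R0 R T' I'),
      Good M0 D z P F (insert b S) M' := by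
  classical
  have hfac : ∀ j, 1 ≤ j → j ≤ Δ → IsUnit (j : k) := by
    intro j hj hj'
    obtain ⟨m, hm⟩ := Nat.dvd_factorial (by omega) hj'
    rw [hm, Nat.cast_mul] at hΔ
    exact isUnit_of_mul_isUnit_left hΔ
  let G : K := aeval z (F b)
  let G' : K := aeval z (derivative (F b))
  let C : Type := {c : B // c ∈ S ∧ 1 ≤ (F c).natDegree ∧ IsBr M (aeval z (derivative (F c)))}
  have hC : Finite C := inferInstance
  let φ : C → K := fun c => aeval z (F c.1) / aeval z (derivative (F c.1))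
  have hφb : ∀ c, IsBr M (φ c) := fun c => (hM.br c.1 c.2.1).div c.2.2.2
  let μ : C → K := fun c => φ c * G'
  have hμb : ∀ c, IsBr M (μ c) := fun c => (hφb c).mul hb'
  choose Q hQ0 hQd hQF hQP using fun c : C => hQ c.1 c.2.1 c.2.2.1
  let q : C × Fin (Δ + 1) → K := fun x =>
    if (Q x.1).coeff x.2 ≠ 0 then algebraMap L K ((Q x.1).coeff x.2) else 1
  have hqb : ∀ x, IsBr M (q x) := by
    intro x
    by_cases h : (Q x.1).coeff x.2 ≠ 0
    · have : q x = algebraMap L K ((Q x.1).coeff x.2) := if_pos h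
      rw [this]
      exact hM.brP _ (hQP x.1 x.2 h)
    · have : q x = 1 := if_neg h
      rw [this]
      exact IsB.one.br
  obtain ⟨N1, hN1, hcom⟩ := exists_common (M := M) (g := Sum.elim q μ) (by
    rintro (x | c)
    · exact hqb x
    · exact hμb c)
  have hq1 : ∀ x, IsB M (q x ^ N1) := fun x => hcom (Sum.inl x)
  have hμ1 : ∀ c, IsB M (μ c ^ N1) := fun c => hcom (Sum.inr c)
  let N : ℕ := N1 * Nat.factorial Δ
  have hN : IsUnit (N : k) := by
    rw [Nat.cast_mul]
    exact hN1.mul hΔ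
  have hN0 : N ≠ 0 := ne_zero_of_isUnit (K := K) hN
  have hμN : ∀ c, IsB M (μ c ^ N) := fun c => (hμ1 c).pow_of_dvd (dvd_mul_right _ _)
  let ι : Type := C × Fin (Δ + 1) × Fin (Δ + 1)
  let m : ι → K := fun i => (q (i.1, i.2.1) / q (i.1, i.2.2)) ^
    (N1 * (Nat.factorial Δ / (i.2.2.val - i.2.1.val)))
  have hmb : ∀ i, IsB M (m i) := by
    intro i
    change IsB M ((q (i.1, i.2.1) / q (i.1, i.2.2)) ^
      (N1 * (Nat.factorial Δ / (i.2.2.val - i.2.1.val))))
    rw [pow_mul, div_pow]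
    exact ((hq1 _).div (hq1 _)).pow _
  -- principalization
  obtain ⟨T1, I1, hT1, hI1, M1, π1, hO1, hcmp⟩ := exists_princ (G := ι ⊕ C) M
    (Sum.elim m (fun c => μ c ^ N)) (by
      rintro (i | c)
      · exact hmb i
      · exact hμN c)
  have hFrc1 : Frc M1 := by
    intro t x
    obtain ⟨t0, ht0⟩ := hM.dom (π1 t)
    obtain ⟨a, ha, c, hc, hc0, hx⟩ := hF0 t0 x
    exact ⟨a, hO1.le t (ht0 ha), c, hO1.le t (ht0 hc), hc0, hx⟩
  have hcen : ∀ t : T1, ∃ c : C, LDt M1 t (th k D (φ c)) := by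
    intro t
    obtain ⟨c, hc, h1, h2, h3⟩ := hM.cen (π1 t)
    exact ⟨⟨c, hc, h1, h2⟩, hO1.ld t _ h3⟩
  choose c hc using hcen
  have hm0 : ∀ i, m i ≠ 0 := fun i => (hmb i).ne
  have hφ0 : ∀ c, φ c ≠ 0 := fun c => (hφb c).ne
  have hμ0 : ∀ c, μ c ≠ 0 := fun c => (hμb c).ne
  have hμj : ∀ t j, 1 ≤ j → φ (c t) ^ j * aeval z (hasseDeriv j (F b)) / μ (c t) ∈ M1.A t := by
    intro t
    refine mu_mem hD (hφ0 _) (F b) hb'.ne (hc t).1 ?_ ?_ ?_
    · exact (hO1.br (hφb _)).logD (hc t)
    · exact (hO1.br (hμb _)).logD (hc t)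
    · exact fun j hj hj' => hfac j hj (hj'.trans hdeg)
  -- the local dichotomy
  let QQ : T1 → K → Prop := fun t d =>
    (∃ i, (G ^ N / m i) * d ∈ M1.A t ∧ (m i / G ^ N) * d ∈ M1.A t) ∨
      (G / μ (c t)) * d ∈ M1.A t
  obtain ⟨J, hJ, d, M2, hO2, hx2, hdA, hd0, hdQ, hA2⟩ := exists_refine_local M1 QQ (by
    intro t 𝔪 h𝔪
    have := h𝔪.isPrime
    have hic := isIntegrallyClosedIn_ofPrime (M1.ft t) (M1.rg t) (hFrc1 t) 𝔪
    have hle := LocalSubring.le_ofPrime (M1.A t).toSubring 𝔪
    have key := dich_poly (R := LocalSubring.ofPrime (M1.A t).toSubring 𝔪) m hm0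
      ((F (c t).1).map (algebraMap L K)) ((F b).map (algebraMap L K))
      ((Q (c t)).map (algebraMap L K)) z (φ (c t)) (μ (c t)) N hN0 (hμ0 _)
      (fun i j => (hcmp t (Sum.inl j) (Sum.inl i)).imp (fun h => hle h) (fun h => hle h))
      (fun i => (hcmp t (Sum.inl i) (Sum.inr (c t))).imp (fun h => hle h) (fun h => hle h))
      (by rw [eval_map']; exact (hM.br _ (c t).2.1).ne)
      (by
        rw [derivative_map, eval_map', eval_map']
        exact div_mul_cancel₀ _ (c t).2.2.2.ne)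
      (by
        intro j hj
        rw [hasseDeriv_map', eval_map']
        exact hle (hμj t j hj))
      ((Polynomial.map_ne_zero_iff (algebraMap L K).injective).2 (hQ0 _))
      (by
        rw [← Polynomial.map_comp]
        exact Polynomial.map_dvd _ (hQF _))
      (by
        intro a b' hab hb''
        rw [natDegree_map] at hb''
        have h1 := hQd (c t)
        exact (Nat.dvd_factorial (by omega) (by omega)).trans (dvd_mul_left _ _))
      (by
        intro a b' hab hb'' ha0 hb0'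
        rw [natDegree_map] at hb''
        rw [coeff_map] at ha0 hb0'
        have h1 := hQd (c t)
        refine ⟨(c t, ⟨a, by omega⟩, ⟨b', by omega⟩), ?_⟩
        change (q (c t, ⟨a, _⟩) / q (c t, ⟨b', _⟩)) ^ (N1 * (Nat.factorial Δ / (b' - a))) = _
        have h2 : (Q (c t)).coeff a ≠ 0 := fun h => ha0 (by rw [h, map_zero])
        have h3 : (Q (c t)).coeff b' ≠ 0 := fun h => hb0' (by rw [h, map_zero])
        have h4 : q (c t, ⟨a, by omega⟩) = algebraMap L K ((Q (c t)).coeff a) := if_pos h2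
        have h5 : q (c t, ⟨b', by omega⟩) = algebraMap L K ((Q (c t)).coeff b') := if_pos h3
        rw [h4, h5, coeff_map, coeff_map]
        congr 1
        exact (Nat.mul_div_assoc _ (Nat.dvd_factorial (by omega) (by omega))).symm)
    rw [eval_map'] at key
    rcases key with ⟨i, hi1, hi2⟩ | hB
    · obtain ⟨d, hd, hd'⟩ := exists_denom (M1.A t).toSubring 𝔪 (Finset.univ : Finset Bool)
        (fun e => if e then G ^ N / m i else m i / G ^ N) (by
          intro e _
          cases e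
          · exact hi2
          · exact hi1)
      exact ⟨d, hd, Or.inl ⟨i, hd' true (Finset.mem_univ _), hd' false (Finset.mem_univ _)⟩⟩
    · obtain ⟨d, hd, hd'⟩ := exists_denom (M1.A t).toSubring 𝔪 (Finset.univ : Finset Unit)
        (fun e => G / μ (c t)) (fun e _ => hB)
      exact ⟨d, hd, Or.inr (hd' () (Finset.mem_univ _))⟩)
  have hG0 : G ≠ 0 := hb0
  have hGN : G ^ N ≠ 0 := pow_ne_zero _ hG0
  have hdi : ∀ (p : T1 × J) (f : K), f * d p.1 p.2 ∈ M1.A p.1 → f ∈ M2.A p := by
    intro p f hf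
    have e : f = f * d p.1 p.2 * (d p.1 p.2)⁻¹ := by
      rw [mul_assoc, mul_inv_cancel₀ (hd0 _ _), mul_one]
    rw [e, hA2]
    exact (adj (M1.A p.1) (d p.1 p.2)⁻¹).mul_mem (le_adj _ _ hf) (self_mem_adj _ _)
  have hdich : ∀ p : T1 × J, (∃ i, G ^ N / m i ∈ M2.A p ∧ m i / G ^ N ∈ M2.A p) ∨
      G / μ (c p.1) ∈ M2.A p := by
    intro p
    rcases hdQ p.1 p.2 with ⟨i, h1, h2⟩ | h1
    · exact Or.inl ⟨i, hdi p _ h1, hdi p _ h2⟩
    · exact Or.inr (hdi p _ h1)
  -- the exponents
  have hB2 : ∀ g, IsB M g → IsB M2 g := fun g hg => hO2.bf g (hO1.bf g hg)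
  choose γm hγm using fun i => hB2 _ (hmb i)
  choose γμ hγμ using fun c => hB2 _ (hμN c)
  let ty : T1 × J → Prop := fun p => G / μ (c p.1) ∈ M2.A p
  have hnty : ∀ p, ¬ ty p → ∃ i, G ^ N / m i ∈ M2.A p ∧ m i / G ^ N ∈ M2.A p := fun p hp =>
    (hdich p).resolve_right hp
  let E : T1 × J → I1 → ℤ := fun p => if hp : ty p then γμ (c p.1) else γm (hnty p hp).choose
  have hEA : ∀ p (hp : ¬ ty p), E p = γm (hnty p hp).choose := fun p hp => dif_neg hp
  have hEB : ∀ p, ty p → E p = γμ (c p.1) := fun p hp => dif_pos hp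
  obtain ⟨I3, hI3, M3, hA3, hB3, hG3, hc3, hc3'⟩ := exists_addc M2 G hG0 N hN ty E
    (fun p => μ (c p.1)) (fun p => th k D (φ (c p.1))) (fun p => hO2.ld p _ (hc p.1))
    (by
      intro p hp
      rw [hEA p hp]
      obtain ⟨h1, h2⟩ := (hnty p hp).choose_spec
      set i := (hnty p hp).choose
      obtain ⟨w, h0, h3, h4, h5⟩ := hγm i p
      refine ⟨G ^ N / m i * w, mul_ne_zero (div_ne_zero hGN (hm0 i)) h0,
        (M2.A p).mul_mem h1 h3, ?_, ?_⟩
      · rw [mul_inv, inv_div]
        exact (M2.A p).mul_mem h2 h4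
      · rw [mul_assoc, ← h5, div_mul_cancel₀ _ (hm0 i)])
    (by
      intro p hp
      refine ⟨?_, hp, ?_⟩
      · rw [hEB p hp]
        exact hγμ (c p.1) p
      · rw [th_apply]
        change φ (c p.1) * D (aeval z (F b)) = φ (c p.1) * G'
        rw [D_aeval hD])
  have hbr3 : ∀ g, IsBr M g → IsBr M3 g := by
    rintro g ⟨n, hn, hg⟩
    exact ⟨n, hn, hB3 _ (hB2 _ hg)⟩
  refine ⟨T1 × J, I3, inferInstance, hI3, M3, ⟨?_, ?_, ?_, ?_⟩⟩
  · rintro b' (rfl | hb'')
    · exact ⟨N, hN, hG3⟩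
    · exact hbr3 _ (hM.br b' hb'')
  · exact fun g hg => hbr3 g (hM.brP g hg)
  · intro p
    by_cases hp : ty p
    · refine ⟨b, Set.mem_insert _ _, hb1, hbr3 _ hb', ?_⟩
      have h1 := hc3' p hp
      have e : (G / μ (c p.1)) • th k D (φ (c p.1)) =
          th k D (aeval z (F b) / aeval z (derivative (F b))) := by
        apply Derivation.ext
        intro a
        rw [Derivation.smul_apply, th_apply, th_apply, smul_eq_mul, ← mul_assoc]
        congr 1
        change G / (φ (c p.1) * G') * φ (c p.1) = G / G'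
        have h2 := hφ0 (c p.1)
        have h3 : G' ≠ 0 := hb'.ne
        field_simp
      rw [← e]
      exact h1
    · exact ⟨(c p.1).1, Set.mem_insert_of_mem _ (c p.1).2.1, (c p.1).2.2.1,
        hbr3 _ (c p.1).2.2.2, hc3 p hp⟩
  · intro p
    obtain ⟨t0, ht0⟩ := hM.dom (π1 p.1)
    refine ⟨t0, ?_⟩
    rw [hA3]
    exact ht0.trans ((hO1.le p.1).trans (hO2.le p))

end good

end Pool.Agent.N98.RW
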