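import Pool.Agent.N98.RW.P1
import Pool.Agent.N98.RW.HasRM
import Pool.Agent.N98.Filt
import Pool.Agent.N98.Tn

/-!
Families of polynomials of bounded degree over a base: induction on the number of variables.
-/

set_option autoImplicit false
set_option linter.unusedVariables false
set_option linter.unusedSimpArgs false
set_option linter.unusedSectionVars false

universe u

open scoped IntermediateField.algebraAdjoinAdjoin

open Polynomial Pool.Agent.W558 Pool.Agent.N98

namespace Pool.Agent.N98.RW

open Pool.Agent.N98.RV

/-- The derivatives do not vanish. -/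
lemma iter_ne_zero' {σ k E : Type*} [CommRing k] [Field E] [Algebra k E] {D : ℕ}
    (hD : IsUnit ((Nat.factorial D : ℕ) : k))
    {G : (MvPolynomial σ E)[X]} (hG : G ≠ 0) (hd : G.natDegree ≤ D) (j : ℕ)
    (hj : j ≤ G.natDegree) : derivative^[j] G ≠ 0 := by
  intro h0
  have h1 : (derivative^[j] G).coeff (G.natDegree - j) =
      (0 : (MvPolynomial σ E)[X]).coeff (G.natDegree - j) := by
    rw [h0]
  rw [coeff_iterate_derivative, coeff_zero, Nat.sub_add_cancel hj, nsmul_eq_mul] at h1
  rcases mul_eq_zero.1 h1 with h2 | h2
  · have h3 : G.natDegree.descFactorial j ∣ Nat.factorial D := by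
      refine dvd_trans ?_ (Nat.factorial_dvd_factorial hd)
      exact ⟨_, by rw [mul_comm]; exact (Nat.factorial_mul_descFactorial hj).symm⟩
    obtain ⟨m, hm⟩ := h3
    rw [hm, Nat.cast_mul] at hD
    have h4 : IsUnit ((G.natDegree.descFactorial j : ℕ) : k) := isUnit_of_mul_isUnit_left hD
    have h5 := h4.map (algebraMap k (MvPolynomial σ E))
    rw [map_natCast, h2] at h5
    exact not_isUnit_zero h5
  · rw [coeff_natDegree, leadingCoeff_eq_zero] at h2
    exact hG h2

end Pool.Agent.N98.RW
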