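import Pool.Agent.N98.RW.Fin3

/-!
Log uniformization in bounded degree: polynomials of bounded degree.
-/

set_option autoImplicit false
set_option linter.unusedVariables false
set_option linter.unusedSectionVars false

universe u

namespace Pool.Agent.N98.RW

open IsLocalRing Pool.Agent.W418.LU2 Pool.Agent.N98.RV Pool.Agent.N98 MvPolynomial

section main

variable {E K : Type u} [Field E] [Field K] [Algebra E K]

/-- Products of integral powers of polynomials of degree at most `e`. -/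
def PProd {N : ℕ} (x : Fin N → K) (e : ℕ) (z : K) : Prop :=
  ∃ (q : ℕ) (P : Fin q → MvPolynomial (Fin N) E) (n : Fin q → ℤ),
    (∀ i, (P i).totalDegree ≤ e) ∧ z = ∏ i, aeval x (P i) ^ n i

/-- The exponents of the monomials of degree at most `e`. -/
def Ex (N e : ℕ) : Type := {m : Fin N → Fin (e + 1) // ∑ i, (m i : ℕ) ≤ e}

noncomputable instance (N e : ℕ) : Fintype (Ex N e) := by
  classical
  exact inferInstanceAs (Fintype {m : Fin N → Fin (e + 1) // ∑ i, (m i : ℕ) ≤ e})

/-- The monomials. -/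
noncomputable def vm {N : ℕ} (x : Fin N → K) (e : ℕ) (m : Ex N e) : K := ∏ i, x i ^ (m.1 i : ℕ)

lemma sum_le_of_mem {N e : ℕ} {P : MvPolynomial (Fin N) E} (hP : P.totalDegree ≤ e)
    {m : Fin N →₀ ℕ} (hm : m ∈ P.support) : ∑ i, m i ≤ e := by
  have h1 := le_totalDegree hm
  rw [Finsupp.sum_fintype _ _ (fun _ => rfl)] at h1
  exact h1.trans hP

lemma aeval_vm {N e : ℕ} (x : Fin N → K) {P : MvPolynomial (Fin N) E} (hP : P.totalDegree ≤ e) :
    ∃ b : Ex N e → E, aeval x P = ∑ m, algebraMap E K (b m) * vm x e m := by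
  classical
  let φ : Ex N e → (Fin N →₀ ℕ) := fun m => Finsupp.equivFunOnFinite.symm fun i => (m.1 i : ℕ)
  have hφ : ∀ m i, φ m i = (m.1 i : ℕ) := fun m i => rfl
  have hφi : Function.Injective φ := by
    intro m m' h
    apply Subtype.ext
    funext i
    apply Fin.ext
    rw [← hφ m i, ← hφ m' i, h]
  refine ⟨fun m => P.coeff (φ m), ?_⟩
  rw [aeval_def, eval₂_eq]
  have h1 : ∑ m : Ex N e, algebraMap E K (P.coeff (φ m)) * vm x e m =
      ∑ d ∈ Finset.univ.image φ, algebraMap E K (P.coeff d) * ∏ i, x i ^ d i := by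
    rw [Finset.sum_image fun m _ m' _ h => hφi h]
    rfl
  rw [h1]
  refine (Finset.sum_congr rfl fun d _ => ?_).trans (Finset.sum_subset (s₁ := P.support) ?_ ?_)
  · congr 1
    exact Finset.prod_subset (Finset.subset_univ _) fun i _ hi => by
      rw [Finsupp.notMem_support_iff.1 hi, pow_zero]
  · intro d hd
    have h2 := sum_le_of_mem hP hd
    have h3 : ∀ i, d i < e + 1 := fun i =>
      Nat.lt_succ_of_le ((Finset.single_le_sum (fun _ _ => Nat.zero_le _)
        (Finset.mem_univ i)).trans h2)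
    refine Finset.mem_image.2 ⟨⟨fun i => ⟨d i, h3 i⟩, h2⟩, Finset.mem_univ _, ?_⟩
    ext i
    rfl
  · intro d _ hd
    rw [notMem_support_iff.1 hd, map_zero, zero_mul]

lemma img_vm_le {N e : ℕ} (x : Fin N → K) {τ : Type} (σ : τ → Ex N e) (t : ℕ) :
    img E (fun j => vm x e (σ j)) t ≤ img E x (e * t) := by
  rintro _ ⟨P, hP, rfl⟩
  have hP' : P.totalDegree ≤ t := (mem_restrictTotalDegree _ _ _).1 hP
  let Q : Ex N e → MvPolynomial (Fin N) E := fun m => ∏ i, X i ^ (m.1 i : ℕ)
  have hQ : ∀ m, (Q m).totalDegree ≤ e := by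
    intro m
    refine (totalDegree_finsetProd _ _).trans (le_trans ?_ m.2)
    refine Finset.sum_le_sum fun i _ => ?_
    rw [totalDegree_X_pow]
  have hQx : ∀ m, aeval x (Q m) = vm x e m := by
    intro m
    change aeval x (∏ i, X i ^ (m.1 i : ℕ)) = ∏ i, x i ^ (m.1 i : ℕ)
    rw [map_prod]
    refine Finset.prod_congr rfl fun i _ => ?_
    rw [map_pow, aeval_X]
  refine ⟨aeval (fun j => Q (σ j)) P, ?_, ?_⟩
  · rw [SetLike.mem_coe, mem_restrictTotalDegree]
    rw [aeval_def, eval₂_eq]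
    refine totalDegree_finsetSum_le fun m hm => ?_
    refine (totalDegree_mul _ _).trans ?_
    have h1 : (algebraMap E (MvPolynomial (Fin N) E) (coeff m P)).totalDegree = 0 :=
      totalDegree_C _
    rw [h1, zero_add]
    refine (totalDegree_finsetProd _ _).trans ?_
    have h2 : ∑ i ∈ m.support, (Q (σ i) ^ m i).totalDegree ≤ ∑ i ∈ m.support, e * m i := by
      refine Finset.sum_le_sum fun i _ => ?_
      refine (totalDegree_pow _ _).trans ?_
      rw [mul_comm]
      exact Nat.mul_le_mul_right _ (hQ _)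
    refine h2.trans ?_
    rw [← Finset.mul_sum]
    refine Nat.mul_le_mul_left _ ?_
    exact (le_totalDegree hm).trans hP'
  · change aeval x (aeval (fun j => Q (σ j)) P) = aeval (fun j => vm x e (σ j)) P
    have h1 : (aeval x : MvPolynomial (Fin N) E →ₐ[E] K).comp (aeval (fun j => Q (σ j))) =
        aeval (fun j => vm x e (σ j)) := by
      apply algHom_ext
      intro j
      rw [AlgHom.comp_apply, aeval_X, aeval_X, hQx]
    rw [← h1]
    rfl

/-- **Log uniformization in bounded degree.** -/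
theorem lgu_deg [Infinite E] {N r δ e : ℕ} (he : 1 ≤ e) (x : Fin N → K)
    (htop : IntermediateField.adjoin E (Set.range x) = ⊤) (htr : Algebra.trdeg E K = r) (C0 : ℕ)
    (hδ : ∀ t : ℕ, r.factorial * Module.finrank E (img E x t) ≤ δ * (t + C0) ^ r)
    (V : ValuationSubring K)
    (hp : ∀ p : ℕ, p.Prime → p ≤ (δ * e ^ r) ^ 2 ^ r → V.valuation (p : K) = 1)
    (R : Subring E) (hfr : ∀ z : E, ∃ a ∈ R, ∃ b ∈ R, b ≠ 0 ∧ z = a * b⁻¹)
    (hR : HasF (AdlS (V.comap (algebraMap E K)) R)
      ({V.comap (algebraMap E K)} : Set (ValuationSubring E)))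
    (G : Set K) (hG : G.Finite) (hGm : ∀ z ∈ G, PProd (E := E) x e z)
    (A : Subring K) (hAV : A ≤ V.toSubring)
    (hGA : Subring.closure ((R.map (algebraMap E K) : Set K) ∪ G) ≤ A)
    (hA : ∀ z ∈ A, IsIntegral (Subring.closure ((R.map (algebraMap E K) : Set K) ∪ G)) z)
    (hx : ∀ j, ∃ b ∈ A, b ≠ 0 ∧ PProd (E := E) x e b ∧ b * x j ∈ A)
    (D I₀ : Ideal A) (SD SI : Set A) (hSD : SD.Finite) (hSI : SI.Finite)
    (hD : D = Ideal.span SD) (hI₀ : I₀ = Ideal.span SI) (hD0 : D ≠ ⊥) (hI0 : I₀ ≠ ⊥)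
    (hmD : ∀ a ∈ SD, PProd (E := E) x e (a : K)) (hmI : ∀ a ∈ SI, PProd (E := E) x e (a : K)) :
    ∃ I₁ : Ideal A, I₁ ≠ ⊥ ∧ LogDesing V A D (I₀ * I₁) := by
  classical
  have hRA : ∀ c ∈ R, algebraMap E K c ∈ A := fun c hc =>
    hGA (Subring.subset_closure (Or.inl ⟨c, hc, rfl⟩))
  let N' := Fintype.card (Ex N e)
  let σ : Fin N' ≃ Ex N e := (Fintype.equivFin (Ex N e)).symm
  let x' : Fin N' → K := fun j => vm x e (σ j)
  have hL : ∀ z, PProd (E := E) x e z → LProd (E := E) x' z := by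
    rintro z ⟨q, P, n, hP, rfl⟩
    choose b hb using fun i => aeval_vm x (hP i)
    refine ⟨q, fun _ => 0, fun i l => b i (σ l), n, ?_⟩
    refine Finset.prod_congr rfl fun i _ => ?_
    rw [map_zero, zero_add, hb i]
    congr 1
    exact (Equiv.sum_comp σ (fun m => algebraMap E K (b i m) * vm x e m)).symm
  refine lgu (E := E) (r := r) (δ := δ * e ^ r) x' ?_ htr C0 ?_ V hp R hfr hR G hG
    (fun z hz => hL z (hGm z hz)) A hAV hGA hA ?_ D I₀ SD SI hSD hSI hD hI₀ hD0 hI0
    (fun a ha => hL _ (hmD a ha)) (fun a ha => hL _ (hmI a ha))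
  · rw [eq_top_iff, ← htop, IntermediateField.adjoin_le_iff]
    rintro _ ⟨i, rfl⟩
    refine IntermediateField.subset_adjoin _ _ ?_
    let m : Ex N e := ⟨fun j => if j = i then ⟨1, by omega⟩ else 0, by
      have h1 : ∀ j, (((if j = i then (⟨1, by omega⟩ : Fin (e + 1)) else 0) : Fin (e + 1)) : ℕ) =
          if j = i then 1 else 0 := by
        intro j
        split_ifs <;> rfl
      rw [Finset.sum_congr rfl fun j _ => h1 j, Finset.sum_ite_eq' Finset.univ i]
      simpa using he⟩
    refine ⟨σ.symm m, ?_⟩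
    change vm x e (σ (σ.symm m)) = x i
    rw [Equiv.apply_symm_apply]
    change ∏ j, x j ^ (((if j = i then (⟨1, by omega⟩ : Fin (e + 1)) else 0) : Fin (e + 1)) : ℕ) =
      x i
    rw [Finset.prod_eq_single i]
    · rw [if_pos rfl, pow_one]
    · intro j _ hj
      rw [if_neg hj]
      exact pow_zero _
    · intro h; exact absurd (Finset.mem_univ _) h
  · intro t
    have hfin : FiniteDimensional E (img E x (e * t)) := by
      have h1 : FiniteDimensional E (restrictTotalDegree (Fin N) E (e * t)) := by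
        infer_instance
      unfold img
      infer_instance
    have h1 : Module.finrank E (img E x' t) ≤ Module.finrank E (img E x (e * t)) :=
      Submodule.finrank_mono (img_vm_le x σ t)
    calc r.factorial * Module.finrank E (img E x' t) ≤
        r.factorial * Module.finrank E (img E x (e * t)) := Nat.mul_le_mul_left _ h1
      _ ≤ δ * (e * t + C0) ^ r := hδ _
      _ ≤ δ * (e * (t + C0)) ^ r := by
        refine Nat.mul_le_mul_left _ (Nat.pow_le_pow_left ?_ r)
        rw [mul_add]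
        have : C0 ≤ e * C0 := Nat.le_mul_of_pos_left _ he
        omega
      _ = δ * e ^ r * (t + C0) ^ r := by rw [mul_pow, mul_assoc]
  · intro j
    choose b hb hb0 hbp hbx using hx
    refine ⟨∏ i, b i ^ ((σ j).1 i : ℕ), A.prod_mem fun i _ => A.pow_mem (hb i) _,
      Finset.prod_ne_zero_iff.2 fun i _ => pow_ne_zero _ (hb0 i), ?_, ?_⟩
    · exact LProd.prod _ _ fun i _ => (hL _ (hbp i)).pow _
    · change (∏ i, b i ^ ((σ j).1 i : ℕ)) * ∏ i, x i ^ ((σ j).1 i : ℕ) ∈ A
      rw [← Finset.prod_mul_distrib]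
      refine A.prod_mem fun i _ => ?_
      rw [← mul_pow]
      exact A.pow_mem (hbx i) _

end main

end Pool.Agent.N98.RW
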